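import Mathlib

/-! Definitions: computable fields and cohesive powers. -/

namespace Pool.Agent.R626.Coh

open Filter

/-- The set `C` is cohesive: it is infinite, and for every c.e. set `W` one of `C ∩ W`, `C \ W` is
finite. -/
def Cohesive (C : Set ℕ) : Prop :=
  C.Infinite ∧ ∀ W : Set ℕ, REPred (fun n => n ∈ W) → (C ∩ W).Finite ∨ (C \ W).Finite

/-- A property holds for almost every `i` (in the sense of `C`) if it holds for all but finitely
many elements of `C`. -/
def ae (C : Set ℕ) : Filter ℕ := cofinite ⊓ 𝓟 C

theorem eventually_ae {C : Set ℕ} {P : ℕ → Prop} :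
    (∀ᶠ i in ae C, P i) ↔ (C \ {i | P i}).Finite := by
  unfold ae
  rw [eventually_inf_principal, eventually_cofinite]
  have : {x | ¬(x ∈ C → P x)} = C \ {i | P i} := by
    ext x; simp
  rw [this]

/-- A computable field: a field structure on a computable set `D` of natural numbers whose
operations are computable. -/
class ComputableField (D : Set ℕ) [Field D] : Prop where
  dom : ComputablePred fun n => n ∈ D
  add : ∃ f : ℕ → ℕ → ℕ, Computable₂ f ∧ ∀ a b : D, ((a + b : D) : ℕ) = f a b
  mul : ∃ f : ℕ → ℕ → ℕ, Computable₂ f ∧ ∀ a b : D, ((a * b : D) : ℕ) = f a b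

/-- A computable extension: the embedding of `F` into `K` is computable. -/
class ComputableExtension (F K : Set ℕ) [Field F] [Field K] [Algebra F K] : Prop where
  embed : ∃ f : ℕ → ℕ, Computable f ∧ ∀ a : F, ((algebraMap F K a : K) : ℕ) = f a

section CK
variable {α : Type*} [Primcodable α] {K : Set ℕ}

/-- the function into the field is computable -/
def CK (f : α → K) : Prop := Computable fun a => (f a : ℕ)

theorem CK.const (c : K) : CK (fun _ : α => c) := Computable.const (c : ℕ)

theorem CK.comp {β : Type*} [Primcodable β] {f : β → K} (hf : CK f) {g : α → β}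
    (hg : Computable g) : CK fun a => f (g a) :=
  (show Computable (fun b => (f b : ℕ)) from hf).comp hg

variable [Field K] [ComputableField K]

theorem CK.add {f g : α → K} (hf : CK f) (hg : CK g) : CK fun a => f a + g a := by
  obtain ⟨h, h1, h2⟩ := ComputableField.add (D := K)
  exact (h1.comp hf hg).of_eq fun a => (h2 _ _).symm

theorem CK.mul {f g : α → K} (hf : CK f) (hg : CK g) : CK fun a => f a * g a := by
  obtain ⟨h, h1, h2⟩ := ComputableField.mul (D := K)
  exact (h1.comp hf hg).of_eq fun a => (h2 _ _).symm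

end CK

/-- partial computable function into the domain, defined almost everywhere -/
theorem map_part {C : Set ℕ} {A B : Set ℕ} {f : ℕ → A} {g : ℕ → B} {φ : ℕ →. ℕ}
    (hφ : Partrec φ) (h : ∀ᶠ i in ae C, (f i : ℕ) ∈ φ i) {u : ℕ → ℕ} (hu : Computable u)
    (hfg : ∀ i, (g i : ℕ) = u (f i)) :
    ∃ ψ : ℕ →. ℕ, Partrec ψ ∧ ∀ᶠ i in ae C, (g i : ℕ) ∈ ψ i := by
  refine ⟨fun i => (φ i).map u, hφ.map (hu.comp Computable.snd), ?_⟩
  filter_upwards [h] with i hi
  rw [hfg]
  exact Part.mem_map u hi

theorem map2_part {C : Set ℕ} {A : Set ℕ} {f f' g : ℕ → A} {φ φ' : ℕ →. ℕ}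
    (hφ : Partrec φ) (hφ' : Partrec φ')
    (h : ∀ᶠ i in ae C, (f i : ℕ) ∈ φ i) (h' : ∀ᶠ i in ae C, (f' i : ℕ) ∈ φ' i)
    {u : ℕ → ℕ → ℕ} (hu : Computable₂ u)
    (hfg : ∀ i, (g i : ℕ) = u (f i) (f' i)) :
    ∃ ψ : ℕ →. ℕ, Partrec ψ ∧ ∀ᶠ i in ae C, (g i : ℕ) ∈ ψ i := by
  refine ⟨fun i => (φ i).bind fun a => (φ' i).map fun b => u a b, ?_, ?_⟩
  · refine hφ.bind (Partrec.map (hφ'.comp Computable.fst) ?_)
    exact hu.comp (Computable.snd.comp Computable.fst) Computable.snd
  · filter_upwards [h, h'] with i hi hi'
    rw [hfg]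
    exact Part.mem_bind_iff.2 ⟨_, hi, Part.mem_map _ hi'⟩

/-- The classes `[φ]` modulo equality almost everywhere of the partial computable functions
`φ : ω → A` which are defined almost everywhere, as germs of (total) functions `f` which agree with
`φ` almost everywhere. -/
def powerSet (C : Set ℕ) (A : Set ℕ) : Set (Germ (ae C) A) :=
  {g | ∃ f : ℕ → A, (f : Germ (ae C) A) = g ∧
    ∃ φ : ℕ →. ℕ, Partrec φ ∧ ∀ᶠ i in ae C, (f i : ℕ) ∈ φ i}

section powerSet
variable {C : Set ℕ} {A : Set ℕ} [Field A] [ComputableField A]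

theorem powerSet_mul {x y : Germ (ae C) A} (hx : x ∈ powerSet C A) (hy : y ∈ powerSet C A) :
    x * y ∈ powerSet C A := by
  obtain ⟨f, rfl, φ, hφ, h⟩ := hx
  obtain ⟨f', rfl, φ', hφ', h'⟩ := hy
  obtain ⟨u, h1, h2⟩ := ComputableField.mul (D := A)
  exact ⟨f * f', rfl, map2_part hφ hφ' h h' h1 fun i => h2 _ _⟩

theorem powerSet_add {x y : Germ (ae C) A} (hx : x ∈ powerSet C A) (hy : y ∈ powerSet C A) :
    x + y ∈ powerSet C A := by
  obtain ⟨f, rfl, φ, hφ, h⟩ := hx
  obtain ⟨f', rfl, φ', hφ', h'⟩ := hy
  obtain ⟨u, h1, h2⟩ := ComputableField.add (D := A)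
  exact ⟨f + f', rfl, map2_part hφ hφ' h h' h1 fun i => h2 _ _⟩

omit [ComputableField A] in
theorem powerSet_one : (1 : Germ (ae C) A) ∈ powerSet C A := by
  refine ⟨fun _ => 1, rfl, fun _ => Part.some ((1 : A) : ℕ), Partrec.some.comp
    (Computable.const ((1 : A) : ℕ)), ?_⟩
  exact Eventually.of_forall fun i => Part.mem_some _

omit [ComputableField A] in
theorem powerSet_zero : (0 : Germ (ae C) A) ∈ powerSet C A := by
  refine ⟨fun _ => 0, rfl, fun _ => Part.some ((0 : A) : ℕ), Partrec.some.comp
    (Computable.const ((0 : A) : ℕ)), ?_⟩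
  exact Eventually.of_forall fun i => Part.mem_some _

theorem powerSet_neg {x : Germ (ae C) A} (hx : x ∈ powerSet C A) : -x ∈ powerSet C A := by
  obtain ⟨f, rfl, φ, hφ, h⟩ := hx
  obtain ⟨u, h1, h2⟩ := ComputableField.mul (D := A)
  refine ⟨-f, rfl, map_part (u := fun n => u ((-1 : A) : ℕ) n) hφ h
    (h1.comp (Computable.const _) Computable.id) fun i => ?_⟩
  rw [← h2, neg_one_mul]
  rfl

end powerSet

/-- The cohesive power of the computable field `A`, with the pointwise operations. -/
def CohesivePower (C : Set ℕ) (A : Set ℕ) [Field A] [ComputableField A] :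
    Subring (Germ (ae C) A) where
  carrier := powerSet C A
  mul_mem' := powerSet_mul
  one_mem' := powerSet_one
  add_mem' := powerSet_add
  zero_mem' := powerSet_zero
  neg_mem' := powerSet_neg

section germMap
variable (C : Set ℕ) {F K : Set ℕ} [Field F] [Field K] [Algebra F K]

theorem germ_one : Germ.map (algebraMap F K) (1 : Germ (ae C) F) = 1 := by
  change Germ.map (algebraMap F K) ((fun _ => 1 : ℕ → F) : Germ (ae C) F) = _
  rw [Germ.map_coe]
  exact congr_arg _ (funext fun i => map_one _)

theorem germ_zero : Germ.map (algebraMap F K) (0 : Germ (ae C) F) = 0 := by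
  change Germ.map (algebraMap F K) ((fun _ => 0 : ℕ → F) : Germ (ae C) F) = _
  rw [Germ.map_coe]
  exact congr_arg _ (funext fun i => map_zero _)

theorem germ_mul (x y : Germ (ae C) F) : Germ.map (algebraMap F K) (x * y) =
    Germ.map (algebraMap F K) x * Germ.map (algebraMap F K) y := by
  induction x using Germ.inductionOn with | _ f => ?_
  induction y using Germ.inductionOn with | _ g => ?_
  change Germ.map (algebraMap F K) ((f * g : ℕ → F) : Germ (ae C) F) = _
  rw [Germ.map_coe]
  exact congr_arg _ (funext fun i => map_mul _ _ _)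

theorem germ_add (x y : Germ (ae C) F) : Germ.map (algebraMap F K) (x + y) =
    Germ.map (algebraMap F K) x + Germ.map (algebraMap F K) y := by
  induction x using Germ.inductionOn with | _ f => ?_
  induction y using Germ.inductionOn with | _ g => ?_
  change Germ.map (algebraMap F K) ((f + g : ℕ → F) : Germ (ae C) F) = _
  rw [Germ.map_coe]
  exact congr_arg _ (funext fun i => map_add _ _ _)

theorem germ_mem [ComputableExtension F K] {x : Germ (ae C) F} (hx : x ∈ powerSet C F) :
    Germ.map (algebraMap F K) x ∈ powerSet C K := by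
  obtain ⟨f, hf, φ, hφ, h⟩ := hx
  obtain ⟨u, h1, h2⟩ := ComputableExtension.embed (F := F) (K := K)
  refine ⟨fun i => algebraMap F K (f i), ?_, map_part hφ h h1 fun i => h2 _⟩
  rw [← hf]; rfl

end germMap

/-- The cohesive power as a type. -/
def Power (C : Set ℕ) (A : Set ℕ) [Field A] [ComputableField A] : Type := CohesivePower C A

instance (C : Set ℕ) (A : Set ℕ) [Field A] [ComputableField A] : CommRing (Power C A) :=
  (CohesivePower C A).toCommRing

/-- The embedding of cohesive powers induced, pointwise, by the embedding of `F` into `K`. -/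
def powerFun (C : Set ℕ) (F K : Set ℕ) [Field F] [Field K] [Algebra F K]
    [ComputableField F] [ComputableField K] [ComputableExtension F K]
    (x : Power C F) : Power C K := ⟨Germ.map (algebraMap F K) x.1, germ_mem C x.2⟩

section powerFun
variable (C : Set ℕ) {F K : Set ℕ} [Field F] [Field K] [Algebra F K]
    [ComputableField F] [ComputableField K] [ComputableExtension F K]

theorem powerFun_one : powerFun C F K 1 = 1 := Subtype.ext (germ_one C)
theorem powerFun_zero : powerFun C F K 0 = 0 := Subtype.ext (germ_zero C)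
theorem powerFun_mul (x y : Power C F) :
    powerFun C F K (x * y) = powerFun C F K x * powerFun C F K y :=
  Subtype.ext (germ_mul C x.1 y.1)
theorem powerFun_add (x y : Power C F) :
    powerFun C F K (x + y) = powerFun C F K x + powerFun C F K y :=
  Subtype.ext (germ_add C x.1 y.1)

end powerFun

/-- The embedding of cohesive powers as a ring homomorphism. -/
def powerMap (C : Set ℕ) (F K : Set ℕ) [Field F] [Field K] [Algebra F K]
    [ComputableField F] [ComputableField K] [ComputableExtension F K] :
    Power C F →+* Power C K where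
  toFun := powerFun C F K
  map_one' := powerFun_one C
  map_zero' := powerFun_zero C
  map_mul' := powerFun_mul C
  map_add' := powerFun_add C

/-- The extension given by an embedding `ι : R → S` of commutative rings is transcendental: some
element of `S` is not a root of any nonzero polynomial with coefficients in `R`. -/
def TranscendentalExt {R S : Type*} [CommRing R] [CommRing S] (ι : R →+* S) : Prop :=
  ∃ x : S, ∀ p : Polynomial R, p ≠ 0 → p.eval₂ ι x ≠ 0

end Pool.Agent.R626.Coh
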