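import Pool.Agent.R626.CohA
import Pool.Agent.R626.CohDefs

/-! Computable sequences with degrees tending to infinity. -/

namespace Pool.Agent.R626.Coh

open Filter

/-! ### toolbox -/

theorem npow (q : ℕ) : Computable fun n : ℕ => q ^ n := by
  have h : Computable fun n : ℕ => (Nat.rec 1 (fun _ v => v * q) n : ℕ) := by
    refine Computable.nat_rec (h := fun _ (p : ℕ × ℕ) => p.2 * q) Computable.id
      (Computable.const 1) ?_
    exact Primrec.nat_mul.to_comp.comp (Computable.snd.comp Computable.snd) (Computable.const q)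
  refine h.of_eq fun n => ?_
  induction n with
  | zero => rfl
  | succ n ih => rw [pow_succ, ← ih]

section tool
variable {α β : Type*} [Primcodable α] [Primcodable β]

theorem cp_comp {P : β → Prop} (hP : ComputablePred P) {f : α → β} (hf : Computable f) :
    ComputablePred fun a => P (f a) := by
  obtain ⟨h1, h2⟩ := hP
  exact ⟨fun a => h1 (f a), h2.comp hf⟩

theorem cp_or {P Q : α → Prop} (hP : ComputablePred P) (hQ : ComputablePred Q) :
    ComputablePred fun a => P a ∨ Q a := by
  obtain ⟨h1, h2⟩ := hP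
  obtain ⟨h3, h4⟩ := hQ
  refine ⟨fun a => inferInstance, ?_⟩
  exact ((Primrec.or.to_comp.comp h2 h4)).of_eq fun a => by simp

theorem cp_and {P Q : α → Prop} (hP : ComputablePred P) (hQ : ComputablePred Q) :
    ComputablePred fun a => P a ∧ Q a := by
  obtain ⟨h1, h2⟩ := hP
  obtain ⟨h3, h4⟩ := hQ
  refine ⟨fun a => inferInstance, ?_⟩
  exact ((Primrec.and.to_comp.comp h2 h4)).of_eq fun a => by simp

theorem cp_not {P : α → Prop} (hP : ComputablePred P) : ComputablePred fun a => ¬ P a := by
  obtain ⟨h1, h2⟩ := hP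
  refine ⟨fun a => inferInstance, ?_⟩
  exact ((Primrec.not.to_comp.comp h2)).of_eq fun a => by simp

theorem cp_ball {P : α → ℕ → Prop} (hP : ComputablePred fun p : α × ℕ => P p.1 p.2)
    {b : α → ℕ} (hb : Computable b) : ComputablePred fun a => ∀ n < b a, P a n := by
  classical
  obtain ⟨h1, h2⟩ := hP
  have h3 : Computable fun a => (Nat.rec true (fun n v => v && decide (P a n)) (b a) : Bool) := by
    refine Computable.nat_rec (h := fun a (p : ℕ × Bool) => p.2 && decide (P a p.1)) hb
      (Computable.const true) ?_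
    have h4 : Computable fun q : α × ℕ × Bool => decide (P q.1 q.2.1) :=
      (h2.comp (Computable.pair Computable.fst (Computable.fst.comp Computable.snd))).of_eq
        fun q => by simp
    exact Primrec.and.to_comp.comp (Computable.snd.comp Computable.snd) h4
  refine ⟨fun a => inferInstance, h3.of_eq fun a => ?_⟩
  have : ∀ m, (Nat.rec true (fun n v => v && decide (P a n)) m : Bool) =
      decide (∀ n < m, P a n) := by
    intro m
    induction m with
    | zero => simp
    | succ m ih =>
      change ((Nat.rec true (fun n v => v && decide (P a n)) m : Bool) && decide (P a m)) = _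
      rw [ih, ← Bool.decide_and]
      congr 1
      refine propext ⟨fun h n hn => ?_, fun h => ⟨fun n hn => h n (by omega), h m (by omega)⟩⟩
      rcases Nat.lt_or_ge n m with h5 | h5
      · exact h.1 n h5
      · obtain rfl : n = m := by omega
        exact h.2
  exact this _

/-- least number search -/
theorem search {P : α → ℕ → Prop} (hP : ComputablePred fun p : α × ℕ => P p.1 p.2)
    (h : ∀ a, ∃ n, P a n) :
    ∃ f : α → ℕ, Computable f ∧ ∀ a, P a (f a) ∧ ∀ m < f a, ¬ P a m := by
  classical
  obtain ⟨h1, h2⟩ := hP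
  have h3 : Computable₂ fun a n => decide (P a n) := h2.of_eq fun p => by simp
  have h4 : Partrec fun a => Nat.rfind fun n => Part.some (decide (P a n)) :=
    Partrec.rfind (p := fun a n => Part.some (decide (P a n))) h3.partrec₂
  have h5 : ∀ a, Nat.find (h a) ∈ Nat.rfind fun n => Part.some (decide (P a n)) := by
    intro a
    refine Nat.mem_rfind.2 ⟨?_, fun {m} hm => ?_⟩
    · exact Part.mem_some_iff.2 (by simpa using Nat.find_spec (h a))
    · exact Part.mem_some_iff.2 (by simpa using Nat.find_min (h a) hm)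
  refine ⟨fun a => Nat.find (h a), ?_, fun a => ⟨Nat.find_spec (h a), fun m hm =>
    Nat.find_min (h a) hm⟩⟩
  exact h4.of_eq fun a => Part.eq_some_iff.2 (h5 a)

end tool

section field
variable {α : Type*} [Primcodable α] {K : Set ℕ} [Field K] [ComputableField K]

theorem CK.pow {f : α → K} (hf : CK f) {n : α → ℕ} (hn : Computable n) :
    CK fun a => f a ^ n a := by
  obtain ⟨h, h1, h2⟩ := ComputableField.mul (D := K)
  have h3 : Computable fun a => (Nat.rec ((1 : K) : ℕ) (fun _ v => h v (f a)) (n a) : ℕ) := by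
    refine Computable.nat_rec (h := fun a (p : ℕ × ℕ) => h p.2 (f a)) hn (Computable.const _) ?_
    exact h1.comp (Computable.snd.comp Computable.snd)
      ((show Computable (fun b => (f b : ℕ)) from hf).comp Computable.fst)
  refine h3.of_eq fun a => ?_
  change (Nat.rec ((1 : K) : ℕ) (fun _ v => h v (f a)) (n a) : ℕ) = ((f a ^ n a : K) : ℕ)
  generalize n a = m
  induction m with
  | zero => simp
  | succ m ih =>
    rw [pow_succ, h2, ← ih]

theorem CK.sum {g : α → ℕ → K} (hg : CK fun p : α × ℕ => g p.1 p.2) {n : α → ℕ}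
    (hn : Computable n) : CK fun a => ∑ i ∈ Finset.range (n a), g a i := by
  obtain ⟨h, h1, h2⟩ := ComputableField.add (D := K)
  have h3 : Computable fun a => (Nat.rec ((0 : K) : ℕ) (fun i v => h v (g a i)) (n a) : ℕ) := by
    refine Computable.nat_rec (h := fun a (p : ℕ × ℕ) => h p.2 (g a p.1)) hn
      (Computable.const _) ?_
    refine h1.comp (Computable.snd.comp Computable.snd) ?_
    exact (show Computable (fun p : α × ℕ => (g p.1 p.2 : ℕ)) from hg).comp
      (Computable.pair Computable.fst (Computable.fst.comp Computable.snd))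
  refine h3.of_eq fun a => ?_
  change (Nat.rec ((0 : K) : ℕ) (fun i v => h v (g a i)) (n a) : ℕ) =
    ((∑ i ∈ Finset.range (n a), g a i : K) : ℕ)
  generalize n a = m
  induction m with
  | zero => simp
  | succ m ih =>
    rw [Finset.sum_range_succ, h2, ← ih]

omit [Field K] [ComputableField K] in
theorem CK.eq {f g : α → K} (hf : CK f) (hg : CK g) : ComputablePred fun a => f a = g a := by
  classical
  refine ⟨fun a => inferInstance, ?_⟩
  have h1 : Primrec₂ fun u v : ℕ => decide (u = v) := Primrec.eq.decide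
  exact (h1.to_comp.comp (show Computable (fun b => (f b : ℕ)) from hf)
    (show Computable (fun b => (g b : ℕ)) from hg)).of_eq fun a => by
      simp [Subtype.ext_iff]

open Classical in
/-- the element with code `n`, or `0` -/
noncomputable def toK (K : Set ℕ) [Field K] (n : ℕ) : K := if h : n ∈ K then ⟨n, h⟩ else 0

omit [ComputableField K] in
theorem toK_coe (a : K) : toK K (a : ℕ) = a := by
  unfold toK
  rw [dif_pos a.2]

theorem CK.ofCode {f : α → ℕ} (hf : Computable f) : CK fun a => toK K (f a) := by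
  classical
  obtain ⟨h1, h2⟩ := ComputableField.dom (D := K)
  have h3 : Computable fun n => cond (decide (n ∈ K)) n ((0 : K) : ℕ) :=
    Computable.cond (h2.of_eq fun n => by simp) Computable.id (Computable.const _)
  refine (h3.comp hf).of_eq fun a => ?_
  unfold Coh.toK
  by_cases h : f a ∈ K <;> simp [h]

end field

section ext
variable {α : Type*} [Primcodable α] {F K : Set ℕ} [Field F] [Field K] [Algebra F K]
  [ComputableField F] [ComputableField K] [ComputableExtension F K]

omit [ComputableField F] [ComputableField K] in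
theorem CK.emb {f : α → F} (hf : CK f) : CK fun a => algebraMap F K (f a) := by
  obtain ⟨h, h1, h2⟩ := ComputableExtension.embed (F := F) (K := K)
  exact (h1.comp hf).of_eq fun a => (h2 _).symm

/-- value at `b` of the polynomial with list of coefficients number `l` -/
noncomputable def psum (F : Set ℕ) {K : Set ℕ} [Field F] [Field K] [Algebra F K]
    (l : ℕ) (b : K) : K :=
  ∑ i ∈ Finset.range (Denumerable.ofNat (List ℕ) l).length,
    algebraMap F K (toK F ((Denumerable.ofNat (List ℕ) l).getD i 0)) * b ^ i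

theorem CK.poly {l : α → ℕ} (hl : Computable l) {b : α → K} (hb : CK b) :
    CK fun a => psum F (l a) (b a) := by
  have hL : Computable fun a => Denumerable.ofNat (List ℕ) (l a) :=
    (Primrec.ofNat (List ℕ)).to_comp.comp hl
  refine CK.sum (g := fun a i => algebraMap F K
    (toK F ((Denumerable.ofNat (List ℕ) (l a)).getD i 0)) * b a ^ i) ?_
    (Primrec.list_length.to_comp.comp hL)
  refine CK.mul (CK.emb (CK.ofCode ?_)) (CK.pow (CK.comp hb Computable.fst) Computable.snd)
  exact (Primrec.list_getD 0).to_comp.comp (hL.comp Computable.fst) Computable.snd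

omit [ComputableField F] [ComputableField K] [ComputableExtension F K] in
theorem mem_adjoin_iff {a b : K} : a ∈ Algebra.adjoin F {b} ↔ ∃ l, psum F l b = a := by
  constructor
  · intro h
    rw [Algebra.adjoin_singleton_eq_range_aeval] at h
    obtain ⟨P, hP⟩ := h
    refine ⟨Encodable.encode ((List.range (P.natDegree + 1)).map fun i => ((P.coeff i : F) : ℕ)),
      ?_⟩
    unfold psum
    rw [Denumerable.ofNat_encode, ← hP]
    simp only [List.length_map, List.length_range]
    change _ = Polynomial.aeval b P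
    rw [Polynomial.aeval_eq_sum_range]
    refine Finset.sum_congr rfl fun i hi => ?_
    have hi2 : i < P.natDegree + 1 := Finset.mem_range.1 hi
    rw [Algebra.smul_def]
    congr 2
    have : (List.map (fun i => ((P.coeff i : F) : ℕ)) (List.range (P.natDegree + 1))).getD i 0 =
        ((P.coeff i : F) : ℕ) := by
      simp [List.getD, hi2]
    rw [this, toK_coe]
  · rintro ⟨l, rfl⟩
    unfold psum
    have hb : b ∈ Algebra.adjoin F {b} := Algebra.subset_adjoin (Set.mem_singleton b)
    refine sum_mem fun i _ => ?_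
    exact mul_mem (Subalgebra.algebraMap_mem _ _) (pow_mem hb i)

/-! ### Case I: separable elements of unbounded degree -/

theorem caseI [Algebra.IsAlgebraic F K]
    (hun : ∀ n, ∃ a : K, IsSeparable F a ∧ ¬ DegLe F n a) :
    ∃ α : ℕ → K, CK α ∧ ∀ n, ∀ᶠ s in atTop, ¬ DegLe F n (α s) := by
  obtain ⟨q, hq⟩ := ExpChar.exists F
  have hqK : ExpChar K q := expChar_of_injective_algebraMap (algebraMap F K).injective q
  let P : ℕ × ℕ → ℕ → Prop := fun p w =>
    psum F w.unpair.2.unpair.2.unpair.1 (toK K w.unpair.1) = toK K p.1 ^ q ^ w.unpair.2.unpair.1 ∧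
    psum F w.unpair.2.unpair.2.unpair.2 (toK K w.unpair.1) = toK K p.2 ^ q ^ w.unpair.2.unpair.1
  have hP : ComputablePred fun p : (ℕ × ℕ) × ℕ => P p.1 p.2 := by
    have u1 : Computable fun p : (ℕ × ℕ) × ℕ => p.2.unpair.1 :=
      (Primrec.fst.comp (Primrec.unpair.comp Primrec.snd)).to_comp
    have u2 : Primrec fun p : (ℕ × ℕ) × ℕ => p.2.unpair.2 :=
      (Primrec.snd.comp (Primrec.unpair.comp Primrec.snd))
    have u21 : Computable fun p : (ℕ × ℕ) × ℕ => p.2.unpair.2.unpair.1 :=
      (Primrec.fst.comp (Primrec.unpair.comp u2)).to_comp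
    have u22 : Primrec fun p : (ℕ × ℕ) × ℕ => p.2.unpair.2.unpair.2 :=
      (Primrec.snd.comp (Primrec.unpair.comp u2))
    have u221 : Computable fun p : (ℕ × ℕ) × ℕ => p.2.unpair.2.unpair.2.unpair.1 :=
      (Primrec.fst.comp (Primrec.unpair.comp u22)).to_comp
    have u222 : Computable fun p : (ℕ × ℕ) × ℕ => p.2.unpair.2.unpair.2.unpair.2 :=
      (Primrec.snd.comp (Primrec.unpair.comp u22)).to_comp
    have hpow : Computable fun p : (ℕ × ℕ) × ℕ => q ^ p.2.unpair.2.unpair.1 :=
      (npow q).comp u21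
    exact cp_and
      (CK.eq (CK.poly u221 (CK.ofCode u1))
        (CK.pow (CK.ofCode (Computable.fst.comp Computable.fst)) hpow))
      (CK.eq (CK.poly u222 (CK.ofCode u1))
        (CK.pow (CK.ofCode (Computable.snd.comp Computable.fst)) hpow))
  have hex : ∀ p, ∃ w, P p w := by
    rintro ⟨m, s⟩
    obtain ⟨γ, k, h1, h2⟩ := step_exists (F := F) q (toK K m) (toK K s)
    obtain ⟨l1, hl1⟩ := mem_adjoin_iff.1 h1
    obtain ⟨l2, hl2⟩ := mem_adjoin_iff.1 h2
    refine ⟨Nat.pair (γ : ℕ) (Nat.pair k (Nat.pair l1 l2)), ?_⟩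
    simp only [P, Nat.unpair_pair, toK_coe]
    exact ⟨hl1, hl2⟩
  obtain ⟨f, hf1, hf2⟩ := search hP hex
  let M : ℕ → ℕ := fun s => Nat.rec 0 (fun s m => (f (m, s)).unpair.1) s
  have hM : Computable M := by
    refine Computable.nat_rec (h := fun _ (p : ℕ × ℕ) => (f (p.2, p.1)).unpair.1) Computable.id
      (Computable.const 0) ?_
    have h1 : Computable fun q : ℕ × ℕ × ℕ => f (q.2.2, q.2.1) :=
      hf1.comp (Computable.pair (Computable.snd.comp Computable.snd)
        (Computable.fst.comp Computable.snd))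
    exact Computable.fst.comp (Primrec.unpair.to_comp.comp h1)
  have hstep : ∀ s, ∃ k, toK K (M s) ^ q ^ k ∈ Algebra.adjoin F {toK K (M (s + 1))} ∧
      toK K s ^ q ^ k ∈ Algebra.adjoin F {toK K (M (s + 1))} := by
    intro s
    obtain ⟨h1, h2⟩ := (hf2 (M s, s)).1
    have h3 : M (s + 1) = (f (M s, s)).unpair.1 := rfl
    refine ⟨(f (M s, s)).unpair.2.unpair.1, ?_, ?_⟩
    · rw [h3]; exact mem_adjoin_iff.2 ⟨_, h1⟩
    · rw [h3]; exact mem_adjoin_iff.2 ⟨_, h2⟩
  refine ⟨fun s => toK K (M s), CK.ofCode hM, fun n => ?_⟩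
  obtain ⟨a, ha1, ha2⟩ := hun n
  refine eventually_atTop.2 ⟨(a : ℕ) + 1, fun s hs hd => ha2 ?_⟩
  have h5 := captured (F := F) q (α := fun s => toK K (M s)) (x := fun s => toK K s) hstep
    (j := (a : ℕ)) (by rw [toK_coe]; exact ha1) s (by omega)
  rw [toK_coe] at h5
  exact DegLe.of_mem h5 hd

/-! ### Case II: purely inseparable over a simple extension -/

theorem caseII_A (q : ℕ) {β : K} {z : K}
    (hz : z ∉ Algebra.adjoin F {β})
    (h : ∀ c, ∃ u : K, z - u ^ q ^ c ∈ Algebra.adjoin F {β}) :
    ∃ α : ℕ → K, CK α ∧ ∀ J, ∀ᶠ s in atTop, α s ^ q ^ J ∉ Algebra.adjoin F {β} := by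
  let P : ℕ → ℕ → Prop := fun c w => z = psum F w.unpair.1 β + toK K w.unpair.2 ^ q ^ c
  have hP : ComputablePred fun p : ℕ × ℕ => P p.1 p.2 := by
    have u1 : Computable fun p : ℕ × ℕ => p.2.unpair.1 :=
      (Primrec.fst.comp (Primrec.unpair.comp Primrec.snd)).to_comp
    have u2 : Computable fun p : ℕ × ℕ => p.2.unpair.2 :=
      (Primrec.snd.comp (Primrec.unpair.comp Primrec.snd)).to_comp
    have hpow : Computable fun p : ℕ × ℕ => q ^ p.1 :=
      (npow q).comp Computable.fst
    exact CK.eq (CK.const z) (CK.add (CK.poly u1 (CK.const β)) (CK.pow (CK.ofCode u2) hpow))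
  have hex : ∀ c, ∃ w, P c w := by
    intro c
    obtain ⟨u, hu⟩ := h c
    obtain ⟨l, hl⟩ := mem_adjoin_iff.1 hu
    refine ⟨Nat.pair l (u : ℕ), ?_⟩
    simp only [P, Nat.unpair_pair, toK_coe, hl]
    ring
  obtain ⟨f, hf1, hf2⟩ := search hP hex
  refine ⟨fun c => toK K (f c).unpair.2, CK.ofCode (Computable.snd.comp
    (Primrec.unpair.to_comp.comp hf1)), fun J => ?_⟩
  refine eventually_atTop.2 ⟨J, fun c hc hmem => hz ?_⟩
  have h1 : z = psum F (f c).unpair.1 β + toK K (f c).unpair.2 ^ q ^ c := (hf2 c).1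
  rw [h1]
  refine add_mem (mem_adjoin_iff.2 ⟨_, rfl⟩) ?_
  have h4 : toK K (f c).unpair.2 ^ q ^ c = (toK K (f c).unpair.2 ^ q ^ J) ^ q ^ (c - J) := by
    rw [← pow_mul, ← pow_add, Nat.add_sub_cancel' hc]
  rw [h4]
  exact pow_mem hmem _

end ext

end Pool.Agent.R626.Coh
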