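import Mathlib

/-! Field theory for cohesive powers. -/

namespace Pool.Agent.R626.Coh

open Polynomial IntermediateField

/-- `α` is a root of a nonzero polynomial over `F` of degree at most `n` -/
def DegLe (F : Type*) {K : Type*} [Field F] [Field K] [Algebra F K] (n : ℕ) (α : K) : Prop :=
  ∃ P : F[X], P ≠ 0 ∧ P.natDegree ≤ n ∧ aeval α P = 0

variable {F K : Type*} [Field F] [Field K] [Algebra F K]

theorem degLe_iff {n : ℕ} {α : K} :
    DegLe F n α ↔ IsIntegral F α ∧ (minpoly F α).natDegree ≤ n := by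
  constructor
  · rintro ⟨P, h0, hn, hP⟩
    have hint : IsIntegral F α := (isAlgebraic_iff_isIntegral).1 ⟨P, h0, hP⟩
    exact ⟨hint, (natDegree_le_natDegree (minpoly.degree_le_of_ne_zero F α h0 hP)).trans hn⟩
  · rintro ⟨hint, hn⟩
    exact ⟨minpoly F α, minpoly.ne_zero hint, hn, minpoly.aeval F α⟩

theorem DegLe.mono {n m : ℕ} (h : n ≤ m) {α : K} (hα : DegLe F n α) : DegLe F m α := by
  obtain ⟨P, h0, hn, hP⟩ := hα
  exact ⟨P, h0, hn.trans h, hP⟩

theorem not_degLe_of_rank {n : ℕ} {α : K} (h : (n : Cardinal) < Module.rank F F⟮α⟯) :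
    ¬ DegLe F n α := by
  intro hd
  obtain ⟨hint, hn⟩ := degLe_iff.1 hd
  have hfd : FiniteDimensional F F⟮α⟯ := adjoin.finiteDimensional hint
  rw [← Module.finrank_eq_rank, adjoin.finrank hint, Nat.cast_lt] at h
  omega

theorem finrank_of_degLe {n : ℕ} {α : K} (hd : DegLe F n α) :
    FiniteDimensional F F⟮α⟯ ∧ Module.finrank F F⟮α⟯ ≤ n := by
  obtain ⟨hint, hn⟩ := degLe_iff.1 hd
  exact ⟨adjoin.finiteDimensional hint, by rw [adjoin.finrank hint]; exact hn⟩

theorem degLe_of_finrank {L : IntermediateField F K} {n : ℕ} [FiniteDimensional F L]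
    (h : Module.finrank F L ≤ n) {a : K} (ha : a ∈ L) : DegLe F n a := by
  have hint : IsIntegral F a := by
    have h1 : IsIntegral F (⟨a, ha⟩ : L) := IsIntegral.of_finite F _
    exact h1.map L.val
  rw [degLe_iff]
  refine ⟨hint, ?_⟩
  rw [← adjoin.finrank hint]
  have hle : F⟮a⟯ ≤ L := by
    rw [adjoin_simple_le_iff]; exact ha
  exact (IntermediateField.finrank_le_of_le_right hle).trans h

theorem adjoin_sub {α : K} (h : IsIntegral F α) (a : K) :
    a ∈ Algebra.adjoin F {α} ↔ a ∈ F⟮α⟯ := by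
  rw [← IntermediateField.mem_toSubalgebra,
    IntermediateField.adjoin_simple_toSubalgebra_of_isAlgebraic h.isAlgebraic]

theorem DegLe.of_mem {n : ℕ} {a α : K} (h : a ∈ Algebra.adjoin F {α}) (hα : DegLe F n α) :
    DegLe F n a := by
  obtain ⟨h1, h2⟩ := finrank_of_degLe hα
  exact degLe_of_finrank h2 ((adjoin_sub (degLe_iff.1 hα).1 a).1 h)

/-- a separable element lies in the field generated by its powers -/
theorem sep_mem (q : ℕ) [ExpChar F q] {a : K} (ha : IsSeparable F a) (k : ℕ) :
    a ∈ Algebra.adjoin F {a ^ q ^ k} := by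
  rw [adjoin_sub (ha.isIntegral.pow _)]
  rw [← adjoin_simple_eq_adjoin_pow_expChar_pow_of_isSeparable F K ha q k]
  exact mem_adjoin_simple_self F a

theorem pow_mem_adjoin (q : ℕ) [ExpChar K q] {a α : K} (h : a ∈ Algebra.adjoin F {α}) (k : ℕ) :
    a ^ q ^ k ∈ Algebra.adjoin F {α ^ q ^ k} := by
  induction h using Algebra.adjoin_induction with
  | mem x hx =>
    rw [Set.mem_singleton_iff.1 hx]
    exact Algebra.subset_adjoin rfl
  | algebraMap r =>
    rw [← map_pow]
    exact Subalgebra.algebraMap_mem _ _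
  | add x y _ _ hx hy =>
    rw [add_pow_expChar_pow]
    exact add_mem hx hy
  | mul x y _ _ hx hy =>
    rw [mul_pow]
    exact mul_mem hx hy

/-- a power of every algebraic element is separable -/
theorem exists_pow_sep (q : ℕ) [ExpChar F q] {α : K} {n : ℕ} (h : DegLe F n α) :
    IsSeparable F (α ^ q ^ n) := by
  obtain ⟨hint, hn⟩ := degLe_iff.1 h
  obtain ⟨g, h1, m, h2⟩ := (minpoly.irreducible hint).hasSeparableContraction q
  have hq : 0 < q := expChar_pos F q
  have hg : aeval (α ^ q ^ m) g = 0 := by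
    rw [← expand_aeval, h2, minpoly.aeval]
  have hsep : IsSeparable F (α ^ q ^ m) := by
    have : minpoly F (α ^ q ^ m) ∣ g := minpoly.dvd F _ hg
    exact h1.of_dvd this
  have hdeg : (minpoly F α).natDegree = g.natDegree * q ^ m := by
    rw [← h2, natDegree_expand]
  have hpos : 0 < (minpoly F α).natDegree := minpoly.natDegree_pos hint
  have hqm : q ^ m ≤ n := by
    refine le_trans ?_ hn
    rw [hdeg]
    rw [hdeg] at hpos
    exact Nat.le_mul_of_pos_left _ (Nat.pos_of_mul_pos_right hpos)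
  rcases Nat.lt_or_ge 1 q with h3 | h3
  · have hm : m ≤ n := ((Nat.lt_pow_self h3).le).trans hqm
    have h4 : α ^ q ^ n = (α ^ q ^ m) ^ q ^ (n - m) := by
      rw [← pow_mul, ← pow_add, Nat.add_sub_cancel' hm]
    rw [h4]
    have : α ^ q ^ m ∈ separableClosure F K := mem_separableClosure_iff.2 hsep
    exact mem_separableClosure_iff.1 (pow_mem this _)
  · obtain rfl : q = 1 := by omega
    simpa using hsep

/-- two elements have powers in a simple extension -/
theorem step_exists (q : ℕ) [ExpChar F q] [Algebra.IsAlgebraic F K] (a b : K) :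
    ∃ (α : K) (k : ℕ), a ^ q ^ k ∈ Algebra.adjoin F {α} ∧ b ^ q ^ k ∈ Algebra.adjoin F {α} := by
  have key : ∀ a : K, ∃ n, IsSeparable F (a ^ q ^ n) := by
    intro a
    have hint : IsIntegral F a := (Algebra.IsAlgebraic.isAlgebraic a).isIntegral
    exact ⟨(minpoly F a).natDegree, exists_pow_sep q (degLe_iff.2 ⟨hint, le_rfl⟩)⟩
  have key2 : ∀ a : K, ∀ n m, n ≤ m → IsSeparable F (a ^ q ^ n) → IsSeparable F (a ^ q ^ m) := by
    intro a n m hnm h
    have h4 : a ^ q ^ m = (a ^ q ^ n) ^ q ^ (m - n) := by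
      rw [← pow_mul, ← pow_add, Nat.add_sub_cancel' hnm]
    rw [h4]
    have : a ^ q ^ n ∈ separableClosure F K := mem_separableClosure_iff.2 h
    exact mem_separableClosure_iff.1 (pow_mem this _)
  obtain ⟨n, hn⟩ := key a
  obtain ⟨m, hm⟩ := key b
  have h1 := key2 a n (max n m) (le_max_left _ _) hn
  have h2 := key2 b m (max n m) (le_max_right _ _) hm
  set k := max n m
  set u := a ^ q ^ k
  set v := b ^ q ^ k
  let L : IntermediateField F K := IntermediateField.adjoin F {u, v}
  have hfin : FiniteDimensional F L := by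
    refine IntermediateField.finiteDimensional_adjoin (S := {u, v}) ?_
    intro x hx
    rcases hx with rfl | hx
    · exact h1.isIntegral
    · rw [Set.mem_singleton_iff.1 hx]; exact h2.isIntegral
  have hsep : Algebra.IsSeparable F L := by
    rw [IntermediateField.isSeparable_adjoin_iff_isSeparable]
    intro x hx
    rcases hx with rfl | hx
    · exact h1
    · rw [Set.mem_singleton_iff.1 hx]; exact h2
  obtain ⟨γ, hγ⟩ := Field.exists_primitive_element F L
  have hγ2 : F⟮(γ : K)⟯ = L := by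
    have := congr_arg IntermediateField.lift hγ
    simpa only [IntermediateField.lift_adjoin_simple, IntermediateField.lift_top] using this
  have hint : IsIntegral F (γ : K) := (Algebra.IsAlgebraic.isAlgebraic (γ : K)).isIntegral
  refine ⟨γ, k, ?_, ?_⟩
  · rw [adjoin_sub hint, hγ2]
    exact IntermediateField.subset_adjoin F _ (Or.inl rfl)
  · rw [adjoin_sub hint, hγ2]
    exact IntermediateField.subset_adjoin F _ (Or.inr rfl)

/-- all separable elements are eventually captured -/
theorem captured (q : ℕ) [ExpChar F q] {α x : ℕ → K}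
    (h : ∀ s, ∃ k, α s ^ q ^ k ∈ Algebra.adjoin F {α (s + 1)} ∧
      x s ^ q ^ k ∈ Algebra.adjoin F {α (s + 1)})
    {j : ℕ} (hj : IsSeparable F (x j)) (s : ℕ) (hs : j < s) :
    x j ∈ Algebra.adjoin F {α s} := by
  have : ExpChar K q := expChar_of_injective_algebraMap (algebraMap F K).injective q
  induction s with
  | zero => omega
  | succ s ih =>
    obtain ⟨k, h1, h2⟩ := h s
    have hsub : ∀ u, u ∈ Algebra.adjoin F {α (s + 1)} →
        Algebra.adjoin F {u} ≤ Algebra.adjoin F {α (s + 1)} := by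
      intro u hu
      exact Algebra.adjoin_le (by simpa using hu)
    rcases Nat.lt_or_ge j s with hlt | hge
    · have h3 := pow_mem_adjoin (F := F) q (ih hlt) k
      have h4 : x j ^ q ^ k ∈ Algebra.adjoin F {α (s + 1)} := hsub _ h1 h3
      exact hsub _ h4 (sep_mem q hj k)
    · obtain rfl : j = s := by omega
      exact hsub _ h2 (sep_mem q hj k)

/-- if the separable elements have bounded degree, they form a simple extension -/
theorem exists_gen {n : ℕ} (h : ∀ a : K, IsSeparable F a → DegLe F n a) :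
    ∃ β : K, IsSeparable F β ∧ ∀ a : K, IsSeparable F a → a ∈ Algebra.adjoin F {β} := by
  classical
  -- maximal degree
  have hex : ∃ β : K, IsSeparable F β ∧ ∀ a : K, IsSeparable F a →
      (minpoly F a).natDegree ≤ (minpoly F β).natDegree := by
    let P : ℕ → Prop := fun d => ∃ β : K, IsSeparable F β ∧ (minpoly F β).natDegree = d
    have h0 : P 1 := by
      refine ⟨(algebraMap F K 0), isSeparable_algebraMap _, ?_⟩
      rw [minpoly.eq_X_sub_C]
      exact natDegree_X_sub_C _
    have hb : ∀ d, P d → d ≤ n := by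
      rintro d ⟨β, hβ, rfl⟩
      exact (degLe_iff.1 (h β hβ)).2
    obtain ⟨β, hβ, hd⟩ := Nat.findGreatest_spec (P := P) (hb 1 h0) h0
    refine ⟨β, hβ, fun a ha => ?_⟩
    rw [hd]
    exact Nat.le_findGreatest (hb _ ⟨a, ha, rfl⟩) ⟨a, ha, rfl⟩
  obtain ⟨β, hβ, hmax⟩ := hex
  refine ⟨β, hβ, fun a ha => ?_⟩
  rw [adjoin_sub hβ.isIntegral]
  let L : IntermediateField F K := IntermediateField.adjoin F {β, a}
  have hfin : FiniteDimensional F L := by
    refine IntermediateField.finiteDimensional_adjoin (S := {β, a}) ?_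
    intro x hx
    rcases hx with rfl | hx
    · exact hβ.isIntegral
    · rw [Set.mem_singleton_iff.1 hx]; exact ha.isIntegral
  have hsep : Algebra.IsSeparable F L := by
    rw [IntermediateField.isSeparable_adjoin_iff_isSeparable]
    intro x hx
    rcases hx with rfl | hx
    · exact hβ
    · rw [Set.mem_singleton_iff.1 hx]; exact ha
  obtain ⟨γ, hγ⟩ := Field.exists_primitive_element F L
  have hγ2 : F⟮(γ : K)⟯ = L := by
    have := congr_arg IntermediateField.lift hγ
    simpa only [IntermediateField.lift_adjoin_simple, IntermediateField.lift_top] using this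
  have hγs : IsSeparable F (γ : K) := by
    have h1 : IsSeparable F γ := Algebra.IsSeparable.isSeparable F γ
    exact IsSeparable.map L.val (RingHom.injective _) h1
  have hle : F⟮β⟯ ≤ L := by
    rw [adjoin_simple_le_iff]
    exact IntermediateField.subset_adjoin F _ (by simp)
  have heq : F⟮β⟯ = L := by
    refine IntermediateField.eq_of_le_of_finrank_le hle ?_
    rw [← hγ2, adjoin.finrank hγs.isIntegral, adjoin.finrank hβ.isIntegral]
    exact hmax _ hγs
  rw [heq]
  exact IntermediateField.subset_adjoin F _ (by simp)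

/-- if all high powers lie in a finite extension, the degrees are bounded -/
theorem bounded_of_pow (q : ℕ) (hq : 0 < q) {β : K} (hβ : IsIntegral F β) {J : ℕ}
    (h : ∀ a : K, a ^ q ^ J ∈ Algebra.adjoin F {β}) :
    ∃ n, ∀ a : K, DegLe F n a := by
  refine ⟨(minpoly F β).natDegree * q ^ J, fun a => ?_⟩
  have ha := h a
  rw [adjoin_sub hβ] at ha
  have hfin : FiniteDimensional F F⟮β⟯ := adjoin.finiteDimensional hβ
  set c : F⟮β⟯ := ⟨a ^ q ^ J, ha⟩
  have hqJ : 0 < q ^ J := pow_pos hq J
  have hd : DegLe F⟮β⟯ (q ^ J) a := by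
    refine ⟨X ^ q ^ J - C c, (monic_X_pow_sub_C c hqJ.ne').ne_zero, ?_, ?_⟩
    · rw [natDegree_X_pow_sub_C]
    · simp [c]
  obtain ⟨h1, h2⟩ := finrank_of_degLe hd
  let M : IntermediateField F K := (F⟮β⟯⟮a⟯).restrictScalars F
  have : Module.Free F⟮β⟯ F⟮β⟯⟮a⟯ := Module.Free.of_divisionRing _ _
  have : Module.Free F F⟮β⟯ := Module.Free.of_divisionRing _ _
  have e1 : Module.finrank F F⟮β⟯ * Module.finrank F⟮β⟯ F⟮β⟯⟮a⟯ = Module.finrank F F⟮β⟯⟮a⟯ :=
    Module.finrank_mul_finrank F F⟮β⟯ F⟮β⟯⟮a⟯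
  have hMfin : FiniteDimensional F F⟮β⟯⟮a⟯ := FiniteDimensional.trans F F⟮β⟯ F⟮β⟯⟮a⟯
  have hMfin2 : FiniteDimensional F M := hMfin
  have e2 : Module.finrank F M = Module.finrank F F⟮β⟯⟮a⟯ := rfl
  refine degLe_of_finrank (L := M) ?_ (mem_adjoin_simple_self F⟮β⟯ a)
  rw [e2, ← e1, adjoin.finrank hβ]
  exact Nat.mul_le_mul_left _ h2

end Pool.Agent.R626.Coh
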