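import Mathlib.Computability.Halting
import Mathlib.Algebra.Order.BigOperators.Group.Finset

/-! Basic construction for a conform Blum measure with a class that is not r.e. -/

namespace Pool.Agent.R626.Blum

open Nat.Partrec Encodable Denumerable

/-! ### bounded quantifiers -/

section gen
variable {α : Type*} [Primcodable α]

theorem ex_lt {R : α → ℕ → Prop} (hR : PrimrecPred fun p : α × ℕ => R p.1 p.2)
    {b : α → ℕ} (hb : Primrec b) : PrimrecPred fun a => ∃ x < b a, R a x := by
  have h1 : PrimrecRel fun (x : ℕ) (a : α) => R a x :=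
    hR.comp (Primrec.pair Primrec.snd Primrec.fst)
  exact (h1.exists_mem_list.comp (Primrec.list_range.comp hb) Primrec.id).of_eq (by simp)

theorem all_lt {R : α → ℕ → Prop} (hR : PrimrecPred fun p : α × ℕ => R p.1 p.2)
    {b : α → ℕ} (hb : Primrec b) : PrimrecPred fun a => ∀ x < b a, R a x := by
  have h1 : PrimrecRel fun (x : ℕ) (a : α) => R a x :=
    hR.comp (Primrec.pair Primrec.snd Primrec.fst)
  exact (h1.forall_mem_list.comp (Primrec.list_range.comp hb) Primrec.id).of_eq (by simp)

end gen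

/-- the code with number `n` -/
abbrev cd (n : ℕ) : Code := Denumerable.ofNat Code n

theorem evn_prim {α : Type*} [Primcodable α] {s m w : α → ℕ} (hs : Primrec s) (hm : Primrec m)
    (hw : Primrec w) : Primrec fun a => Code.evaln (s a) (cd (m a)) (w a) :=
  Code.primrec_evaln.comp (Primrec.pair (Primrec.pair hs ((Primrec.ofNat Code).comp hm)) hw)

/-- the computation with code `m` on input `w` converges within `s` steps -/
def conv (s m w : ℕ) : Prop := (Code.evaln s (cd m) w).isSome = true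

instance (s m w : ℕ) : Decidable (conv s m w) := by unfold conv; infer_instance

theorem conv_prim {α : Type*} [Primcodable α] {s m w : α → ℕ} (hs : Primrec s) (hm : Primrec m)
    (hw : Primrec w) : PrimrecPred fun a => conv (s a) (m a) (w a) :=
  Primrec.eq.comp (Primrec.option_isSome.comp (evn_prim hs hm hw)) (Primrec.const true)

/-- all inputs up to `w` have converged by stage `s` -/
def full (s m w : ℕ) : Prop := ∀ w' < w + 1, conv s m w'

/-- the stage `s` is the least stage by which all inputs up to some `w` have converged -/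
def event (m s : ℕ) : Prop := ∃ w < s + 1, full s m w ∧ ¬ full (s - 1) m w

/-- `x` belongs to the exceptional set of the pair `(i, m)` -/
def bad (i m x : ℕ) : Prop :=
  ∃ s < x + 1, event m s ∧ ∀ z < x, s ≤ z → ¬ Code.evaln (x - 1) (cd i) z = some 1

theorem full_prim {α : Type*} [Primcodable α] {s m w : α → ℕ} (hs : Primrec s) (hm : Primrec m)
    (hw : Primrec w) : PrimrecPred fun a => full (s a) (m a) (w a) := by
  refine all_lt (R := fun a w' => conv (s a) (m a) w') ?_ (Primrec.succ.comp hw)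
  exact conv_prim (hs.comp Primrec.fst) (hm.comp Primrec.fst) Primrec.snd

theorem event_prim {α : Type*} [Primcodable α] {s m : α → ℕ} (hm : Primrec m) (hs : Primrec s) :
    PrimrecPred fun a => event (m a) (s a) := by
  refine ex_lt (R := fun a w => full (s a) (m a) w ∧ ¬ full (s a - 1) (m a) w) ?_
    (Primrec.succ.comp hs)
  exact (full_prim (hs.comp Primrec.fst) (hm.comp Primrec.fst) Primrec.snd).and
    (full_prim (Primrec.pred.comp (hs.comp Primrec.fst)) (hm.comp Primrec.fst) Primrec.snd).not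

theorem bad_prim {α : Type*} [Primcodable α] {i m x : α → ℕ} (hi : Primrec i) (hm : Primrec m)
    (hx : Primrec x) : PrimrecPred fun a => bad (i a) (m a) (x a) := by
  refine ex_lt (R := fun a s => event (m a) s ∧
    ∀ z < x a, s ≤ z → ¬ Code.evaln (x a - 1) (cd (i a)) z = some 1) ?_ (Primrec.succ.comp hx)
  refine (event_prim (hm.comp Primrec.fst) Primrec.snd).and ?_
  refine all_lt (R := fun (p : α × ℕ) z => p.2 ≤ z →
    ¬ Code.evaln (x p.1 - 1) (cd (i p.1)) z = some 1) ?_ (hx.comp Primrec.fst)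
  have h1 : PrimrecPred fun p : (α × ℕ) × ℕ => p.1.2 ≤ p.2 :=
    Primrec.nat_le.comp (Primrec.snd.comp Primrec.fst) Primrec.snd
  have h2 : PrimrecPred fun p : (α × ℕ) × ℕ =>
      Code.evaln (x p.1.1 - 1) (cd (i p.1.1)) p.2 = some 1 :=
    Primrec.eq.comp (evn_prim (Primrec.pred.comp (hx.comp (Primrec.fst.comp Primrec.fst)))
      (hi.comp (Primrec.fst.comp Primrec.fst)) Primrec.snd) (Primrec.const (some 1))
  exact (h1.and h2).not.of_eq (by intro p; simp)

/-! ### facts about events -/

theorem conv_mono {s s' m w : ℕ} (h : s ≤ s') (hc : conv s m w) : conv s' m w := by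
  unfold conv at *
  obtain ⟨v, hv⟩ := Option.isSome_iff_exists.1 hc
  exact Option.isSome_iff_exists.2 ⟨v, Code.evaln_mono h hv⟩

theorem full_mono {s s' m w : ℕ} (h : s ≤ s') (hc : full s m w) : full s' m w :=
  fun w' hw' => conv_mono h (hc w' hw')

theorem full_anti {s m w w' : ℕ} (h : w' ≤ w) (hc : full s m w) : full s m w' :=
  fun v hv => hc v (by omega)

theorem conv_dom {s m w : ℕ} (h : conv s m w) : ((cd m).eval w).Dom := by
  obtain ⟨v, hv⟩ := Option.isSome_iff_exists.1 h
  exact (Part.dom_iff_mem).2 ⟨v, Code.evaln_sound hv⟩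

theorem dom_conv {m w : ℕ} (h : ((cd m).eval w).Dom) : ∃ s, conv s m w := by
  obtain ⟨v, hv⟩ := (Part.dom_iff_mem).1 h
  obtain ⟨s, hs⟩ := Code.evaln_complete.1 hv
  exact ⟨s, Option.isSome_iff_exists.2 ⟨v, hs⟩⟩

theorem conv_lt {s m w : ℕ} (h : conv s m w) : w < s := by
  obtain ⟨v, hv⟩ := Option.isSome_iff_exists.1 h
  exact Code.evaln_bound hv

/-- the code `m` computes a total function -/
def Tot (m : ℕ) : Prop := ∀ w, ((cd m).eval w).Dom

theorem exists_full {m : ℕ} (h : Tot m) (w : ℕ) : ∃ s, full s m w := by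
  induction w with
  | zero =>
    obtain ⟨s, hs⟩ := dom_conv (h 0)
    refine ⟨s, fun w' hw' => ?_⟩
    obtain rfl : w' = 0 := by omega
    exact hs
  | succ w ih =>
    obtain ⟨s, hs⟩ := ih
    obtain ⟨s', hs'⟩ := dom_conv (h (w + 1))
    refine ⟨max s s', fun w' hw' => ?_⟩
    rcases Nat.lt_or_ge w' (w + 1) with h1 | h1
    · exact conv_mono (le_max_left _ _) (hs w' h1)
    · obtain rfl : w' = w + 1 := by omega
      exact conv_mono (le_max_right _ _) hs'

/-- events happen infinitely often if the code is total -/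
theorem event_of_tot {m : ℕ} (h : Tot m) (b : ℕ) : ∃ s, b ≤ s ∧ event m s := by
  classical
  have hex := exists_full h b
  refine ⟨Nat.find hex, ?_, b, ?_, Nat.find_spec hex, ?_⟩
  · exact (conv_lt (Nat.find_spec hex b (by omega))).le
  · have := conv_lt (Nat.find_spec hex b (by omega)); omega
  · have h0 : b < Nat.find hex := conv_lt (Nat.find_spec hex b (by omega))
    exact Nat.find_min hex (by omega)

/-- events happen only finitely often if the code is not total -/
theorem event_of_not_tot {m : ℕ} (h : ¬ Tot m) : ∃ b, ∀ s, event m s → s < b := by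
  classical
  unfold Tot at h
  push Not at h
  obtain ⟨w0, hw0⟩ := h
  -- every event is witnessed by some `w < w0`
  have key : ∀ w, ∃ b, ∀ s, (full s m w ∧ ¬ full (s - 1) m w) → s < b := by
    intro w
    by_cases hw : ∃ s, full s m w
    · obtain ⟨s0, hs0⟩ := hw
      refine ⟨s0 + 2, fun s hs => ?_⟩
      by_contra hlt
      exact hs.2 (full_mono (by omega) hs0)
    · refine ⟨0, fun s hs => absurd ⟨s, hs.1⟩ hw⟩
  choose B hB using key
  refine ⟨∑ w ∈ Finset.range w0, B w + 1, fun s hs => ?_⟩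
  obtain ⟨w, _, hw1, hw2⟩ := hs
  have hlt : w < w0 := by
    by_contra hge
    exact hw0 (conv_dom (hw1 w0 (by omega)))
  have h1 := hB w s ⟨hw1, hw2⟩
  have h2 : B w ≤ ∑ w ∈ Finset.range w0, B w :=
    Finset.single_le_sum (f := B) (fun _ _ => Nat.zero_le _) (Finset.mem_range.2 hlt)
  omega

/-- `i` decides the set `Z` -/
def Decides (i : ℕ) (Z : ℕ → Prop) : Prop := ∀ z, (1 ∈ (cd i).eval z ↔ Z z)

theorem bad_of_tot {i m : ℕ} {Z : ℕ → Prop} (hi : Decides i Z) (hZ : ∀ b, ∃ x, b ≤ x ∧ Z x)
    (h : Tot m) (b : ℕ) : ∃ x, b ≤ x ∧ Z x ∧ bad i m x := by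
  classical
  obtain ⟨s, hbs, hs⟩ := event_of_tot h b
  have hex := hZ s
  have hsp := Nat.find_spec hex
  refine ⟨Nat.find hex, hbs.trans hsp.1, hsp.2, s, by omega, hs, fun z hz hsz hev => ?_⟩
  have h1 : Z z := (hi z).1 (Code.evaln_sound hev)
  exact Nat.find_min hex hz ⟨hsz, h1⟩

theorem not_bad_of_not_tot {i m : ℕ} {Z : ℕ → Prop} (hi : Decides i Z)
    (hZ : ∀ b, ∃ x, b ≤ x ∧ Z x) (h : ¬ Tot m) : ∃ b, ∀ x, b ≤ x → ¬ bad i m x := by
  classical
  obtain ⟨b, hb⟩ := event_of_not_tot h
  -- for `s < b`, take an element of `Z` above `s` and a stage where it is seen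
  have key : ∀ s, ∃ B, ∀ x, B ≤ x → ∃ z < x, s ≤ z ∧ Code.evaln (x - 1) (cd i) z = some 1 := by
    intro s
    obtain ⟨z, hz1, hz2⟩ := hZ s
    obtain ⟨k, hk⟩ := Code.evaln_complete.1 ((hi z).2 hz2)
    refine ⟨k + z + 1, fun x hx => ⟨z, by omega, hz1, ?_⟩⟩
    exact Code.evaln_mono (by omega) hk
  choose B hB using key
  refine ⟨∑ s ∈ Finset.range b, B s, fun x hx hbad => ?_⟩
  obtain ⟨s, _, hs1, hs2⟩ := hbad
  have hlt := hb s hs1
  have h2 : B s ≤ ∑ s ∈ Finset.range b, B s :=
    Finset.single_le_sum (f := B) (fun _ _ => Nat.zero_le _) (Finset.mem_range.2 hlt)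
  obtain ⟨z, hz1, hz2, hz3⟩ := hB s x (h2.trans hx)
  exact hs2 z hz1 hz2 hz3

end Pool.Agent.R626.Blum
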