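import Pool.Agent.R626.BlumA

/-! The numbering and the measure. -/

namespace Pool.Agent.R626.Blum

open Nat.Partrec Encodable Denumerable

/-- value of the finite support function with number `k` at `x` -/
def fsv (k x : ℕ) : ℕ := (Denumerable.ofNat (List ℕ) k).getD x 0

theorem fsv_prim {α : Type*} [Primcodable α] {k x : α → ℕ} (hk : Primrec k) (hx : Primrec x) :
    Primrec fun a => fsv (k a) (x a) :=
  (Primrec.list_getD 0).comp ((Primrec.ofNat (List ℕ)).comp hk) hx

/-- the numbering -/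
def phi (n x : ℕ) : Part ℕ :=
  if n.unpair.1 = 0 then Part.some n.unpair.2
  else if n.unpair.1 = 1 then Part.some (fsv n.unpair.2 x)
  else (cd n.unpair.2).eval x

/-- the stage version of the numbering -/
def phis (s n x : ℕ) : Option ℕ :=
  if n.unpair.1 = 0 then some n.unpair.2
  else if n.unpair.1 = 1 then some (fsv n.unpair.2 x)
  else Code.evaln s (cd n.unpair.2) x

theorem u1_prim {α : Type*} [Primcodable α] {n : α → ℕ} (hn : Primrec n) :
    Primrec fun a => (n a).unpair.1 := Primrec.fst.comp (Primrec.unpair.comp hn)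

theorem u2_prim {α : Type*} [Primcodable α] {n : α → ℕ} (hn : Primrec n) :
    Primrec fun a => (n a).unpair.2 := Primrec.snd.comp (Primrec.unpair.comp hn)

theorem phis_prim {α : Type*} [Primcodable α] {s n x : α → ℕ} (hs : Primrec s) (hn : Primrec n)
    (hx : Primrec x) : Primrec fun a => phis (s a) (n a) (x a) := by
  refine Primrec.ite (Primrec.eq.comp (u1_prim hn) (Primrec.const 0))
    (Primrec.option_some.comp (u2_prim hn)) ?_
  refine Primrec.ite (Primrec.eq.comp (u1_prim hn) (Primrec.const 1))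
    (Primrec.option_some.comp (fsv_prim (u2_prim hn) hx)) ?_
  exact evn_prim hs (u2_prim hn) hx

theorem phis_mono {s s' n x v : ℕ} (h : s ≤ s') (hv : phis s n x = some v) :
    phis s' n x = some v := by
  unfold phis at *
  split_ifs at * with h1 h2
  · exact hv
  · exact hv
  · exact Code.evaln_mono h hv

theorem mem_phi {n x v : ℕ} : v ∈ phi n x ↔ ∃ s, phis s n x = some v := by
  unfold phi phis
  split_ifs with h1 h2
  · simp [eq_comm]
  · simp [eq_comm]
  · exact Code.evaln_complete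

theorem phi_partrec : Partrec₂ phi := by
  have h1 : Partrec fun p : ℕ × ℕ => (cd p.1.unpair.2).eval p.2 :=
    Code.eval_part.comp (((Primrec.ofNat Code).comp (u2_prim Primrec.fst)).to_comp)
      Computable.snd
  have h2 : Partrec fun p : ℕ × ℕ =>
      cond (decide (p.1.unpair.1 = 1)) (Part.some (fsv p.1.unpair.2 p.2))
        ((cd p.1.unpair.2).eval p.2) := by
    refine Partrec.cond ?_ ?_ h1
    · exact (PrimrecPred.decide (Primrec.eq.comp (u1_prim Primrec.fst) (Primrec.const 1))).to_comp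
    · exact (fsv_prim (u2_prim Primrec.fst) Primrec.snd).to_comp.partrec
  have h3 : Partrec fun p : ℕ × ℕ =>
      cond (decide (p.1.unpair.1 = 0)) (Part.some p.1.unpair.2)
      (cond (decide (p.1.unpair.1 = 1)) (Part.some (fsv p.1.unpair.2 p.2))
        ((cd p.1.unpair.2).eval p.2)) := by
    refine Partrec.cond ?_ ?_ h2
    · exact (PrimrecPred.decide (Primrec.eq.comp (u1_prim Primrec.fst) (Primrec.const 0))).to_comp
    · exact (u2_prim Primrec.fst).to_comp.partrec
  refine h3.of_eq fun p => ?_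
  simp only [phi, Bool.cond_decide]

theorem mem_rf {p : ℕ → Bool} {n : ℕ} :
    n ∈ Nat.rfind (fun s => Part.some (p s)) ↔ p n = true ∧ ∀ m < n, p m = false := by
  refine Iff.trans Nat.mem_rfind ?_
  constructor
  · rintro ⟨h1, h2⟩
    refine ⟨(Part.mem_some_iff.1 h1).symm, fun m hm => (Part.mem_some_iff.1 (h2 hm)).symm⟩
  · rintro ⟨h1, h2⟩
    refine ⟨Part.mem_some_iff.2 h1.symm, fun {m} hm => Part.mem_some_iff.2 (h2 m hm).symm⟩

/-- the measure -/
noncomputable def Phi (n x : ℕ) : Part ℕ :=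
  open Classical in
  if n.unpair.1 = 0 then Part.some (if bad n.unpair.2.unpair.1 n.unpair.2.unpair.2 x then 1 else 0)
  else if n.unpair.1 = 1 then Part.some 1
  else (Nat.rfind fun s => Part.some (Code.evaln s (cd n.unpair.2) x).isSome).map (· + 2)

theorem mem_Phi0 {n x y : ℕ} (h : n.unpair.1 = 0) :
    y ∈ Phi n x ↔ (bad n.unpair.2.unpair.1 n.unpair.2.unpair.2 x ∧ y = 1) ∨
      (¬ bad n.unpair.2.unpair.1 n.unpair.2.unpair.2 x ∧ y = 0) := by
  unfold Phi
  rw [if_pos h]
  by_cases hb : bad n.unpair.2.unpair.1 n.unpair.2.unpair.2 x <;> simp [hb]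

theorem mem_Phi1 {n x y : ℕ} (h : n.unpair.1 = 1) : y ∈ Phi n x ↔ y = 1 := by
  unfold Phi
  rw [if_neg (by omega), if_pos h]
  simp

theorem mem_Phi2 {n x y : ℕ} (h0 : n.unpair.1 ≠ 0) (h1 : n.unpair.1 ≠ 1) :
    y ∈ Phi n x ↔ 2 ≤ y ∧ conv (y - 2) n.unpair.2 x ∧ ∀ s < y - 2, ¬ conv s n.unpair.2 x := by
  unfold Phi
  rw [if_neg h0, if_neg h1]
  rw [Part.mem_map_iff]
  constructor
  · rintro ⟨s, hs, rfl⟩
    obtain ⟨hs1, hs2⟩ := mem_rf.1 hs
    refine ⟨by omega, ?_, fun s' hs' => ?_⟩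
    · have : s + 2 - 2 = s := by omega
      rw [this]; exact hs1
    · have := hs2 s' (by omega)
      unfold conv
      rw [this]; simp
  · rintro ⟨hy, hc, hn⟩
    refine ⟨y - 2, mem_rf.2 ⟨hc, fun s' hs' => ?_⟩, by omega⟩
    have := hn s' hs'
    unfold conv at this
    simpa using this

/-- the cost is defined and at most `y` -/
def le (n x y : ℕ) : Prop := ∃ v ∈ Phi n x, v ≤ y

/-- the decidable form of `le` -/
theorem le_iff {n x y : ℕ} : le n x y ↔
    (n.unpair.1 = 0 ∧ (1 ≤ y ∨ ¬ bad n.unpair.2.unpair.1 n.unpair.2.unpair.2 x)) ∨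
    (n.unpair.1 = 1 ∧ 1 ≤ y) ∨
    (2 ≤ n.unpair.1 ∧ 2 ≤ y ∧ conv (y - 2) n.unpair.2 x) := by
  unfold le
  rcases Nat.lt_trichotomy n.unpair.1 1 with h | h | h
  · have h0 : n.unpair.1 = 0 := by omega
    simp only [mem_Phi0 h0, h0]
    by_cases hb : bad n.unpair.2.unpair.1 n.unpair.2.unpair.2 x <;> simp [hb]
  · simp only [mem_Phi1 h, h]
    simp
  · simp only [mem_Phi2 (show n.unpair.1 ≠ 0 by omega) (show n.unpair.1 ≠ 1 by omega)]
    constructor
    · rintro ⟨v, ⟨hv1, hv2, -⟩, hvy⟩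
      exact Or.inr (Or.inr ⟨h, by omega, conv_mono (by omega) hv2⟩)
    · rintro (⟨h1, -⟩ | ⟨h1, -⟩ | ⟨-, h2, h3⟩)
      · omega
      · omega
      · classical
        have hex : ∃ s, conv s n.unpair.2 x := ⟨_, h3⟩
        refine ⟨Nat.find hex + 2, ⟨by omega, ?_, fun s hs => Nat.find_min hex (by omega)⟩, ?_⟩
        · have : Nat.find hex + 2 - 2 = Nat.find hex := by omega
          rw [this]; exact Nat.find_spec hex
        · have := Nat.find_min' hex h3
          omega

theorem le_prim {α : Type*} [Primcodable α] {n x y : α → ℕ} (hn : Primrec n) (hx : Primrec x)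
    (hy : Primrec y) : PrimrecPred fun a => le (n a) (x a) (y a) := by
  have hb : PrimrecPred fun a => bad (n a).unpair.2.unpair.1 (n a).unpair.2.unpair.2 (x a) :=
    bad_prim (u1_prim (u2_prim hn)) (u2_prim (u2_prim hn)) hx
  have h : PrimrecPred fun a => ((n a).unpair.1 = 0 ∧ (1 ≤ y a ∨
      ¬ bad (n a).unpair.2.unpair.1 (n a).unpair.2.unpair.2 (x a))) ∨
      ((n a).unpair.1 = 1 ∧ 1 ≤ y a) ∨
      (2 ≤ (n a).unpair.1 ∧ 2 ≤ y a ∧ conv (y a - 2) (n a).unpair.2 (x a)) := by
    refine ((Primrec.eq.comp (u1_prim hn) (Primrec.const 0)).and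
      ((Primrec.nat_le.comp (Primrec.const 1) hy).or hb.not)).or
      (((Primrec.eq.comp (u1_prim hn) (Primrec.const 1)).and
        (Primrec.nat_le.comp (Primrec.const 1) hy)).or
      ((Primrec.nat_le.comp (Primrec.const 2) (u1_prim hn)).and
      ((Primrec.nat_le.comp (Primrec.const 2) hy).and
        (conv_prim (Primrec.nat_sub.comp hy (Primrec.const 2)) (u2_prim hn) hx))))
  exact h.of_eq fun a => le_iff.symm

theorem Phi_dom (n x : ℕ) : (Phi n x).Dom ↔ (phi n x).Dom := by
  rcases Nat.lt_trichotomy n.unpair.1 1 with h | h | h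
  · have h0 : n.unpair.1 = 0 := by omega
    unfold Phi phi; simp [h0]
  · unfold Phi phi; simp [h]
  · rw [Part.dom_iff_mem, Part.dom_iff_mem]
    constructor
    · rintro ⟨y, hy⟩
      rw [mem_Phi2 (by omega) (by omega)] at hy
      obtain ⟨v, hv⟩ := Option.isSome_iff_exists.1 hy.2.1
      refine ⟨v, mem_phi.2 ⟨y - 2, ?_⟩⟩
      unfold phis
      rw [if_neg (by omega), if_neg (by omega)]
      exact hv
    · rintro ⟨v, hv⟩
      obtain ⟨s, hs⟩ := mem_phi.1 hv
      unfold phis at hs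
      rw [if_neg (by omega), if_neg (by omega)] at hs
      have hc : conv s n.unpair.2 x := Option.isSome_iff_exists.2 ⟨v, hs⟩
      obtain ⟨w, hw, -⟩ := (le_iff (n := n) (x := x) (y := s + 2)).2
        (Or.inr (Or.inr ⟨h, by omega, hc⟩))
      exact ⟨w, hw⟩

/-- if the cost is at most `y` then stage `y` already shows the value -/
theorem phis_of_le {n x y : ℕ} (h : le n x y) : ∃ v, phis y n x = some v := by
  rcases le_iff.1 h with ⟨h0, -⟩ | ⟨h1, -⟩ | ⟨h2, -, h3⟩
  · unfold phis; simp [h0]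
  · unfold phis; simp [h1]
  · obtain ⟨v, hv⟩ := Option.isSome_iff_exists.1 h3
    refine ⟨v, ?_⟩
    unfold phis
    rw [if_neg (by omega), if_neg (by omega)]
    exact Code.evaln_mono (by omega) hv

/-- the graph of the measure is decidable -/
theorem mem_Phi_iff {n x y : ℕ} : y ∈ Phi n x ↔ le n x y ∧ ∀ v < y, ¬ le n x v := by
  constructor
  · intro h
    refine ⟨⟨y, h, le_rfl⟩, fun v hv hl => ?_⟩
    obtain ⟨u, hu, huv⟩ := hl
    have := Part.mem_unique h hu
    omega
  · rintro ⟨⟨v, hv, hvy⟩, hn⟩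
    rcases Nat.lt_or_ge v y with h | h
    · exact absurd ⟨v, hv, le_rfl⟩ (hn v h)
    · obtain rfl : v = y := by omega
      exact hv

theorem Phi_graph : PrimrecPred fun p : ℕ × ℕ × ℕ => p.2.2 ∈ Phi p.1 p.2.1 := by
  have h1 : PrimrecPred fun p : ℕ × ℕ × ℕ => le p.1 p.2.1 p.2.2 :=
    le_prim Primrec.fst (Primrec.fst.comp Primrec.snd) (Primrec.snd.comp Primrec.snd)
  have h2 : PrimrecPred fun p : ℕ × ℕ × ℕ => ∀ v < p.2.2, ¬ le p.1 p.2.1 v := by
    refine all_lt (R := fun (p : ℕ × ℕ × ℕ) v => ¬ le p.1 p.2.1 v) ?_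
      (Primrec.snd.comp Primrec.snd)
    exact (le_prim (Primrec.fst.comp Primrec.fst)
      (Primrec.fst.comp (Primrec.snd.comp Primrec.fst)) Primrec.snd).not
  exact (h1.and h2).of_eq fun p => mem_Phi_iff.symm

theorem Phi_partrec (n : ℕ) : Partrec (Phi n) := by
  classical
  have h1 : PrimrecPred fun p : ℕ × ℕ => le n p.1 p.2 :=
    le_prim (Primrec.const n) Primrec.fst Primrec.snd
  have h2 : Computable₂ fun x y : ℕ => decide (le n x y) := h1.decide.to_comp
  have h3 := Partrec.rfind (p := fun x y => Part.some (decide (le n x y))) h2.partrec₂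
  refine h3.of_eq fun x => ?_
  apply Part.ext
  intro y
  refine Iff.trans mem_rf ?_
  rw [mem_Phi_iff]
  simp

end Pool.Agent.R626.Blum
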