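import Pool.Agent.R626.CohB

/-! Sequences with large exponents: the case of finite heights, and the summary. -/

namespace Pool.Agent.R626.Coh

open Filter

section ext
variable {F K : Set ℕ} [Field F] [Field K] [Algebra F K]
  [ComputableField F] [ComputableField K] [ComputableExtension F K]

omit [ComputableField F] [ComputableField K] [ComputableExtension F K] in
/-- abstract search step: for every state there is a choice with the required property -/
theorem exists_choice (q : ℕ) [ExpChar K q] {β : K}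
    (hun : ∀ J, ∃ a : K, a ^ q ^ J ∉ Algebra.adjoin F {β})
    (hfin : ∀ z : K, z ∉ Algebra.adjoin F {β} → ∃ c, ∀ u : K, z - u ^ q ^ c ∉ Algebra.adjoin F {β})
    (x : K) (a J : ℕ) :
    ∃ (v : K) (δ : ℕ), ∀ u : K,
      (x + v ^ q ^ a) ^ q ^ J - u ^ q ^ (a + δ + J) ∉ Algebra.adjoin F {β} := by
  have hq : 0 < q := expChar_pos K q
  have hv : ∃ v : K, (x + v ^ q ^ a) ^ q ^ J ∉ Algebra.adjoin F {β} := by
    by_cases hx : x ^ q ^ J ∈ Algebra.adjoin F {β}
    · obtain ⟨v, hv⟩ := hun (a + J)
      refine ⟨v, fun hcon => hv ?_⟩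
      rw [add_pow_expChar_pow, ← pow_mul, ← pow_add] at hcon
      have := sub_mem hcon hx
      simpa using this
    · refine ⟨0, ?_⟩
      rw [zero_pow (pow_pos hq a).ne', add_zero]
      exact hx
  obtain ⟨v, hv⟩ := hv
  obtain ⟨c, hc⟩ := hfin _ hv
  refine ⟨v, c, fun u hu => hc (u ^ q ^ (a + J)) ?_⟩
  rw [← pow_mul, ← pow_add]
  have : a + J + c = a + c + J := by omega
  rw [this]
  exact hu

/-- next state -/
noncomputable def nx (K : Set ℕ) [Field K] (q : ℕ) (h : ℕ × ℕ) (n : ℕ) : ℕ × ℕ :=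
  (((toK K h.1 + toK K n.unpair.1 ^ q ^ h.2 : K) : ℕ), h.2 + n.unpair.2)

/-- the matrix of the refutation -/
def Dm (F : Set ℕ) {K : Set ℕ} [Field F] [Field K] [Algebra F K] (q : ℕ) (β : K)
    (h : ℕ × ℕ) (J w : ℕ) : Prop :=
  toK K h.1 ^ q ^ J = psum F w.unpair.1 β + toK K w.unpair.2 ^ q ^ (h.2 + J)

/-- search condition -/
def Gm (F : Set ℕ) {K : Set ℕ} [Field F] [Field K] [Algebra F K] (q : ℕ) (β : K)
    (p : ℕ × (ℕ × ℕ) × ℕ) (n : ℕ) : Prop :=
  p.1 ≤ n ∨ ∀ w < p.1, ¬ Dm F q β (nx K q p.2.1 n) p.2.2 w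

theorem nx_comp {α : Type*} [Primcodable α] (q : ℕ) {h : α → ℕ × ℕ} {n : α → ℕ}
    (hh : Computable h) (hn : Computable n) : Computable fun a => nx K q (h a) (n a) := by
  have h1 : Computable fun a => (h a).1 := Computable.fst.comp hh
  have h2 : Computable fun a => (h a).2 := Computable.snd.comp hh
  have n1 : Computable fun a => (n a).unpair.1 := Computable.fst.comp (Primrec.unpair.to_comp.comp hn)
  have n2 : Computable fun a => (n a).unpair.2 := Computable.snd.comp (Primrec.unpair.to_comp.comp hn)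
  refine Computable.pair ?_ (Primrec.nat_add.to_comp.comp h2 n2)
  have h3 : CK fun a => toK K (h a).1 + toK K (n a).unpair.1 ^ q ^ (h a).2 :=
    CK.add (CK.ofCode h1) (CK.pow (CK.ofCode n1) ((npow q).comp h2))
  exact h3

theorem Dm_comp {α : Type*} [Primcodable α] (q : ℕ) (β : K) {h : α → ℕ × ℕ} {J w : α → ℕ}
    (hh : Computable h) (hJ : Computable J) (hw : Computable w) :
    ComputablePred fun a => Dm F q β (h a) (J a) (w a) := by
  have h1 : Computable fun a => (h a).1 := Computable.fst.comp hh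
  have h2 : Computable fun a => (h a).2 := Computable.snd.comp hh
  have w1 : Computable fun a => (w a).unpair.1 := Computable.fst.comp (Primrec.unpair.to_comp.comp hw)
  have w2 : Computable fun a => (w a).unpair.2 := Computable.snd.comp (Primrec.unpair.to_comp.comp hw)
  refine CK.eq (CK.pow (CK.ofCode h1) ((npow q).comp hJ)) (CK.add (CK.poly w1 (CK.const β))
    (CK.pow (CK.ofCode w2) ((npow q).comp ?_)))
  exact Primrec.nat_add.to_comp.comp h2 hJ

theorem Gm_comp (q : ℕ) (β : K) :
    ComputablePred fun p : (ℕ × (ℕ × ℕ) × ℕ) × ℕ => Gm F q β p.1 p.2 := by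
  refine cp_or ?_ ?_
  · exact cp_comp (P := fun p : ℕ × ℕ => p.1 ≤ p.2)
      (⟨fun p => inferInstance, (Primrec.nat_le.decide.to_comp).of_eq fun p => by simp⟩)
      (f := fun p : (ℕ × (ℕ × ℕ) × ℕ) × ℕ => (p.1.1, p.2))
      (Computable.pair (Computable.fst.comp Computable.fst) Computable.snd)
  · refine cp_ball (P := fun (p : (ℕ × (ℕ × ℕ) × ℕ) × ℕ) w =>
      ¬ Dm F q β (nx K q p.1.2.1 p.2) p.1.2.2 w) ?_ (Computable.fst.comp Computable.fst)
    refine cp_not (Dm_comp q β (nx_comp q ?_ ?_) ?_ Computable.snd)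
    · exact Computable.fst.comp (Computable.snd.comp (Computable.fst.comp Computable.fst))
    · exact Computable.snd.comp Computable.fst
    · exact Computable.snd.comp (Computable.snd.comp (Computable.fst.comp Computable.fst))

theorem caseII_B (q : ℕ) [ExpChar K q] {β : K}
    (hun : ∀ J, ∃ a : K, a ^ q ^ J ∉ Algebra.adjoin F {β})
    (hfin : ∀ z : K, z ∉ Algebra.adjoin F {β} →
      ∃ c, ∀ u : K, z - u ^ q ^ c ∉ Algebra.adjoin F {β}) :
    ∃ α : ℕ → K, CK α ∧ ∀ J, ∀ᶠ s in atTop, α s ^ q ^ J ∉ Algebra.adjoin F {β} := by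
  classical
  have hq : 0 < q := expChar_pos K q
  obtain ⟨g, hg1, hg2⟩ := search (Gm_comp (F := F) q β) (fun p => ⟨p.1, Or.inl le_rfl⟩)
  let st : ℕ → ℕ → ℕ × ℕ := fun s J => Nat.rec (0, 0) (fun J h => nx K q h (g (s, h, J))) J
  have hst : Computable₂ st := by
    have h1 : Computable fun p : ℕ × ℕ => (Nat.rec (0, 0)
        (fun J h => nx K q h (g (p.1, h, J))) p.2 : ℕ × ℕ) := by
      refine Computable.nat_rec (h := fun (p : ℕ × ℕ) (r : ℕ × ℕ × ℕ) =>
        nx K q r.2 (g (p.1, r.2, r.1))) Computable.snd (Computable.const (0, 0)) ?_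
      refine nx_comp q (Computable.snd.comp Computable.snd) (hg1.comp ?_)
      exact Computable.pair (Computable.fst.comp Computable.fst)
        (Computable.pair (Computable.snd.comp Computable.snd)
          (Computable.fst.comp Computable.snd))
    exact h1
  have hst_succ : ∀ s J, st s (J + 1) = nx K q (st s J) (g (s, st s J, J)) := fun s J => rfl
  -- a true choice exists
  have htrue : ∀ (h : ℕ × ℕ) (J : ℕ), ∃ n, ∀ w, ¬ Dm F q β (nx K q h n) J w := by
    intro h J
    obtain ⟨v, δ, hv⟩ := exists_choice (F := F) q hun hfin (toK K h.1) h.2 J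
    refine ⟨Nat.pair (v : ℕ) δ, fun w hw => ?_⟩
    unfold Dm nx at hw
    simp only [Nat.unpair_pair, toK_coe] at hw
    apply hv (toK K w.unpair.2)
    rw [hw, add_sub_cancel_right]
    exact mem_adjoin_iff.2 ⟨_, rfl⟩
  -- convergence of the least choice
  have hlim : ∀ (h : ℕ × ℕ) (J : ℕ), ∃ n, (∀ w, ¬ Dm F q β (nx K q h n) J w) ∧
      ∃ s0, ∀ s ≥ s0, g (s, h, J) = n := by
    intro h J
    have hex := htrue h J
    refine ⟨Nat.find hex, Nat.find_spec hex, ?_⟩
    have hbad : ∀ n, ∃ w, n < Nat.find hex → Dm F q β (nx K q h n) J w := by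
      intro n
      by_cases hn : n < Nat.find hex
      · have := Nat.find_min hex hn
        push Not at this
        obtain ⟨w, hw⟩ := this
        exact ⟨w, fun _ => hw⟩
      · exact ⟨0, fun h => absurd h hn⟩
    choose W hW using hbad
    refine ⟨Nat.find hex + 1 + ∑ n ∈ Finset.range (Nat.find hex), (W n + 1), fun s hs => ?_⟩
    obtain ⟨h1, h2⟩ := hg2 (s, h, J)
    apply le_antisymm
    · by_contra hlt
      push Not at hlt
      exact h2 _ hlt (Or.inr fun w _ => Nat.find_spec hex w)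
    · by_contra hlt
      push Not at hlt
      rcases h1 with h3 | h3
      · change s ≤ _ at h3
        omega
      · have h4 := hW _ hlt
        refine h3 (W (g (s, h, J))) ?_ h4
        change _ < s
        have h5 : W (g (s, h, J)) + 1 ≤ ∑ n ∈ Finset.range (Nat.find hex), (W n + 1) :=
          Finset.single_le_sum (f := fun n => W n + 1) (fun _ _ => Nat.zero_le _)
            (Finset.mem_range.2 hlt)
        omega
  have hconv : ∀ J, ∃ h, ∃ s0, ∀ s ≥ s0, st s J = h := by
    intro J
    induction J with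
    | zero => exact ⟨(0, 0), 0, fun s _ => rfl⟩
    | succ J ih =>
      obtain ⟨h, s0, hs0⟩ := ih
      obtain ⟨n, -, s1, hs1⟩ := hlim h J
      refine ⟨nx K q h n, max s0 s1, fun s hs => ?_⟩
      rw [hst_succ, hs0 s (le_trans (le_max_left _ _) hs), hs1 s (le_trans (le_max_right _ _) hs)]
  have hgood : ∀ J, ∃ h : ℕ × ℕ, (∀ w, ¬ Dm F q β h J w) ∧ ∃ s0, ∀ s ≥ s0, st s (J + 1) = h := by
    intro J
    obtain ⟨h, s0, hs0⟩ := hconv J
    obtain ⟨n, hn, s1, hs1⟩ := hlim h J
    refine ⟨nx K q h n, hn, max s0 s1, fun s hs => ?_⟩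
    rw [hst_succ, hs0 s (le_trans (le_max_left _ _) hs), hs1 s (le_trans (le_max_right _ _) hs)]
  have hmono : ∀ s i j, i ≤ j → ∃ u : K,
      toK K (st s j).1 = toK K (st s i).1 + u ^ q ^ (st s i).2 ∧ (st s i).2 ≤ (st s j).2 := by
    intro s i j hij
    induction j, hij using Nat.le_induction with
    | base =>
      refine ⟨0, ?_, le_rfl⟩
      rw [zero_pow (pow_pos hq _).ne', add_zero]
    | succ j hij ih =>
      obtain ⟨u, hu1, hu2⟩ := ih
      set n := g (s, st s j, j)
      have e1 : st s (j + 1) = nx K q (st s j) n := hst_succ s j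
      refine ⟨u + toK K n.unpair.1 ^ q ^ ((st s j).2 - (st s i).2), ?_, ?_⟩
      · rw [e1]
        unfold nx
        simp only [toK_coe]
        rw [hu1, add_pow_expChar_pow, ← pow_mul, ← pow_add, Nat.sub_add_cancel hu2, add_assoc]
      · rw [e1]
        exact hu2.trans (Nat.le_add_right _ _)
  refine ⟨fun s => toK K (st s s).1, ?_, fun J => ?_⟩
  · exact CK.ofCode (Computable.fst.comp (hst.comp Computable.id Computable.id))
  · obtain ⟨h, hh, s0, hs0⟩ := hgood J
    refine eventually_atTop.2 ⟨max s0 (J + 1), fun s hs hmem => ?_⟩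
    obtain ⟨u, hu, -⟩ := hmono s (J + 1) s (le_trans (le_max_right _ _) hs)
    have e2 := hs0 s (le_trans (le_max_left _ _) hs)
    rw [e2] at hu
    change toK K (st s s).1 ^ q ^ J ∈ Algebra.adjoin F {β} at hmem
    rw [hu, add_pow_expChar_pow, ← pow_mul, ← pow_add] at hmem
    obtain ⟨l, hl⟩ := mem_adjoin_iff.1 hmem
    apply hh (Nat.pair l ((-u : K) : ℕ))
    unfold Dm
    simp only [Nat.unpair_pair, toK_coe]
    have e3 : (-u) ^ q ^ (h.2 + J) = - u ^ q ^ (h.2 + J) := by
      have := sub_pow_expChar_pow (p := q) (0 : K) u (n := h.2 + J)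
      rw [zero_pow (pow_pos hq _).ne'] at this
      simpa using this
    rw [e3, hl]
    ring

/-- Every computable field extension with unbounded degrees has a computable sequence of elements
whose degrees tend to infinity. -/
theorem exists_seq (hun : ∀ n, ∃ a : K, ¬ DegLe F n a) :
    ∃ α : ℕ → K, CK α ∧ ∀ n, ∀ᶠ s in atTop, ¬ DegLe F n (α s) := by
  classical
  by_cases halg : Algebra.IsAlgebraic F K
  · obtain ⟨q, hq⟩ := ExpChar.exists F
    have hqK : ExpChar K q := expChar_of_injective_algebraMap (algebraMap F K).injective q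
    by_cases hI : ∀ n, ∃ a : K, IsSeparable F a ∧ ¬ DegLe F n a
    · exact caseI hI
    · push Not at hI
      obtain ⟨n, hn⟩ := hI
      obtain ⟨β, hβ, hgen⟩ := exists_gen hn
      have hunJ : ∀ J, ∃ a : K, a ^ q ^ J ∉ Algebra.adjoin F {β} := by
        intro J
        by_contra hcon
        push Not at hcon
        obtain ⟨m, hm⟩ := bounded_of_pow q (expChar_pos F q) hβ.isIntegral hcon
        obtain ⟨a, ha⟩ := hun m
        exact ha (hm a)
      have hα : ∃ α : ℕ → K, CK α ∧ ∀ J, ∀ᶠ s in atTop, α s ^ q ^ J ∉ Algebra.adjoin F {β} := by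
        by_cases hA : ∃ z : K, z ∉ Algebra.adjoin F {β} ∧
            ∀ c, ∃ u : K, z - u ^ q ^ c ∈ Algebra.adjoin F {β}
        · obtain ⟨z, hz1, hz2⟩ := hA
          exact caseII_A q hz1 hz2
        · push Not at hA
          exact caseII_B q hunJ hA
      obtain ⟨α, hα1, hα2⟩ := hα
      refine ⟨α, hα1, fun m => ?_⟩
      filter_upwards [hα2 m] with s hs hd
      exact hs (hgen _ (exists_pow_sep q hd))
  · have : ∃ a : K, ¬ IsAlgebraic F a := by
      by_contra hcon
      push Not at hcon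
      exact halg ⟨hcon⟩
    obtain ⟨a, ha⟩ := this
    refine ⟨fun _ => a, CK.const a, fun n => Eventually.of_forall fun s hd => ha ?_⟩
    obtain ⟨P, h0, -, hP⟩ := hd
    exact ⟨P, h0, hP⟩

end ext

end Pool.Agent.R626.Coh
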