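import Mathlib

/-!
# Total functions recursive in a set of oracles

Small toolbox for `CompIn O f`: the total function `f : ℕ → ℕ` is recursive in `O`.
-/

set_option autoImplicit false

namespace Pool.Agent.R626

open Encodable

/-- the total function `f` is recursive in the oracles `O` -/
def CompIn (O : Set (ℕ →. ℕ)) (f : ℕ → ℕ) : Prop := Nat.RecursiveIn O (fun n => Part.some (f n))

variable {O : Set (ℕ →. ℕ)}

theorem CompIn.of_eq {f g : ℕ → ℕ} (hf : CompIn O f) (h : ∀ n, f n = g n) : CompIn O g := by
  have : f = g := funext h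
  rwa [← this]

theorem CompIn.of_comp {f : ℕ → ℕ} (hf : Computable f) : CompIn O f :=
  Nat.Partrec.recursiveIn (Partrec.nat_iff.1 hf)

theorem CompIn.of_prim {f : ℕ → ℕ} (hf : Primrec f) : CompIn O f := .of_comp hf.to_comp

theorem CompIn.oracle {g : ℕ → ℕ} (hg : (g : ℕ →. ℕ) ∈ O) : CompIn O g :=
  Nat.RecursiveIn.oracle _ hg

theorem CompIn.comp {f g : ℕ → ℕ} (hf : CompIn O f) (hg : CompIn O g) :
    CompIn O (fun n => f (g n)) := by
  refine (Nat.RecursiveIn.comp hf hg).of_eq fun n => ?_
  exact Part.bind_some _ _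

theorem CompIn.pair {f g : ℕ → ℕ} (hf : CompIn O f) (hg : CompIn O g) :
    CompIn O (fun n => Nat.pair (f n) (g n)) := by
  refine (Nat.RecursiveIn.pair hf hg).of_eq fun n => ?_
  simp [Seq.seq, Part.map_some, Part.bind_some]

theorem CompIn.prim₂ {F : ℕ → ℕ → ℕ} (hF : Primrec₂ F) {f g : ℕ → ℕ} (hf : CompIn O f)
    (hg : CompIn O g) : CompIn O (fun n => F (f n) (g n)) := by
  have h1 : CompIn O (fun p : ℕ => F (Nat.unpair p).1 (Nat.unpair p).2) :=
    CompIn.of_prim (hF.comp (Primrec.fst.comp Primrec.unpair) (Primrec.snd.comp Primrec.unpair))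
  exact (h1.comp (hf.pair hg)).of_eq fun n => by simp

theorem CompIn.comp₂ {F : ℕ → ℕ → ℕ} (hF : Computable₂ F) {f g : ℕ → ℕ} (hf : CompIn O f)
    (hg : CompIn O g) : CompIn O (fun n => F (f n) (g n)) := by
  have h1 : CompIn O (fun p : ℕ => F (Nat.unpair p).1 (Nat.unpair p).2) :=
    CompIn.of_comp (hF.comp (Computable.fst.comp Computable.unpair)
      (Computable.snd.comp Computable.unpair))
  exact (h1.comp (hf.pair hg)).of_eq fun n => by simp

/-- primitive recursion with a parameter -/
theorem CompIn.rec {f h : ℕ → ℕ} (hf : CompIn O f) (hh : CompIn O h) :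
    CompIn O (fun p => Nat.rec (f (Nat.unpair p).1)
      (fun y ih => h (Nat.pair (Nat.unpair p).1 (Nat.pair y ih))) (Nat.unpair p).2) := by
  refine (Nat.RecursiveIn.prec hf hh).of_eq fun p => ?_
  simp only
  induction (Nat.unpair p).2 with
  | zero => rfl
  | succ n ih =>
    simp only [ih]
    exact Part.bind_some _ _

theorem computable_iff {f : ℕ → ℕ} : CompIn ∅ f ↔ Computable f := by
  constructor
  · intro h
    have h1 : RecursiveIn ∅ (fun n => Part.some (f n)) := RecursiveIn.iff_nat.2 h
    exact recursiveIn_empty_iff.1 h1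
  · exact CompIn.of_comp

/-- the code of the list `[Z 0, ..., Z (n-1)]` -/
theorem CompIn.mapRange {Z : ℕ → ℕ} (hZ : CompIn O Z) :
    CompIn O (fun n => encode ((List.range n).map Z)) := by
  have happ : Primrec₂ (fun (l a : ℕ) => encode (((decode (α := List ℕ) l).getD []) ++ [a])) := by
    refine Primrec.encode.comp (Primrec.list_append.comp ?_ ?_)
    · exact Primrec.option_getD.comp (Primrec.decode.comp Primrec.fst) (Primrec.const [])
    · exact Primrec.list_cons.comp Primrec.snd (Primrec.const [])
  have hstep : CompIn O (fun p : ℕ => encode (((decode (α := List ℕ)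
      (Nat.unpair (Nat.unpair p).2).2).getD []) ++ [Z (Nat.unpair (Nat.unpair p).2).1])) := by
    refine CompIn.prim₂ happ (CompIn.of_prim ?_) (hZ.comp (CompIn.of_prim ?_))
    · exact Primrec.snd.comp (Primrec.unpair.comp (Primrec.snd.comp Primrec.unpair))
    · exact Primrec.fst.comp (Primrec.unpair.comp (Primrec.snd.comp Primrec.unpair))
  have hc : CompIn O (fun _ : ℕ => encode ([] : List ℕ)) := CompIn.of_prim (Primrec.const _)
  have h1 := (CompIn.rec hc hstep).comp
    (CompIn.of_prim (Primrec₂.natPair.comp (Primrec.const 0) Primrec.id))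
  refine h1.of_eq fun n => ?_
  simp only [Nat.unpair_pair, id]
  induction n with
  | zero => rfl
  | succ n ih =>
    simp only [ih]
    simp [List.range_succ]

end Pool.Agent.R626
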