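import Mathlib

/-! Definitions: first-order Gödel logics. -/

namespace Pool.Agent.R626.GL

open Set

/-- Terms: variables `x_n`, and the `i`-th function symbol of arity `k` applied to `k` terms. -/
inductive Tm : Type
  | var (n : ℕ) : Tm
  | fn (k i : ℕ) (ts : Fin k → Tm) : Tm

/-- First-order formulas, with `rel k i` the `i`-th predicate symbol of arity `k`. -/
inductive Fm : Type
  | bot : Fm
  | rel (k i : ℕ) (ts : Fin k → Tm) : Fm
  | and (A B : Fm) : Fm
  | or (A B : Fm) : Fm
  | imp (A B : Fm) : Fm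
  | all (n : ℕ) (A : Fm) : Fm
  | ex (n : ℕ) (A : Fm) : Fm

/-- An interpretation over the domain `U`: functions for the function symbols, truth values in
`[0, 1]` for the atoms. -/
structure Interp (U : Type) where
  fn : ∀ k : ℕ, ℕ → (Fin k → U) → U
  rel : ∀ k : ℕ, ℕ → (Fin k → U) → unitInterval

/-- The value of a term under an assignment `v`. -/
def Tm.val {U : Type} (M : Interp U) (v : ℕ → U) : Tm → U
  | .var n => v n
  | .fn k i ts => M.fn k i fun j => (ts j).val M v

/-- The truth value of a formula under an assignment `v`. -/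
noncomputable def Fm.val {U : Type} (M : Interp U) : Fm → (ℕ → U) → unitInterval
  | .bot, _ => 0
  | .rel k i ts, v => M.rel k i fun j => (ts j).val M v
  | .and A B, v => min (A.val M v) (B.val M v)
  | .or A B, v => max (A.val M v) (B.val M v)
  | .imp A B, v => if A.val M v ≤ B.val M v then 1 else B.val M v
  | .all n A, v => ⨅ x : U, A.val M (Function.update v n x)
  | .ex n A, v => ⨆ x : U, A.val M (Function.update v n x)

/-- `A` is valid in the Gödel logic of `V`: it has the value `1` under every interpretation (over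
any domain) whose atoms take values in `V`, and every assignment. -/
def Valid (V : Set unitInterval) (A : Fm) : Prop :=
  ∀ (U : Type) (M : Interp U), (∀ k i a, M.rel k i a ∈ V) → ∀ v : ℕ → U, A.val M v = 1

/-- The string of symbols of a term, in Polish notation. -/
def Tm.code : Tm → List ℕ
  | .var n => [Nat.pair 0 n]
  | .fn k i ts => Nat.pair 1 (Nat.pair k i) :: (List.ofFn fun j => (ts j).code).flatten

/-- The string of symbols of a formula, in Polish notation; every symbol is coded by a number. -/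
def Fm.code : Fm → List ℕ
  | .bot => [Nat.pair 2 0]
  | .rel k i ts => Nat.pair 3 (Nat.pair k i) :: (List.ofFn fun j => (ts j).code).flatten
  | .and A B => Nat.pair 4 0 :: (A.code ++ B.code)
  | .or A B => Nat.pair 5 0 :: (A.code ++ B.code)
  | .imp A B => Nat.pair 6 0 :: (A.code ++ B.code)
  | .all n A => Nat.pair 7 n :: A.code
  | .ex n A => Nat.pair 8 n :: A.code

/-- Quantifier-free formulas. -/
def Fm.QF : Fm → Prop
  | .bot => True
  | .rel _ _ _ => True
  | .and A B => A.QF ∧ B.QF
  | .or A B => A.QF ∧ B.QF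
  | .imp A B => A.QF ∧ B.QF
  | .all _ _ => False
  | .ex _ _ => False

/-- Prenex formulas: a string of quantifiers in front of a quantifier-free formula. -/
inductive Fm.Prenex : Fm → Prop
  | qf (A : Fm) (h : A.QF) : Prenex A
  | all (n : ℕ) (A : Fm) (h : Prenex A) : Prenex (.all n A)
  | ex (n : ℕ) (A : Fm) (h : Prenex A) : Prenex (.ex n A)

/-- The Gödel logic of `V` admits effective validity-equivalent prenex normal forms. -/
def AdmitsPrenex (V : Set unitInterval) : Prop :=
  ∃ p : Fm → Fm, (∃ h : List ℕ → List ℕ, Computable h ∧ ∀ A, (p A).code = h A.code) ∧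
    ∀ A, (p A).Prenex ∧ (Valid V A ↔ Valid V (p A))

/-- A Gödel set: a closed subset of `[0, 1]` containing `0` and `1`. -/
def IsGoedelSet (V : Set unitInterval) : Prop := IsClosed V ∧ 0 ∈ V ∧ 1 ∈ V

/-! ### The truth value set of `G_↓` -/

/-- `tv 0 = 0` and `tv n = 1 / n` for `n > 0` -/
noncomputable def tv (n : ℕ) : unitInterval :=
  ⟨if n = 0 then 0 else 1 / (n : ℝ), by
    split_ifs with h
    · exact ⟨le_rfl, zero_le_one⟩
    · have h1 : (1 : ℝ) ≤ n := by exact_mod_cast Nat.one_le_iff_ne_zero.2 h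
      refine ⟨by positivity, ?_⟩
      rw [div_le_one (by linarith)]
      exact h1⟩

theorem tv_zero : tv 0 = 0 := by
  apply Subtype.ext; simp [tv]

theorem tv_one : tv 1 = 1 := by
  apply Subtype.ext; simp [tv]

theorem tv_le {i j : ℕ} : tv i ≤ tv j ↔ i = 0 ∨ (j ≠ 0 ∧ j ≤ i) := by
  rw [← Subtype.coe_le_coe]
  by_cases hi : i = 0
  · subst hi
    simp only [tv, if_true, true_or, iff_true]
    split_ifs
    · exact le_rfl
    · positivity
  · have hi' : (0 : ℝ) < i := by exact_mod_cast Nat.pos_of_ne_zero hi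
    by_cases hj : j = 0
    · subst hj
      simp only [tv, if_true, hi, if_false, false_or, ne_eq, not_true, false_and, iff_false,
        not_le]
      exact one_div_pos.2 hi'
    · have hj' : (0 : ℝ) < j := by exact_mod_cast Nat.pos_of_ne_zero hj
      simp only [tv, hi, hj, if_false, false_or, ne_eq, not_false_eq_true, true_and]
      rw [one_div_le_one_div hi' hj']
      exact Nat.cast_le

theorem tv_lt {i j : ℕ} : tv i < tv j ↔ j ≠ 0 ∧ (i = 0 ∨ j < i) := by
  rw [← not_le, tv_le]
  omega

theorem tv_inj {i j : ℕ} (h : tv i = tv j) : i = j := by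
  have h1 := tv_le.1 h.le
  have h2 := tv_le.1 h.ge
  omega

/-- The set `{0} ∪ {1 / n : n ≥ 1}`, whose only accumulation point is `0`. -/
def Vdown : Set unitInterval := {x | (x : ℝ) = 0 ∨ ∃ n : ℕ, (x : ℝ) = 1 / (n + 1)}

theorem mem_Vdown {x : unitInterval} : x ∈ Vdown ↔ ∃ n, tv n = x := by
  constructor
  · rintro (h | ⟨n, h⟩)
    · exact ⟨0, by rw [tv_zero]; exact Subtype.ext h.symm⟩
    · refine ⟨n + 1, Subtype.ext ?_⟩
      rw [h]
      simp [tv]
  · rintro ⟨n, rfl⟩
    rcases n with _ | n
    · left; simp [tv]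
    · right; exact ⟨n, by simp [tv]⟩

theorem tv_mem (n : ℕ) : tv n ∈ Vdown := mem_Vdown.2 ⟨n, rfl⟩

/-- inverse of `tv` on its range -/
noncomputable def tc (x : unitInterval) : ℕ := by
  classical
  exact if h : ∃ n, tv n = x then h.choose else 0

theorem tv_tc {x : unitInterval} (h : x ∈ Vdown) : tv (tc x) = x := by
  classical
  have h' := mem_Vdown.1 h
  unfold tc
  rw [dif_pos h']
  exact h'.choose_spec

theorem tc_tv (n : ℕ) : tc (tv n) = n := tv_inj (tv_tc (tv_mem n))

/-- infima of families in `Vdown` are in `Vdown` -/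
theorem iInf_mem {ι : Type} [Nonempty ι] {f : ι → unitInterval} (hf : ∀ i, f i ∈ Vdown) :
    (⨅ i, f i) ∈ Vdown := by
  classical
  choose g hg using fun i => mem_Vdown.1 (hf i)
  by_cases h0 : ∃ i, g i = 0
  · obtain ⟨i, hi⟩ := h0
    have h1 : (⨅ i, f i) ≤ 0 := by
      refine (iInf_le f i).trans ?_
      rw [← hg i, hi, tv_zero]
    have h2 : (⨅ i, f i) = 0 := le_antisymm h1 bot_le
    rw [h2, ← tv_zero]; exact tv_mem 0
  · push Not at h0
    by_cases hb : ∃ B, ∀ i, g i ≤ B
    · obtain ⟨B, hB⟩ := hb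
      -- the maximum of `g` is attained
      have hex : ∃ m, ∃ i, g i = m ∧ ∀ j, g j ≤ m := by
        let P : ℕ → Prop := fun m => ∃ i, g i = m
        obtain ⟨i0⟩ := ‹Nonempty ι›
        have h3 : P (Nat.findGreatest P B) :=
          Nat.findGreatest_spec (P := P) (hB i0) ⟨i0, rfl⟩
        obtain ⟨i, hi⟩ := h3
        exact ⟨_, i, hi, fun j => Nat.le_findGreatest (hB j) ⟨j, rfl⟩⟩
      obtain ⟨m, i, hi, hm⟩ := hex
      have h4 : (⨅ i, f i) = tv m := by
        apply le_antisymm
        · refine (iInf_le f i).trans ?_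
          rw [← hg i, hi]
        · refine le_iInf fun j => ?_
          rw [← hg j, tv_le]
          exact Or.inr ⟨h0 j, hm j⟩
      rw [h4]; exact tv_mem m
    · push Not at hb
      have h5 : (⨅ i, f i) = 0 := by
        apply le_antisymm _ bot_le
        rw [← Subtype.coe_le_coe]
        change ((⨅ i, f i : unitInterval) : ℝ) ≤ 0
        refine le_of_forall_pos_le_add fun ε hε => ?_
        obtain ⟨N, hN⟩ := exists_nat_gt (1 / ε)
        obtain ⟨i, hi⟩ := hb N
        have h6 : ((⨅ i, f i : unitInterval) : ℝ) ≤ (f i : ℝ) := Subtype.coe_le_coe.2 (iInf_le f i)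
        refine h6.trans ?_
        rw [← hg i]
        simp only [tv, if_neg (h0 i)]
        rw [zero_add]
        have h7 : (0 : ℝ) < g i := by exact_mod_cast Nat.pos_of_ne_zero (h0 i)
        rw [div_le_iff₀ h7]
        have h8 : 1 / ε < g i := hN.trans (by exact_mod_cast hi)
        rw [div_lt_iff₀ hε] at h8
        linarith
      rw [h5, ← tv_zero]; exact tv_mem 0

/-- suprema of families in `Vdown` are attained -/
theorem iSup_attained {ι : Type} [Nonempty ι] {f : ι → unitInterval} (hf : ∀ i, f i ∈ Vdown) :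
    ∃ i, (⨆ i, f i) = f i := by
  classical
  choose g hg using fun i => mem_Vdown.1 (hf i)
  by_cases h0 : ∃ m, m ≠ 0 ∧ ∃ i, g i = m
  · have hs := Nat.find_spec h0
    obtain ⟨hm0, i, hi⟩ := hs
    refine ⟨i, le_antisymm (iSup_le fun j => ?_) (le_iSup f i)⟩
    rw [← hg j, ← hg i, tv_le]
    by_cases hj : g j = 0
    · exact Or.inl hj
    · refine Or.inr ⟨by rw [hi]; exact hm0, ?_⟩
      rw [hi]
      exact Nat.find_min' h0 ⟨hj, j, rfl⟩
  · push Not at h0
    obtain ⟨i0⟩ := ‹Nonempty ι›
    refine ⟨i0, le_antisymm (iSup_le fun j => ?_) (le_iSup f i0)⟩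
    rw [← hg j, ← hg i0, tv_le]
    left
    by_contra hcon
    exact h0 _ hcon j rfl

theorem isGoedelSet_Vdown : IsGoedelSet Vdown := by
  refine ⟨?_, ?_, ?_⟩
  · rw [← isSeqClosed_iff_isClosed]
    intro x p hx hp
    by_contra hcon
    -- `p` is not in the set, so it is positive, and the values near `p` are bounded below
    have hp0 : (0 : ℝ) < p := by
      rcases lt_or_eq_of_le p.2.1 with h | h
      · exact h
      · exact absurd (Or.inl h.symm) hcon
    have hp1 : Filter.Tendsto (fun n => (x n : ℝ)) Filter.atTop (nhds (p : ℝ)) :=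
      (continuous_subtype_val.tendsto p).comp hp
    -- eventually `x n > p / 2`
    have h1 : ∀ᶠ n in Filter.atTop, (p : ℝ) / 2 < x n :=
      hp1.eventually (lt_mem_nhds (by linarith))
    obtain ⟨N, hN⟩ := exists_nat_gt (2 / (p : ℝ))
    -- so eventually `x n` is in a finite set
    let S : Set ℝ := (fun k : ℕ => 1 / ((k : ℝ) + 1)) '' {k | k < N}
    have hS : S.Finite := (Set.finite_lt_nat N).image _
    have h2 : ∀ᶠ n in Filter.atTop, (x n : ℝ) ∈ S := by
      filter_upwards [h1] with n hn
      rcases hx n with h | ⟨k, hk⟩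
      · rw [h] at hn; linarith
      · refine ⟨k, ?_, hk.symm⟩
        rw [hk] at hn
        have hk1 : (0 : ℝ) < (k : ℝ) + 1 := by positivity
        rw [lt_div_iff₀ hk1] at hn
        have h3 : (k : ℝ) + 1 < 2 / p := by
          rw [lt_div_iff₀ hp0]; linarith
        have h4 : (k : ℝ) < N := by linarith
        exact_mod_cast h4
    have h3 : (p : ℝ) ∈ S := hS.isClosed.mem_of_tendsto hp1 h2
    obtain ⟨k, -, hk⟩ := h3
    exact hcon (Or.inr ⟨k, hk.symm⟩)
  · rw [← tv_zero]; exact tv_mem 0
  · rw [← tv_one]; exact tv_mem 1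

end Pool.Agent.R626.GL
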