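import Pool.Agent.R626.GLA

/-! Clauses and existential formulas. -/

namespace Pool.Agent.R626.GL

open Set

/-- clauses: positive boolean combinations of rank comparisons -/
inductive Cl : Type
  | lt (a b : Tm) : Cl
  | le (a b : Tm) : Cl
  | and (c d : Cl) : Cl
  | or (c d : Cl) : Cl

/-- an algebra with a rank function -/
structure Alg (U : Type) where
  fn : ∀ k : ℕ, ℕ → (Fin k → U) → U
  rk : U → ℕ

variable {U : Type}

/-- value of a term in an algebra -/
def Tm.ev (S : Alg U) (v : ℕ → U) : Tm → U
  | .var n => v n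
  | .fn k i ts => S.fn k i fun j => (ts j).ev S v

/-- truth of a clause -/
def Cl.holds (S : Alg U) (v : ℕ → U) : Cl → Prop
  | .lt a b => S.rk (a.ev S v) < S.rk (b.ev S v)
  | .le a b => S.rk (a.ev S v) ≤ S.rk (b.ev S v)
  | .and c d => c.holds S v ∧ d.holds S v
  | .or c d => c.holds S v ∨ d.holds S v

/-- the atomic formula `P t` -/
def Pr (t : Tm) : Fm := .rel 1 0 fun _ => t

/-- formula whose value is `< 1` iff the clause holds -/
def Cl.toFm : Cl → Fm
  | .lt a b => .imp (Pr a) (Pr b)
  | .le a b => .imp (.imp (Pr b) (Pr a)) (Pr a)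
  | .and c d => .or c.toFm d.toFm
  | .or c d => .and c.toFm d.toFm

theorem toFm_qf (c : Cl) : c.toFm.QF := by
  induction c with
  | lt a b => exact ⟨trivial, trivial⟩
  | le a b => exact ⟨⟨trivial, trivial⟩, trivial⟩
  | and c d hc hd => exact ⟨hc, hd⟩
  | or c d hc hd => exact ⟨hc, hd⟩

theorem ev_eq_val (M : Interp U) (S : Alg U) (hfn : S.fn = M.fn) (v : ℕ → U) (t : Tm) :
    t.ev S v = t.val M v := by
  induction t with
  | var n => rfl
  | fn k i ts ih =>
    change S.fn k i _ = M.fn k i _
    rw [hfn]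
    congr 1
    funext j
    exact ih j

theorem Pr_val (M : Interp U) (v : ℕ → U) (t : Tm) :
    (Pr t).val M v = M.rel 1 0 fun _ => t.val M v := rfl

theorem tv_lt_one {n : ℕ} (h : n ≠ 1) : tv n < 1 := by
  rw [← tv_one, tv_lt]
  omega

theorem toFm_lt_one (M : Interp U) (S : Alg U) (hfn : S.fn = M.fn)
    (hrk : ∀ u, M.rel 1 0 (fun _ => u) = tv (S.rk u)) (h2 : ∀ u, 2 ≤ S.rk u) (v : ℕ → U)
    (c : Cl) : c.toFm.val M v < 1 ↔ c.holds S v := by
  induction c with
  | lt a b =>
    change (if (Pr a).val M v ≤ (Pr b).val M v then (1 : unitInterval) else (Pr b).val M v) < 1 ↔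
      S.rk (a.ev S v) < S.rk (b.ev S v)
    rw [Pr_val, Pr_val, hrk, hrk, ev_eq_val M S hfn, ev_eq_val M S hfn]
    have ha := h2 (a.val M v)
    have hb := h2 (b.val M v)
    split_ifs with h
    · rw [tv_le] at h
      simp only [lt_self_iff_false, false_iff, not_lt]
      omega
    · rw [tv_le] at h
      have : tv (S.rk (b.val M v)) < 1 := tv_lt_one (by omega)
      simp only [this, true_iff]
      omega
  | le a b =>
    change (if (if (Pr b).val M v ≤ (Pr a).val M v then (1 : unitInterval) else (Pr a).val M v) ≤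
        (Pr a).val M v then (1 : unitInterval) else (Pr a).val M v) < 1 ↔
      S.rk (a.ev S v) ≤ S.rk (b.ev S v)
    rw [Pr_val, Pr_val, hrk, hrk, ev_eq_val M S hfn, ev_eq_val M S hfn]
    have ha := h2 (a.val M v)
    have hb := h2 (b.val M v)
    have h1 : tv (S.rk (a.val M v)) < 1 := tv_lt_one (by omega)
    by_cases h : tv (S.rk (b.val M v)) ≤ tv (S.rk (a.val M v))
    · rw [if_pos h, if_neg (not_le.2 h1)]
      simp only [h1, true_iff]
      rw [tv_le] at h
      omega
    · rw [if_neg h, if_pos le_rfl]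
      simp only [lt_self_iff_false, false_iff, not_le]
      rw [tv_le] at h
      omega
  | and c d hc hd =>
    change max _ _ < (1 : unitInterval) ↔ _ ∧ _
    rw [max_lt_iff, hc, hd]
  | or c d hc hd =>
    change min _ _ < (1 : unitInterval) ↔ _ ∨ _
    rw [min_lt_iff, hc, hd]

/-- values of formulas are in `Vdown` -/
theorem val_mem [Nonempty U] (M : Interp U) (hM : ∀ k i a, M.rel k i a ∈ Vdown) (A : Fm) :
    ∀ v : ℕ → U, A.val M v ∈ Vdown := by
  induction A with
  | bot => intro v; change (0 : unitInterval) ∈ Vdown; rw [← tv_zero]; exact tv_mem 0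
  | rel k i ts => intro v; exact hM _ _ _
  | and A B hA hB =>
    intro v
    change min _ _ ∈ Vdown
    rcases min_choice (A.val M v) (B.val M v) with h | h <;> rw [h]
    · exact hA v
    · exact hB v
  | or A B hA hB =>
    intro v
    change max _ _ ∈ Vdown
    rcases max_choice (A.val M v) (B.val M v) with h | h <;> rw [h]
    · exact hA v
    · exact hB v
  | imp A B hA hB =>
    intro v
    change (if _ then (1 : unitInterval) else _) ∈ Vdown
    split_ifs
    · rw [← tv_one]; exact tv_mem 1
    · exact hB v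
  | all n A hA => intro v; exact iInf_mem fun x => hA _
  | ex n A hA =>
    intro v
    obtain ⟨x, hx⟩ := iSup_attained (f := fun x : U => A.val M (Function.update v n x))
      fun x => hA _
    change (⨆ x : U, A.val M (Function.update v n x)) ∈ Vdown
    rw [hx]; exact hA _

theorem ex_lt_one [Nonempty U] (M : Interp U) (hM : ∀ k i a, M.rel k i a ∈ Vdown) (n : ℕ) (A : Fm)
    (v : ℕ → U) : (Fm.ex n A).val M v < 1 ↔ ∀ x, A.val M (Function.update v n x) < 1 := by
  obtain ⟨x, hx⟩ := iSup_attained (f := fun x : U => A.val M (Function.update v n x))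
    fun x => val_mem M hM A _
  change (⨆ x : U, A.val M (Function.update v n x)) < 1 ↔ _
  constructor
  · intro h y
    exact lt_of_le_of_lt (le_iSup (fun x : U => A.val M (Function.update v n x)) y) h
  · intro h
    rw [hx]
    exact h x

/-- `∃ x_{K-1} ... ∃ x_0` -/
def exs : ℕ → Fm → Fm
  | 0, A => A
  | K + 1, A => .ex K (exs K A)

theorem exs_prenex (K : ℕ) (A : Fm) (h : A.QF) : (exs K A).Prenex := by
  induction K with
  | zero => exact .qf A h
  | succ K ih => exact .ex K _ ih

theorem exs_lt_one [Nonempty U] (M : Interp U) (hM : ∀ k i a, M.rel k i a ∈ Vdown) (K : ℕ)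
    (A : Fm) : ∀ v : ℕ → U, (exs K A).val M v < 1 ↔
      ∀ v' : ℕ → U, (∀ n, K ≤ n → v' n = v n) → A.val M v' < 1 := by
  induction K with
  | zero =>
    intro v
    constructor
    · intro h v' hv'
      have : v' = v := funext fun n => hv' n (Nat.zero_le n)
      rw [this]; exact h
    · intro h
      exact h v fun _ _ => rfl
  | succ K ih =>
    intro v
    change (Fm.ex K (exs K A)).val M v < 1 ↔ _
    rw [ex_lt_one M hM]
    constructor
    · intro h v' hv'
      refine (ih (Function.update v K (v' K))).1 (h (v' K)) v' fun n hn => ?_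
      rcases Nat.eq_or_lt_of_le hn with rfl | hlt
      · simp
      · rw [Function.update_of_ne (by omega)]
        exact hv' n hlt
    · intro h x
      refine (ih _).2 fun v' hv' => h v' fun n hn => ?_
      rw [hv' n (by omega), Function.update_of_ne (by omega)]

/-- the formula saying that the clause `c` fails somewhere -/
def sent (K : ℕ) (c : Cl) : Fm :=
  exs K (.or (.or (Pr (.var 0)) (.imp (Pr (.var 0)) .bot)) c.toFm)

theorem sent_prenex (K : ℕ) (c : Cl) : (sent K c).Prenex :=
  exs_prenex K _ ⟨⟨trivial, trivial, trivial⟩, toFm_qf c⟩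

theorem holds_shift (S : Alg U) (r : ℕ) (v : ℕ → U) (c : Cl) :
    c.holds ⟨S.fn, fun u => S.rk u + r⟩ v ↔ c.holds S v := by
  have key : ∀ t : Tm, t.ev ⟨S.fn, fun u => S.rk u + r⟩ v = t.ev S v := by
    intro t
    induction t with
    | var n => rfl
    | fn k i ts ih =>
      change S.fn k i _ = S.fn k i _
      congr 1
      funext j
      exact ih j
  induction c with
  | lt a b =>
    change S.rk _ + r < S.rk _ + r ↔ S.rk _ < S.rk _
    rw [key, key]; omega
  | le a b =>
    change S.rk _ + r ≤ S.rk _ + r ↔ S.rk _ ≤ S.rk _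
    rw [key, key]; omega
  | and c d hc hd => exact and_congr hc hd
  | or c d hc hd => exact or_congr hc hd

theorem sent_not_valid {K : ℕ} (hK : 0 < K) (c : Cl) :
    ¬ Valid Vdown (sent K c) ↔
      ∃ (U : Type) (S : Alg U) (v : ℕ → U), ∀ v' : ℕ → U, (∀ n, K ≤ n → v' n = v n) →
        c.holds S v' := by
  constructor
  · intro h
    unfold Valid at h
    push Not at h
    obtain ⟨U, M, hM, v, hv⟩ := h
    have : Nonempty U := ⟨v 0⟩
    have hlt : (sent K c).val M v < 1 := lt_of_le_of_ne le_top hv
    have h1 := (exs_lt_one M hM K _ v).1 hlt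
    have h2 : ∀ u, M.rel 1 0 (fun _ => u) = tv (tc (M.rel 1 0 fun _ => u)) := fun u =>
      (tv_tc (hM _ _ _)).symm
    have h3 : ∀ u, 2 ≤ tc (M.rel 1 0 fun _ => u) := by
      intro u
      have h4 := h1 (Function.update v 0 u) fun n hn => by
        rw [Function.update_of_ne (by omega)]
      change max (max _ _) _ < (1 : unitInterval) at h4
      rw [max_lt_iff, max_lt_iff] at h4
      obtain ⟨⟨h5, h6⟩, -⟩ := h4
      have e1 : (Pr (.var 0)).val M (Function.update v 0 u) = M.rel 1 0 fun _ => u := by
        rw [Pr_val]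
        have hself : (Tm.var 0).val M (Function.update v 0 u) = u := by
          change Function.update v 0 u 0 = u
          rw [Function.update_self]
        rw [hself]
      have e2 : (Fm.imp (Pr (.var 0)) .bot).val M (Function.update v 0 u) =
          if (M.rel 1 0 fun _ => u) ≤ 0 then 1 else 0 := by
        change (if (Pr (.var 0)).val M (Function.update v 0 u) ≤ 0 then (1 : unitInterval) else 0)
          = _
        rw [e1]
      rw [e1, h2 u, ← tv_one, tv_lt] at h5
      rw [e2] at h6
      by_contra hcon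
      have h7 : tc (M.rel 1 0 fun _ => u) = 0 := by omega
      have h8 : (M.rel 1 0 fun _ => u) ≤ 0 := by
        rw [h2 u, h7, tv_zero]
      rw [if_pos h8] at h6
      exact lt_irrefl _ h6
    refine ⟨U, ⟨M.fn, fun u => tc (M.rel 1 0 fun _ => u)⟩, v, fun v' hv' => ?_⟩
    rw [← toFm_lt_one M ⟨M.fn, fun u => tc (M.rel 1 0 fun _ => u)⟩ rfl h2 h3]
    have h4 := h1 v' hv'
    change max _ _ < (1 : unitInterval) at h4
    exact (max_lt_iff.1 h4).2
  · rintro ⟨U, S, v, h⟩ hval
    let M : Interp U := ⟨S.fn, fun k i a =>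
      if hk : 0 < k then tv (S.rk (a ⟨0, hk⟩) + 2) else 0⟩
    have hM : ∀ k i a, M.rel k i a ∈ Vdown := by
      intro k i a
      change (if hk : 0 < k then tv (S.rk (a ⟨0, hk⟩) + 2) else 0) ∈ Vdown
      split_ifs
      · exact tv_mem _
      · rw [← tv_zero]; exact tv_mem 0
    have : Nonempty U := ⟨v 0⟩
    have h1 := hval U M hM v
    have h2 : (sent K c).val M v < 1 := by
      refine (exs_lt_one M hM K _ v).2 fun v' hv' => ?_
      change max (max _ _) _ < (1 : unitInterval)
      have e1 : (Pr (.var 0)).val M v' = tv (S.rk (v' 0) + 2) := rfl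
      have e2 : (Fm.imp (Pr (.var 0)) .bot).val M v' =
          if tv (S.rk (v' 0) + 2) ≤ 0 then 1 else 0 := rfl
      rw [max_lt_iff, max_lt_iff]
      refine ⟨⟨?_, ?_⟩, ?_⟩
      · rw [e1]; exact tv_lt_one (by omega)
      · rw [e2, if_neg]
        · exact zero_lt_one
        · rw [← tv_zero, tv_le]; omega
      · rw [toFm_lt_one M ⟨S.fn, fun u => S.rk u + 2⟩ rfl (fun u => rfl) (fun u => by
          change 2 ≤ S.rk u + 2; omega)]
        rw [holds_shift]
        exact h v' hv'
    rw [h1] at h2
    exact lt_irrefl _ h2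

/-- conjunction of a list of clauses -/
def conj (c0 : Cl) : List Cl → Cl
  | [] => c0
  | c :: l => .and c (conj c0 l)

theorem conj_holds (S : Alg U) (v : ℕ → U) (c0 : Cl) (l : List Cl) :
    (conj c0 l).holds S v ↔ (∀ c ∈ l, c.holds S v) ∧ c0.holds S v := by
  induction l with
  | nil => simp [conj]
  | cons c l ih =>
    change (c.holds S v ∧ (conj c0 l).holds S v) ↔ _
    rw [ih]
    simp [and_assoc]

end Pool.Agent.R626.GL
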