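import Pool.Agent.R626.GLB

/-! The object-language description of the semantics; its clauses. -/

set_option linter.unusedSimpArgs false

namespace Pool.Agent.R626.GL

open Set

variable {U : Type}

/-- constants and function symbols applied to terms -/
def c0 (i : ℕ) : Tm := .fn 0 i fun j => j.elim0
def f1 (i : ℕ) (a : Tm) : Tm := .fn 1 i fun _ => a
def f2 (i : ℕ) (a b : Tm) : Tm := .fn 2 i ![a, b]
def f3 (i : ℕ) (a b c : Tm) : Tm := .fn 3 i ![a, b, c]
def f4 (i : ℕ) (a b c d : Tm) : Tm := .fn 4 i ![a, b, c, d]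

namespace Alg

variable (S : Alg U)

def g0 (i : ℕ) : U := S.fn 0 i fun j => j.elim0
def g1 (i : ℕ) (a : U) : U := S.fn 1 i fun _ => a
def g2 (i : ℕ) (a b : U) : U := S.fn 2 i ![a, b]
def g3 (i : ℕ) (a b c : U) : U := S.fn 3 i ![a, b, c]
def g4 (i : ℕ) (a b c d : U) : U := S.fn 4 i ![a, b, c, d]

end Alg

theorem ev_c0 (S : Alg U) (v : ℕ → U) (i : ℕ) : (c0 i).ev S v = S.g0 i := by
  change S.fn 0 i _ = S.fn 0 i _
  congr 1
  funext j
  exact j.elim0

theorem ev_f1 (S : Alg U) (v : ℕ → U) (i : ℕ) (a : Tm) :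
    (f1 i a).ev S v = S.g1 i (a.ev S v) := rfl

theorem ev_f2 (S : Alg U) (v : ℕ → U) (i : ℕ) (a b : Tm) :
    (f2 i a b).ev S v = S.g2 i (a.ev S v) (b.ev S v) := by
  change S.fn 2 i _ = S.fn 2 i _
  congr 1
  funext j
  fin_cases j <;> rfl

theorem ev_f3 (S : Alg U) (v : ℕ → U) (i : ℕ) (a b c : Tm) :
    (f3 i a b c).ev S v = S.g3 i (a.ev S v) (b.ev S v) (c.ev S v) := by
  change S.fn 3 i _ = S.fn 3 i _
  congr 1
  funext j
  fin_cases j <;> rfl

theorem ev_f4 (S : Alg U) (v : ℕ → U) (i : ℕ) (a b c d : Tm) :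
    (f4 i a b c d).ev S v = S.g4 i (a.ev S v) (b.ev S v) (c.ev S v) (d.ev S v) := by
  change S.fn 4 i _ = S.fn 4 i _
  congr 1
  funext j
  fin_cases j <;> rfl

theorem ev_var (S : Alg U) (v : ℕ → U) (n : ℕ) : (Tm.var n).ev S v = v n := rfl

theorem holds_lt (S : Alg U) (v : ℕ → U) (a b : Tm) :
    (Cl.lt a b).holds S v ↔ S.rk (a.ev S v) < S.rk (b.ev S v) := Iff.rfl

theorem holds_le (S : Alg U) (v : ℕ → U) (a b : Tm) :
    (Cl.le a b).holds S v ↔ S.rk (a.ev S v) ≤ S.rk (b.ev S v) := Iff.rfl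

theorem holds_and (S : Alg U) (v : ℕ → U) (a b : Cl) :
    (Cl.and a b).holds S v ↔ a.holds S v ∧ b.holds S v := Iff.rfl

theorem holds_or (S : Alg U) (v : ℕ → U) (a b : Cl) :
    (Cl.or a b).holds S v ↔ a.holds S v ∨ b.holds S v := Iff.rfl

/-! ### Symbols -/

/-- variables `x_0, ..., x_3` -/
def X (n : ℕ) : Tm := .var n
def zr : Tm := c0 0
def sc (a : Tm) : Tm := f1 0 a
def evt (a b : Tm) : Tm := f2 8 a b
def apt (a b : Tm) : Tm := f2 9 a b
def lk (a b : Tm) : Tm := f2 10 a b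
def eq (a b : Tm) : Tm := f2 11 a b
def up (a b c : Tm) : Tm := f3 0 a b c

def ceq (a b : Tm) : Cl := .lt zr (eq a b)
def cne (a b : Tm) : Cl := .le (eq a b) zr
def tle (a b : Tm) : Cl := .or (.le a zr) (.and (.lt zr b) (.le b a))
def tlt (a b : Tm) : Cl := .and (.lt zr b) (.or (.le a zr) (.lt b a))
def rke (a b : Tm) : Cl := .and (.le a b) (.le b a)

namespace Alg

variable (S : Alg U)

def eqv (a b : U) : Prop := S.rk (S.g0 0) < S.rk (S.g2 11 a b)
def Tle (a b : U) : Prop :=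
  S.rk a ≤ S.rk (S.g0 0) ∨ (S.rk (S.g0 0) < S.rk b ∧ S.rk b ≤ S.rk a)
def Tlt (a b : U) : Prop :=
  S.rk (S.g0 0) < S.rk b ∧ (S.rk a ≤ S.rk (S.g0 0) ∨ S.rk b < S.rk a)

end Alg

theorem ev_zr (S : Alg U) (v : ℕ → U) : zr.ev S v = S.g0 0 := ev_c0 S v 0

theorem holds_ceq (S : Alg U) (v : ℕ → U) (a b : Tm) :
    (ceq a b).holds S v ↔ S.eqv (a.ev S v) (b.ev S v) := by
  unfold ceq Alg.eqv eq
  rw [holds_lt, ev_zr, ev_f2]

theorem holds_cne (S : Alg U) (v : ℕ → U) (a b : Tm) :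
    (cne a b).holds S v ↔ ¬ S.eqv (a.ev S v) (b.ev S v) := by
  unfold cne Alg.eqv eq
  rw [holds_le, ev_zr, ev_f2, not_lt]

theorem holds_tle (S : Alg U) (v : ℕ → U) (a b : Tm) :
    (tle a b).holds S v ↔ S.Tle (a.ev S v) (b.ev S v) := by
  unfold tle Alg.Tle
  rw [holds_or, holds_and, holds_lt, holds_le, holds_le, ev_zr]

theorem holds_tlt (S : Alg U) (v : ℕ → U) (a b : Tm) :
    (tlt a b).holds S v ↔ S.Tlt (a.ev S v) (b.ev S v) := by
  unfold tlt Alg.Tlt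
  rw [holds_and, holds_or, holds_lt, holds_lt, holds_le, ev_zr]

theorem holds_rke (S : Alg U) (v : ℕ → U) (a b : Tm) :
    (rke a b).holds S v ↔ S.rk (a.ev S v) = S.rk (b.ev S v) := by
  unfold rke
  rw [holds_and, holds_le, holds_le]
  exact le_antisymm_iff.symm

/-- successor clauses -/
def clsN : List Cl :=
  [.lt (X 0) (sc (X 0)),
   .or (.le (X 1) (X 0)) (.le (sc (X 0)) (X 1)),
   .le zr (X 0)]

/-- equality clauses -/
def clsE : List Cl :=
  [ceq (X 0) (X 0),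
   .or (cne (X 0) (X 1)) (.or (cne (X 0) (X 2)) (ceq (X 1) (X 2))),
   .or (cne (X 0) (X 1)) (.or (cne (X 2) (X 3)) (ceq (apt (X 0) (X 2)) (apt (X 1) (X 3)))),
   .or (cne (X 0) (X 1)) (rke (X 0) (X 1)),
   ceq (lk (up (X 0) (X 1) (X 2)) (X 0)) (X 1),
   .or (rke (X 0) (X 3)) (ceq (lk (up (X 0) (X 1) (X 2)) (X 3)) (lk (X 2) (X 3)))]

/-- evaluation of terms -/
def clsT : List Cl :=
  [ceq (evt (f1 1 (X 0)) (X 1)) (lk (X 1) (X 0)),
   ceq (evt (f2 0 (X 0) (X 1)) (X 2)) (apt (evt (X 0) (X 2)) (evt (X 1) (X 2))),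
   ceq (evt (f2 1 (X 0) (X 1)) (X 2)) (f2 1 (X 0) (X 1)),
   ceq (evt (f2 2 (X 0) (X 1)) (X 2)) (f2 2 (X 0) (X 1))]

def clAnd (p a b : Tm) : Cl := .and (tle p a) (.and (tle p b) (.or (tle a p) (tle b p)))
def clOr (p a b : Tm) : Cl := .and (tle a p) (.and (tle b p) (.or (tle p a) (tle p b)))
def clImp (p a b : Tm) : Cl :=
  .or (.and (tle a b) (tle (sc zr) p)) (.and (tlt b a) (.and (tle p b) (tle b p)))

/-- evaluation of propositional connectives -/
def clsP : List Cl :=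
  [.le (evt (c0 3) (X 0)) zr,
   clAnd (evt (f2 3 (X 0) (X 1)) (X 2)) (evt (X 0) (X 2)) (evt (X 1) (X 2)),
   clOr (evt (f2 4 (X 0) (X 1)) (X 2)) (evt (X 0) (X 2)) (evt (X 1) (X 2)),
   clImp (evt (f2 5 (X 0) (X 1)) (X 2)) (evt (X 0) (X 2)) (evt (X 1) (X 2))]

/-- evaluation of quantifiers: `X 0 = n`, `X 1 = y` or `z`, `X 2 = σ`, `X 3 = a` -/
def clsQ : List Cl :=
  [tle (evt (f2 6 (X 0) (X 3)) (X 2)) (evt (X 3) (up (X 0) (X 1) (X 2))),
   .or (tle (X 1) (evt (f2 6 (X 0) (X 3)) (X 2)))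
     (tlt (evt (X 3) (up (X 0) (f4 1 (X 0) (X 3) (X 2) (X 1)) (X 2))) (X 1)),
   tle (evt (X 3) (up (X 0) (X 1) (X 2))) (evt (f2 7 (X 0) (X 3)) (X 2)),
   .or (tle (evt (f2 7 (X 0) (X 3)) (X 2)) (X 1))
     (tlt (X 1) (evt (X 3) (up (X 0) (f4 2 (X 0) (X 3) (X 2) (X 1)) (X 2))))]

def clsB : List Cl := [tlt (c0 2) (sc zr)]

def cls : List Cl := clsN ++ clsE ++ clsT ++ clsP ++ clsQ ++ clsB

/-- assignment with given first four values -/
def asg (v : ℕ → U) (a b c d : U) : ℕ → U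
  | 0 => a
  | 1 => b
  | 2 => c
  | 3 => d
  | n => v n

theorem asg_eq (v : ℕ → U) (a b c d : U) : ∀ n, 4 ≤ n → asg v a b c d n = v n := by
  intro n hn
  rcases n with _ | _ | _ | _ | n
  · omega
  · omega
  · omega
  · omega
  · rfl

/-- the number clauses, semantically -/
structure ModN (S : Alg U) : Prop where
  a1 : ∀ x, S.rk x < S.rk (S.g1 0 x)
  a2 : ∀ x y, S.rk y ≤ S.rk x ∨ S.rk (S.g1 0 x) ≤ S.rk y
  a3 : ∀ x, S.rk (S.g0 0) ≤ S.rk x

structure Mod (S : Alg U) : Prop extends ModN S where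
  e1 : ∀ x, S.eqv x x
  e2 : ∀ x y z, S.eqv x y → S.eqv x z → S.eqv y z
  e3 : ∀ x y z w, S.eqv x y → S.eqv z w → S.eqv (S.g2 9 x z) (S.g2 9 y w)
  e4 : ∀ x y, S.eqv x y → S.rk x = S.rk y
  l1 : ∀ n y σ, S.eqv (S.g2 10 (S.g3 0 n y σ) n) y
  l2 : ∀ n y σ m, S.rk n = S.rk m ∨ S.eqv (S.g2 10 (S.g3 0 n y σ) m) (S.g2 10 σ m)
  t1 : ∀ n σ, S.eqv (S.g2 8 (S.g1 1 n) σ) (S.g2 10 σ n)
  t2 : ∀ x y σ, S.eqv (S.g2 8 (S.g2 0 x y) σ) (S.g2 9 (S.g2 8 x σ) (S.g2 8 y σ))
  t3 : ∀ x y σ, S.eqv (S.g2 8 (S.g2 1 x y) σ) (S.g2 1 x y)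
  t4 : ∀ x y σ, S.eqv (S.g2 8 (S.g2 2 x y) σ) (S.g2 2 x y)
  p0 : ∀ σ, S.rk (S.g2 8 (S.g0 3) σ) ≤ S.rk (S.g0 0)
  p1 : ∀ x y σ, S.Tle (S.g2 8 (S.g2 3 x y) σ) (S.g2 8 x σ) ∧
    S.Tle (S.g2 8 (S.g2 3 x y) σ) (S.g2 8 y σ) ∧
    (S.Tle (S.g2 8 x σ) (S.g2 8 (S.g2 3 x y) σ) ∨ S.Tle (S.g2 8 y σ) (S.g2 8 (S.g2 3 x y) σ))
  p2 : ∀ x y σ, S.Tle (S.g2 8 x σ) (S.g2 8 (S.g2 4 x y) σ) ∧
    S.Tle (S.g2 8 y σ) (S.g2 8 (S.g2 4 x y) σ) ∧
    (S.Tle (S.g2 8 (S.g2 4 x y) σ) (S.g2 8 x σ) ∨ S.Tle (S.g2 8 (S.g2 4 x y) σ) (S.g2 8 y σ))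
  p3 : ∀ x y σ, (S.Tle (S.g2 8 x σ) (S.g2 8 y σ) ∧
      S.Tle (S.g1 0 (S.g0 0)) (S.g2 8 (S.g2 5 x y) σ)) ∨
    (S.Tlt (S.g2 8 y σ) (S.g2 8 x σ) ∧ S.Tle (S.g2 8 (S.g2 5 x y) σ) (S.g2 8 y σ) ∧
      S.Tle (S.g2 8 y σ) (S.g2 8 (S.g2 5 x y) σ))
  q1 : ∀ n y σ a, S.Tle (S.g2 8 (S.g2 6 n a) σ) (S.g2 8 a (S.g3 0 n y σ))
  q2 : ∀ n z σ a, S.Tle z (S.g2 8 (S.g2 6 n a) σ) ∨
    S.Tlt (S.g2 8 a (S.g3 0 n (S.g4 1 n a σ z) σ)) z
  q3 : ∀ n y σ a, S.Tle (S.g2 8 a (S.g3 0 n y σ)) (S.g2 8 (S.g2 7 n a) σ)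
  q4 : ∀ n z σ a, S.Tle (S.g2 8 (S.g2 7 n a) σ) z ∨
    S.Tlt z (S.g2 8 a (S.g3 0 n (S.g4 2 n a σ z) σ))
  b1 : S.Tlt (S.g0 2) (S.g1 0 (S.g0 0))

theorem clsN_holds (S : Alg U) (v : ℕ → U) :
    (∀ v' : ℕ → U, (∀ n, 4 ≤ n → v' n = v n) → ∀ c ∈ clsN, c.holds S v') ↔ ModN S := by
  constructor
  · intro h
    have h' := fun a b c d => h (asg v a b c d) (asg_eq v a b c d)
    simp only [clsN, List.mem_cons, List.not_mem_nil, or_false, forall_eq_or_imp, forall_eq,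
      holds_lt, holds_le, holds_or, holds_and, sc, ev_f1, ev_zr, X, ev_var, asg] at h'
    exact ⟨fun x => (h' x x x x).1, fun x y => (h' x y x x).2.1, fun x => (h' x x x x).2.2⟩
  · intro h v' _
    simp only [clsN, List.mem_cons, List.not_mem_nil, or_false, forall_eq_or_imp, forall_eq,
      holds_lt, holds_le, holds_or, holds_and, sc, ev_f1, ev_zr, X, ev_var]
    exact ⟨h.a1 _, h.a2 _ _, h.a3 _⟩

theorem cls_holds (S : Alg U) (v : ℕ → U) :
    (∀ v' : ℕ → U, (∀ n, 4 ≤ n → v' n = v n) → ∀ c ∈ cls, c.holds S v') ↔ Mod S := by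
  constructor
  · intro h
    have h0 : ModN S := (clsN_holds S v).1 fun v' hv' c hc => h v' hv' c (by simp [cls, hc])
    have hE := fun a b c d (x : Cl) (hx : x ∈ clsE) =>
      h (asg v a b c d) (asg_eq v a b c d) x (by simp [cls, hx])
    have hT := fun a b c d (x : Cl) (hx : x ∈ clsT) =>
      h (asg v a b c d) (asg_eq v a b c d) x (by simp [cls, hx])
    have hP := fun a b c d (x : Cl) (hx : x ∈ clsP) =>
      h (asg v a b c d) (asg_eq v a b c d) x (by simp [cls, hx])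
    have hQ := fun a b c d (x : Cl) (hx : x ∈ clsQ) =>
      h (asg v a b c d) (asg_eq v a b c d) x (by simp [cls, hx])
    have hB := fun (x : Cl) (hx : x ∈ clsB) => h v (fun _ _ => rfl) x (by simp [cls, hx])
    simp only [clsE, List.mem_cons, List.not_mem_nil, or_false, forall_eq_or_imp, forall_eq,
      holds_lt, holds_le, holds_or, holds_and, holds_ceq, holds_cne, holds_rke, sc, evt, apt, lk,
      up, ev_f1, ev_f2, ev_f3, ev_zr, X, ev_var, asg] at hE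
    simp only [clsT, List.mem_cons, List.not_mem_nil, or_false, forall_eq_or_imp, forall_eq,
      holds_lt, holds_le, holds_or, holds_and, holds_ceq, holds_cne, holds_rke, sc, evt, apt, lk,
      up, ev_f1, ev_f2, ev_f3, ev_zr, X, ev_var, asg] at hT
    simp only [clsP, clAnd, clOr, clImp, List.mem_cons, List.not_mem_nil, or_false,
      forall_eq_or_imp, forall_eq,
      holds_lt, holds_le, holds_or, holds_and, holds_tle, holds_tlt, sc, evt, apt, lk,
      up, ev_c0, ev_f1, ev_f2, ev_f3, ev_zr, X, ev_var, asg] at hP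
    simp only [clsQ, List.mem_cons, List.not_mem_nil, or_false, forall_eq_or_imp, forall_eq,
      holds_lt, holds_le, holds_or, holds_and, holds_tle, holds_tlt, sc, evt, apt, lk,
      up, ev_c0, ev_f1, ev_f2, ev_f3, ev_f4, ev_zr, X, ev_var, asg] at hQ
    simp only [clsB, List.mem_cons, List.not_mem_nil, or_false, forall_eq_or_imp, forall_eq,
      holds_tlt, sc, ev_c0, ev_f1, ev_zr] at hB
    exact
      { toModN := h0
        e1 := fun x => (hE x x x x).1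
        e2 := fun x y z h1 h2 => by
          rcases (hE x y z z).2.1 with h | h | h
          · exact absurd h1 h
          · exact absurd h2 h
          · exact h
        e3 := fun x y z w h1 h2 => by
          rcases (hE x y z w).2.2.1 with h | h | h
          · exact absurd h1 h
          · exact absurd h2 h
          · exact h
        e4 := fun x y h1 => by
          rcases (hE x y x x).2.2.2.1 with h | h
          · exact absurd h1 h
          · exact h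
        l1 := fun n y σ => (hE n y σ σ).2.2.2.2.1
        l2 := fun n y σ m => (hE n y σ m).2.2.2.2.2
        t1 := fun n σ => (hT n σ σ σ).1
        t2 := fun x y σ => (hT x y σ σ).2.1
        t3 := fun x y σ => (hT x y σ σ).2.2.1
        t4 := fun x y σ => (hT x y σ σ).2.2.2
        p0 := fun σ => (hP σ σ σ σ).1
        p1 := fun x y σ => (hP x y σ σ).2.1
        p2 := fun x y σ => (hP x y σ σ).2.2.1
        p3 := fun x y σ => (hP x y σ σ).2.2.2
        q1 := fun n y σ a => (hQ n y σ a).1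
        q2 := fun n y σ a => (hQ n y σ a).2.1
        q3 := fun n y σ a => (hQ n y σ a).2.2.1
        q4 := fun n y σ a => (hQ n y σ a).2.2.2
        b1 := hB }
  · intro h v' hv'
    have h0 := (clsN_holds S v).2 h.toModN v' hv'
    have hE : ∀ c ∈ clsE, c.holds S v' := by
      simp only [clsE, List.mem_cons, List.not_mem_nil, or_false, forall_eq_or_imp, forall_eq,
        holds_lt, holds_le, holds_or, holds_and, holds_ceq, holds_cne, holds_rke, sc, evt, apt, lk,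
        up, ev_f1, ev_f2, ev_f3, ev_zr, X, ev_var]
      refine ⟨h.e1 _, ?_, ?_, ?_, h.l1 _ _ _, h.l2 _ _ _ _⟩
      · have := h.e2 (v' 0) (v' 1) (v' 2)
        tauto
      · have := h.e3 (v' 0) (v' 1) (v' 2) (v' 3)
        tauto
      · have := h.e4 (v' 0) (v' 1)
        tauto
    have hT : ∀ c ∈ clsT, c.holds S v' := by
      simp only [clsT, List.mem_cons, List.not_mem_nil, or_false, forall_eq_or_imp, forall_eq,
        holds_lt, holds_le, holds_or, holds_and, holds_ceq, holds_cne, holds_rke, sc, evt, apt, lk,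
        up, ev_f1, ev_f2, ev_f3, ev_zr, X, ev_var]
      exact ⟨h.t1 _ _, h.t2 _ _ _, h.t3 _ _ _, h.t4 _ _ _⟩
    have hP : ∀ c ∈ clsP, c.holds S v' := by
      simp only [clsP, clAnd, clOr, clImp, List.mem_cons, List.not_mem_nil, or_false,
        forall_eq_or_imp, forall_eq,
        holds_lt, holds_le, holds_or, holds_and, holds_tle, holds_tlt, sc, evt, apt, lk,
        up, ev_c0, ev_f1, ev_f2, ev_f3, ev_zr, X, ev_var]
      exact ⟨h.p0 _, h.p1 _ _ _, h.p2 _ _ _, h.p3 _ _ _⟩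
    have hQ : ∀ c ∈ clsQ, c.holds S v' := by
      simp only [clsQ, List.mem_cons, List.not_mem_nil, or_false, forall_eq_or_imp, forall_eq,
        holds_lt, holds_le, holds_or, holds_and, holds_tle, holds_tlt, sc, evt, apt, lk,
        up, ev_c0, ev_f1, ev_f2, ev_f3, ev_f4, ev_zr, X, ev_var]
      exact ⟨h.q1 _ _ _ _, h.q2 _ _ _ _, h.q3 _ _ _ _, h.q4 _ _ _ _⟩
    have hB : ∀ c ∈ clsB, c.holds S v' := by
      simp only [clsB, List.mem_cons, List.not_mem_nil, or_false, forall_eq_or_imp, forall_eq,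
        holds_tlt, sc, ev_c0, ev_f1, ev_zr]
      exact h.b1
    intro c hc
    simp only [cls, List.mem_append] at hc
    rcases hc with ((((hc | hc) | hc) | hc) | hc) | hc
    · exact h0 c hc
    · exact hE c hc
    · exact hT c hc
    · exact hP c hc
    · exact hQ c hc
    · exact hB c hc

/-! ### Ranks are numerals -/

/-- the `n`-th numeral in an algebra -/
def nmU (S : Alg U) : ℕ → U
  | 0 => S.g0 0
  | n + 1 => S.g1 0 (nmU S n)

variable {S : Alg U}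

theorem nm_strictMono (h : ModN S) : StrictMono fun n => S.rk (nmU S n) :=
  strictMono_nat_of_lt_succ fun n => h.a1 (nmU S n)

theorem exists_nm (h : ModN S) (u : U) : ∃ n, S.rk u = S.rk (nmU S n) := by
  classical
  have hex : ∃ m, S.rk u < S.rk (nmU S m) :=
    ⟨S.rk u + 1, lt_of_lt_of_le (Nat.lt_succ_self _) ((nm_strictMono h).id_le _)⟩
  have hs := Nat.find_spec hex
  have hm := @Nat.find_min _ _ hex
  generalize Nat.find hex = m at hs hm
  rcases m with _ | n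
  · exact absurd hs (not_lt.2 (h.a3 u))
  · refine ⟨n, ?_⟩
    have h1 := hm (Nat.lt_succ_self n)
    rcases h.a2 (nmU S n) u with h2 | h2
    · omega
    · change S.rk (nmU S (n + 1)) ≤ S.rk u at h2
      omega

/-- the number of an element -/
noncomputable def NN (S : Alg U) (u : U) : ℕ := by
  classical
  exact if h : ∃ n, S.rk u = S.rk (nmU S n) then h.choose else 0

theorem rk_eq (h : ModN S) (u : U) : S.rk u = S.rk (nmU S (NN S u)) := by
  classical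
  unfold NN
  rw [dif_pos (exists_nm h u)]
  exact (exists_nm h u).choose_spec

theorem NN_nm (h : ModN S) (n : ℕ) : NN S (nmU S n) = n :=
  (nm_strictMono h).injective (rk_eq h (nmU S n)).symm

theorem lt_iff (h : ModN S) (u w : U) : S.rk u < S.rk w ↔ NN S u < NN S w := by
  rw [rk_eq h u, rk_eq h w]
  exact (nm_strictMono h).lt_iff_lt

theorem le_iff (h : ModN S) (u w : U) : S.rk u ≤ S.rk w ↔ NN S u ≤ NN S w := by
  rw [rk_eq h u, rk_eq h w]
  exact (nm_strictMono h).le_iff_le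

theorem NN_zero (h : ModN S) : NN S (S.g0 0) = 0 := NN_nm h 0

theorem NN_succ (h : ModN S) (u : U) : NN S (S.g1 0 u) = NN S u + 1 := by
  apply le_antisymm
  · have h1 : S.rk (S.g1 0 u) ≤ S.rk (nmU S (NN S u + 1)) := by
      rcases h.a2 u (nmU S (NN S u + 1)) with h2 | h2
      · exfalso
        rw [rk_eq h u] at h2
        exact absurd h2 (not_le.2 (nm_strictMono h (Nat.lt_succ_self _)))
      · exact h2
    rw [le_iff h, NN_nm h] at h1
    exact h1
  · have := h.a1 u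
    rw [lt_iff h] at this
    exact this

theorem Tle_iff (h : ModN S) (u w : U) : S.Tle u w ↔ tv (NN S u) ≤ tv (NN S w) := by
  unfold Alg.Tle
  rw [le_iff h, lt_iff h, le_iff h, NN_zero h, tv_le]
  omega

theorem Tlt_iff (h : ModN S) (u w : U) : S.Tlt u w ↔ tv (NN S u) < tv (NN S w) := by
  unfold Alg.Tlt
  rw [le_iff h, lt_iff h, lt_iff h, NN_zero h, tv_lt]
  omega

end Pool.Agent.R626.GL
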