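import Pool.Agent.R626.GLC

/-! Translation of formulas to terms, and extraction of a countermodel. -/

namespace Pool.Agent.R626.GL

open Set

/-- numerals -/
def nm : ℕ → Tm
  | 0 => zr
  | n + 1 => sc (nm n)

/-- the term describing a term -/
def Tm.tr : Tm → Tm
  | .var n => f1 1 (nm n)
  | .fn k i ts => (List.ofFn fun j => (ts j).tr).foldl (f2 0) (f2 1 (nm k) (nm i))

/-- the term describing a formula -/
def Fm.tr : Fm → Tm
  | .bot => c0 3
  | .rel k i ts => (List.ofFn fun j => (ts j).tr).foldl (f2 0) (f2 2 (nm k) (nm i))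
  | .and A B => f2 3 A.tr B.tr
  | .or A B => f2 4 A.tr B.tr
  | .imp A B => f2 5 A.tr B.tr
  | .all n A => f2 6 (nm n) A.tr
  | .ex n A => f2 7 (nm n) A.tr

/-- the clause saying that the value of the formula is the value of `B` -/
def lastc (A : Fm) : Cl := ceq (evt A.tr (c0 1)) (c0 2)

variable {U : Type} {S : Alg U}

theorem ev_nm (S : Alg U) (v : ℕ → U) (n : ℕ) : (nm n).ev S v = nmU S n := by
  induction n with
  | zero => exact ev_zr S v
  | succ n ih =>
    change (f1 0 (nm n)).ev S v = S.g1 0 (nmU S n)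
    rw [ev_f1, ih]

theorem Mod.symm (h : Mod S) {x y : U} (h1 : S.eqv x y) : S.eqv y x := h.e2 x y x h1 (h.e1 x)

theorem Mod.trans (h : Mod S) {x y z : U} (h1 : S.eqv x y) (h2 : S.eqv y z) : S.eqv x z :=
  h.e2 y x z (h.symm h1) h2

theorem fold_eqv (h : Mod S) (v : ℕ → U) (σ : U) (k : ℕ) :
    ∀ (ts : Fin k → Tm) (us : Fin k → U) (ht : Tm) (h' : U),
      (∀ j, S.eqv (S.g2 8 ((ts j).ev S v) σ) (us j)) → S.eqv (S.g2 8 (ht.ev S v) σ) h' →
      S.eqv (S.g2 8 (((List.ofFn ts).foldl (f2 0) ht).ev S v) σ)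
        ((List.ofFn us).foldl (S.g2 9) h') := by
  induction k with
  | zero =>
    intro ts us ht h' _ h2
    simpa using h2
  | succ k ih =>
    intro ts us ht h' h1 h2
    rw [List.ofFn_succ, List.ofFn_succ, List.foldl_cons, List.foldl_cons]
    apply ih
    · intro j
      exact h1 j.succ
    · rw [ev_f2]
      exact h.trans (h.t2 _ _ _) (h.e3 _ _ _ _ h2 (h1 0))

/-- the extracted interpretation -/
noncomputable def exM (S : Alg U) : Interp U where
  fn k i us := (List.ofFn us).foldl (S.g2 9) (S.g2 1 (nmU S k) (nmU S i))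
  rel k i us := tv (NN S ((List.ofFn us).foldl (S.g2 9) (S.g2 2 (nmU S k) (nmU S i))))

theorem tr_term (h : Mod S) (v : ℕ → U) (t : Tm) (σ : U) (s : ℕ → U)
    (hs : ∀ n, S.eqv (S.g2 10 σ (nmU S n)) (s n)) :
    S.eqv (S.g2 8 (t.tr.ev S v) σ) (t.val (exM S) s) := by
  induction t with
  | var n =>
    change S.eqv (S.g2 8 ((f1 1 (nm n)).ev S v) σ) (s n)
    rw [ev_f1, ev_nm]
    exact h.trans (h.t1 _ _) (hs n)
  | fn k i ts ih =>
    change S.eqv (S.g2 8 (((List.ofFn fun j => (ts j).tr).foldl (f2 0)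
      (f2 1 (nm k) (nm i))).ev S v) σ) ((List.ofFn fun j => (ts j).val (exM S) s).foldl (S.g2 9)
        (S.g2 1 (nmU S k) (nmU S i)))
    apply fold_eqv h
    · exact ih
    · rw [ev_f2, ev_nm, ev_nm]
      exact h.t3 _ _ _

theorem NN_congr (h : Mod S) {x y : U} (h1 : S.eqv x y) : NN S x = NN S y := by
  have h2 := h.e4 x y h1
  apply le_antisymm
  · exact (le_iff h.toModN x y).1 h2.le
  · exact (le_iff h.toModN y x).1 h2.ge

theorem tr_fm (h : Mod S) (v : ℕ → U) (A : Fm) : ∀ (σ : U) (s : ℕ → U),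
    (∀ n, S.eqv (S.g2 10 σ (nmU S n)) (s n)) →
    tv (NN S (S.g2 8 (A.tr.ev S v) σ)) = A.val (exM S) s := by
  have hN := h.toModN
  have hne : Nonempty U := ⟨v 0⟩
  have hupd : ∀ (σ : U) (s : ℕ → U) (n : ℕ) (y : U),
      (∀ n, S.eqv (S.g2 10 σ (nmU S n)) (s n)) →
      ∀ m, S.eqv (S.g2 10 (S.g3 0 (nmU S n) y σ) (nmU S m)) (Function.update s n y m) := by
    intro σ s n y hs m
    by_cases hm : m = n
    · subst hm
      rw [Function.update_self]
      exact h.l1 _ _ _
    · rw [Function.update_of_ne hm]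
      rcases h.l2 (nmU S n) y σ (nmU S m) with h1 | h1
      · exact absurd ((nm_strictMono hN).injective h1).symm hm
      · exact h.trans h1 (hs m)
  induction A with
  | bot =>
    intro σ s _
    change tv (NN S (S.g2 8 ((c0 3).ev S v) σ)) = 0
    rw [ev_c0]
    have := h.p0 σ
    rw [le_iff hN, NN_zero hN] at this
    rw [Nat.le_zero.1 this, tv_zero]
  | rel k i ts =>
    intro σ s hs
    change tv (NN S (S.g2 8 (((List.ofFn fun j => (ts j).tr).foldl (f2 0)
      (f2 2 (nm k) (nm i))).ev S v) σ)) =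
      tv (NN S ((List.ofFn fun j => (ts j).val (exM S) s).foldl (S.g2 9)
        (S.g2 2 (nmU S k) (nmU S i))))
    congr 1
    apply NN_congr h
    apply fold_eqv h
    · intro j
      exact tr_term h v (ts j) σ s hs
    · rw [ev_f2, ev_nm, ev_nm]
      exact h.t4 _ _ _
  | and A B hA hB =>
    intro σ s hs
    change tv (NN S (S.g2 8 ((f2 3 A.tr B.tr).ev S v) σ)) = min (A.val _ s) (B.val _ s)
    rw [ev_f2, ← hA σ s hs, ← hB σ s hs]
    have h1 := h.p1 (A.tr.ev S v) (B.tr.ev S v) σ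
    rw [Tle_iff hN, Tle_iff hN, Tle_iff hN, Tle_iff hN] at h1
    obtain ⟨h2, h3, h4⟩ := h1
    apply le_antisymm (le_min h2 h3)
    rcases h4 with h4 | h4
    · exact (min_le_left _ _).trans h4
    · exact (min_le_right _ _).trans h4
  | or A B hA hB =>
    intro σ s hs
    change tv (NN S (S.g2 8 ((f2 4 A.tr B.tr).ev S v) σ)) = max (A.val _ s) (B.val _ s)
    rw [ev_f2, ← hA σ s hs, ← hB σ s hs]
    have h1 := h.p2 (A.tr.ev S v) (B.tr.ev S v) σ
    rw [Tle_iff hN, Tle_iff hN, Tle_iff hN, Tle_iff hN] at h1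
    obtain ⟨h2, h3, h4⟩ := h1
    apply le_antisymm _ (max_le h2 h3)
    rcases h4 with h4 | h4
    · exact h4.trans (le_max_left _ _)
    · exact h4.trans (le_max_right _ _)
  | imp A B hA hB =>
    intro σ s hs
    change tv (NN S (S.g2 8 ((f2 5 A.tr B.tr).ev S v) σ)) =
      if A.val _ s ≤ B.val _ s then 1 else B.val _ s
    rw [ev_f2, ← hA σ s hs, ← hB σ s hs]
    have h1 := h.p3 (A.tr.ev S v) (B.tr.ev S v) σ
    rw [Tle_iff hN, Tle_iff hN, Tle_iff hN, Tle_iff hN, Tlt_iff hN, NN_succ hN, NN_zero hN] at h1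
    rcases h1 with ⟨h2, h3⟩ | ⟨h2, h3, h4⟩
    · rw [if_pos h2]
      apply le_antisymm unitInterval.le_one'
      rw [← tv_one]
      exact h3
    · rw [if_neg (not_le.2 h2)]
      exact le_antisymm h3 h4
  | all n A hA =>
    intro σ s hs
    change tv (NN S (S.g2 8 ((f2 6 (nm n) A.tr).ev S v) σ)) =
      ⨅ x : U, A.val (exM S) (Function.update s n x)
    rw [ev_f2, ev_nm]
    have e : ∀ x : U, A.val (exM S) (Function.update s n x) =
        tv (NN S (S.g2 8 (A.tr.ev S v) (S.g3 0 (nmU S n) x σ))) := fun x =>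
      (hA _ _ (hupd σ s n x hs)).symm
    simp only [e]
    apply le_antisymm
    · exact le_iInf fun x => (Tle_iff hN _ _).1 (h.q1 _ _ _ _)
    · have h1 : (⨅ x : U, tv (NN S (S.g2 8 (A.tr.ev S v) (S.g3 0 (nmU S n) x σ)))) ∈ Vdown :=
        iInf_mem fun x => tv_mem _
      obtain ⟨j, hj⟩ := mem_Vdown.1 h1
      rw [← hj]
      rcases h.q2 (nmU S n) (nmU S j) σ (A.tr.ev S v) with h2 | h2
      · rw [Tle_iff hN, NN_nm hN] at h2
        exact h2
      · rw [Tlt_iff hN, NN_nm hN, hj] at h2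
        exact absurd (iInf_le (fun x : U => tv (NN S (S.g2 8 (A.tr.ev S v)
          (S.g3 0 (nmU S n) x σ)))) _) (not_le.2 h2)
  | ex n A hA =>
    intro σ s hs
    change tv (NN S (S.g2 8 ((f2 7 (nm n) A.tr).ev S v) σ)) =
      ⨆ x : U, A.val (exM S) (Function.update s n x)
    rw [ev_f2, ev_nm]
    have e : ∀ x : U, A.val (exM S) (Function.update s n x) =
        tv (NN S (S.g2 8 (A.tr.ev S v) (S.g3 0 (nmU S n) x σ))) := fun x =>
      (hA _ _ (hupd σ s n x hs)).symm
    simp only [e]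
    apply le_antisymm
    · obtain ⟨w, hw⟩ := iSup_attained (f := fun x : U => tv (NN S (S.g2 8 (A.tr.ev S v)
          (S.g3 0 (nmU S n) x σ)))) fun x => tv_mem _
      rw [hw]
      let j := NN S (S.g2 8 (A.tr.ev S v) (S.g3 0 (nmU S n) w σ))
      change _ ≤ tv j
      rcases h.q4 (nmU S n) (nmU S j) σ (A.tr.ev S v) with h2 | h2
      · rw [Tle_iff hN, NN_nm hN] at h2
        exact h2
      · rw [Tlt_iff hN, NN_nm hN] at h2
        refine absurd ?_ (not_le.2 h2)
        change _ ≤ tv (NN S (S.g2 8 (A.tr.ev S v) (S.g3 0 (nmU S n) w σ)))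
        rw [← hw]
        exact le_iSup (fun x : U => tv (NN S (S.g2 8 (A.tr.ev S v)
          (S.g3 0 (nmU S n) x σ)))) _
    · exact iSup_le fun x => (Tle_iff hN _ _).1 (h.q3 _ _ _ _)

/-- a model of the clauses gives a countermodel -/
theorem not_valid_of_mod (h : Mod S) (v : ℕ → U) (A : Fm) (hl : (lastc A).holds S v) :
    ¬ Valid Vdown A := by
  intro hval
  have h1 := hval U (exM S) (fun k i a => tv_mem _) fun n => S.g2 10 (S.g0 1) (nmU S n)
  have h2 := tr_fm h v A (S.g0 1) (fun n => S.g2 10 (S.g0 1) (nmU S n)) fun n => h.e1 _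
  unfold lastc at hl
  rw [holds_ceq, evt, ev_f2, ev_c0, ev_c0] at hl
  rw [NN_congr h hl, h1] at h2
  have h3 := h.b1
  rw [Tlt_iff h.toModN, NN_succ h.toModN, NN_zero h.toModN, h2, zero_add, tv_one] at h3
  exact lt_irrefl _ h3

end Pool.Agent.R626.GL
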