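import Pool.Agent.R626.GLD

/-! From a countermodel to a model of the clauses. -/

namespace Pool.Agent.R626.GL

open Set

/-- closed terms over the domain `D` -/
inductive T (D : Type) : Type
  | leaf (d : D) : T D
  | nul (i : ℕ) : T D
  | un (i : ℕ) (x : T D) : T D
  | bi (i : ℕ) (x y : T D) : T D
  | tri (x y z : T D) : T D

section

variable {D : Type}

/-- numerals -/
def numT : ℕ → T D
  | 0 => .nul 0
  | n + 1 => .un 0 (numT n)

variable (M : Interp D) (v : ℕ → D)

/-- denotation and rank of an element, applied to a list of arguments -/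
noncomputable def den : T D → List D → D × ℕ
  | .leaf d, _ => (d, 0)
  | .nul _, _ => (v 0, 0)
  | .un i x, _ => (v 0, if i = 0 then (den x []).2 + 1 else 0)
  | .bi i x y, l =>
    if i = 9 then den x ((den y []).1 :: l)
    else if i = 1 then
      (M.fn (den x []).2 (den y []).2 fun j => l.getD j (v 0), 0)
    else if i = 2 then
      (v 0, tc (M.rel (den x []).2 (den y []).2 fun j => l.getD j (v 0)))
    else (v 0, 0)
  | .tri _ _ _, _ => (v 0, 0)

noncomputable def dn (x : T D) : D := (den M v x []).1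
noncomputable def rkT (x : T D) : ℕ := (den M v x []).2

noncomputable def look : T D → T D → T D
  | .leaf _, m => .leaf (v (rkT M v m))
  | .nul _, m => .leaf (v (rkT M v m))
  | .un _ _, m => .leaf (v (rkT M v m))
  | .bi _ _ _, m => .leaf (v (rkT M v m))
  | .tri n y σ, m => if rkT M v n = rkT M v m then y else look σ m

noncomputable def evT : T D → T D → T D
  | .leaf d, _ => .leaf d
  | .nul _, _ => .nul 0
  | .un i n, σ => if i = 1 then look M v σ n else .nul 0
  | .bi i x y, σ =>
    if i = 0 then .bi 9 (evT x σ) (evT y σ)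
    else if i = 1 then .bi 1 x y
    else if i = 2 then .bi 2 x y
    else if i = 3 then numT (tc (min (tv (rkT M v (evT x σ))) (tv (rkT M v (evT y σ)))))
    else if i = 4 then numT (tc (max (tv (rkT M v (evT x σ))) (tv (rkT M v (evT y σ)))))
    else if i = 5 then numT (tc (if tv (rkT M v (evT x σ)) ≤ tv (rkT M v (evT y σ)) then 1
      else tv (rkT M v (evT y σ))))
    else if i = 6 then numT (tc (⨅ z : T D, tv (rkT M v (evT y (.tri x z σ)))))
    else if i = 7 then numT (tc (⨆ z : T D, tv (rkT M v (evT y (.tri x z σ)))))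
    else .nul 0
  | .tri _ _ _, _ => .nul 0

noncomputable def W1 (n a σ z : T D) : T D := by
  classical
  exact if h : ∃ w, tv (rkT M v (evT M v a (.tri n w σ))) < tv (rkT M v z) then h.choose
    else .nul 0

noncomputable def W2 (n a σ z : T D) : T D := by
  classical
  exact if h : ∃ w, tv (rkT M v z) < tv (rkT M v (evT M v a (.tri n w σ))) then h.choose
    else .nul 0

noncomputable def eqT (x y : T D) : T D := by
  classical
  exact if x = y then .un 0 (.nul 0) else .nul 0

noncomputable def fnT (B : T D) : ∀ k : ℕ, ℕ → (Fin k → T D) → T D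
  | 0, i, _ => if i = 2 then B else .nul i
  | 1, i, a => .un i (a 0)
  | 2, i, a => if i = 8 then evT M v (a 0) (a 1) else if i = 10 then look M v (a 0) (a 1)
      else if i = 11 then eqT (a 0) (a 1) else .bi i (a 0) (a 1)
  | 3, _, a => .tri (a 0) (a 1) (a 2)
  | 4, i, a => if i = 1 then W1 M v (a 0) (a 1) (a 2) (a 3) else W2 M v (a 0) (a 1) (a 2) (a 3)
  | _ + 5, _, _ => .nul 0

/-- the algebra of terms -/
noncomputable def SA (B : T D) : Alg (T D) := ⟨fnT M v B, rkT M v⟩

variable {M v}

theorem rk_nul (i : ℕ) : rkT M v (.nul i) = 0 := rfl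

theorem rk_succ (x : T D) : rkT M v (.un 0 x) = rkT M v x + 1 := rfl

theorem rk_num (n : ℕ) : rkT M v (numT n) = n := by
  induction n with
  | zero => rfl
  | succ n ih =>
    change rkT M v (.un 0 (numT n)) = n + 1
    rw [rk_succ, ih]

theorem SA_rk (B x : T D) : (SA M v B).rk x = rkT M v x := rfl

theorem SA_g0 (B : T D) {i : ℕ} (hi : i ≠ 2) : (SA M v B).g0 i = .nul i := by
  change (if i = 2 then B else .nul i) = _
  rw [if_neg hi]

theorem SA_g0_2 (B : T D) : (SA M v B).g0 2 = B := by
  change (if 2 = 2 then B else .nul 2) = _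
  rw [if_pos rfl]

theorem SA_g1 (B : T D) (i : ℕ) (x : T D) : (SA M v B).g1 i x = .un i x := rfl

theorem SA_g2_8 (B x y : T D) : (SA M v B).g2 8 x y = evT M v x y := rfl
theorem SA_g2_10 (B x y : T D) : (SA M v B).g2 10 x y = look M v x y := rfl
theorem SA_g2_11 (B x y : T D) : (SA M v B).g2 11 x y = eqT x y := rfl
theorem SA_g2 (B : T D) {i : ℕ} (h8 : i ≠ 8) (h10 : i ≠ 10) (h11 : i ≠ 11) (x y : T D) :
    (SA M v B).g2 i x y = .bi i x y := by
  change (if i = 8 then evT M v x y else if i = 10 then look M v x y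
      else if i = 11 then eqT x y else .bi i x y) = _
  rw [if_neg h8, if_neg h10, if_neg h11]
theorem SA_g3 (B : T D) (i : ℕ) (x y z : T D) : (SA M v B).g3 i x y z = .tri x y z := rfl
theorem SA_g4_1 (B x y z w : T D) : (SA M v B).g4 1 x y z w = W1 M v x y z w := rfl
theorem SA_g4_2 (B x y z w : T D) : (SA M v B).g4 2 x y z w = W2 M v x y z w := rfl

theorem SA_eqv (B x y : T D) : (SA M v B).eqv x y ↔ x = y := by
  classical
  unfold Alg.eqv
  rw [SA_g0 B (by decide), SA_g2_11, SA_rk, SA_rk, rk_nul]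
  unfold eqT
  split_ifs with h
  · simp only [h, iff_true]
    rw [rk_succ]
    omega
  · simp only [h, iff_false]
    rw [rk_nul]
    omega

theorem SA_Tle (B x y : T D) :
    (SA M v B).Tle x y ↔ tv (rkT M v x) ≤ tv (rkT M v y) := by
  unfold Alg.Tle
  rw [SA_g0 B (by decide), SA_rk, SA_rk, SA_rk, rk_nul, tv_le]
  omega

theorem SA_Tlt (B x y : T D) :
    (SA M v B).Tlt x y ↔ tv (rkT M v x) < tv (rkT M v y) := by
  unfold Alg.Tlt
  rw [SA_g0 B (by decide), SA_rk, SA_rk, SA_rk, rk_nul, tv_lt]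
  omega

theorem look_tri (n y σ m : T D) :
    look M v (.tri n y σ) m = if rkT M v n = rkT M v m then y else look M v σ m := rfl

theorem ev_and (x y σ : T D) : evT M v (.bi 3 x y) σ =
    numT (tc (min (tv (rkT M v (evT M v x σ))) (tv (rkT M v (evT M v y σ))))) := rfl
theorem ev_or (x y σ : T D) : evT M v (.bi 4 x y) σ =
    numT (tc (max (tv (rkT M v (evT M v x σ))) (tv (rkT M v (evT M v y σ))))) := rfl
theorem ev_imp (x y σ : T D) : evT M v (.bi 5 x y) σ =
    numT (tc (if tv (rkT M v (evT M v x σ)) ≤ tv (rkT M v (evT M v y σ)) then 1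
      else tv (rkT M v (evT M v y σ)))) := rfl
theorem ev_all (x y σ : T D) : evT M v (.bi 6 x y) σ =
    numT (tc (⨅ z : T D, tv (rkT M v (evT M v y (.tri x z σ))))) := rfl
theorem ev_ex (x y σ : T D) : evT M v (.bi 7 x y) σ =
    numT (tc (⨆ z : T D, tv (rkT M v (evT M v y (.tri x z σ))))) := rfl

theorem tv_num_tc {x : unitInterval} (h : x ∈ Vdown) :
    tv (rkT M v (numT (tc x))) = x := by
  rw [rk_num, tv_tc h]

theorem min_mem {x y : unitInterval} (hx : x ∈ Vdown) (hy : y ∈ Vdown) : min x y ∈ Vdown := by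
  rcases min_choice x y with h | h <;> rw [h]
  · exact hx
  · exact hy

theorem max_mem {x y : unitInterval} (hx : x ∈ Vdown) (hy : y ∈ Vdown) : max x y ∈ Vdown := by
  rcases max_choice x y with h | h <;> rw [h]
  · exact hx
  · exact hy

theorem one_mem : (1 : unitInterval) ∈ Vdown := by rw [← tv_one]; exact tv_mem 1
theorem zero_mem : (0 : unitInterval) ∈ Vdown := by rw [← tv_zero]; exact tv_mem 0

theorem imp_mem {x y : unitInterval} (hy : y ∈ Vdown) :
    (if x ≤ y then 1 else y) ∈ Vdown := by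
  split_ifs
  · exact one_mem
  · exact hy

theorem iSup_mem {ι : Type} [Nonempty ι] {f : ι → unitInterval} (hf : ∀ i, f i ∈ Vdown) :
    (⨆ i, f i) ∈ Vdown := by
  obtain ⟨i, hi⟩ := iSup_attained hf
  rw [hi]
  exact hf i

instance : Nonempty (T D) := ⟨.nul 0⟩

theorem tv_and (x y σ : T D) : tv (rkT M v (evT M v (.bi 3 x y) σ)) =
    min (tv (rkT M v (evT M v x σ))) (tv (rkT M v (evT M v y σ))) := by
  rw [ev_and, tv_num_tc (min_mem (tv_mem _) (tv_mem _))]
theorem tv_or (x y σ : T D) : tv (rkT M v (evT M v (.bi 4 x y) σ)) =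
    max (tv (rkT M v (evT M v x σ))) (tv (rkT M v (evT M v y σ))) := by
  rw [ev_or, tv_num_tc (max_mem (tv_mem _) (tv_mem _))]
theorem tv_imp (x y σ : T D) : tv (rkT M v (evT M v (.bi 5 x y) σ)) =
    if tv (rkT M v (evT M v x σ)) ≤ tv (rkT M v (evT M v y σ)) then 1
      else tv (rkT M v (evT M v y σ)) := by
  rw [ev_imp, tv_num_tc (imp_mem (tv_mem _))]
theorem tv_all (x y σ : T D) : tv (rkT M v (evT M v (.bi 6 x y) σ)) =
    ⨅ z : T D, tv (rkT M v (evT M v y (.tri x z σ))) := by
  rw [ev_all, tv_num_tc (iInf_mem fun _ => tv_mem _)]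
theorem tv_ex (x y σ : T D) : tv (rkT M v (evT M v (.bi 7 x y) σ)) =
    ⨆ z : T D, tv (rkT M v (evT M v y (.tri x z σ))) := by
  rw [ev_ex, tv_num_tc (iSup_mem fun _ => tv_mem _)]

/-- the algebra satisfies the clauses -/
theorem SA_mod (B : T D) (hB : tv (rkT M v B) < 1) : Mod (SA M v B) where
  a1 x := by
    rw [SA_rk, SA_rk, SA_g1, rk_succ]
    omega
  a2 x y := by
    rw [SA_rk, SA_rk, SA_rk, SA_g1, rk_succ]
    omega
  a3 x := by
    rw [SA_rk, SA_rk, SA_g0 B (by decide), rk_nul]
    omega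
  e1 x := by rw [SA_eqv]
  e2 x y z := by
    rw [SA_eqv, SA_eqv, SA_eqv]
    rintro rfl h
    exact h
  e3 x y z w := by
    rw [SA_eqv, SA_eqv, SA_eqv]
    rintro rfl rfl
    rfl
  e4 x y := by
    rw [SA_eqv]
    rintro rfl
    rfl
  l1 n y σ := by
    rw [SA_eqv, SA_g2_10, SA_g3, look_tri, if_pos rfl]
  l2 n y σ m := by
    rw [SA_eqv, SA_g2_10, SA_g2_10, SA_g3, look_tri, SA_rk, SA_rk]
    by_cases h : rkT M v n = rkT M v m
    · exact Or.inl h
    · rw [if_neg h]
      exact Or.inr rfl
  t1 n σ := by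
    rw [SA_eqv, SA_g2_10, SA_g2_8, SA_g1]
    rfl
  t2 x y σ := by
    rw [SA_eqv, SA_g2_8, SA_g2_8, SA_g2_8, SA_g2 B (by decide) (by decide) (by decide),
      SA_g2 B (by decide) (by decide) (by decide)]
    rfl
  t3 x y σ := by
    rw [SA_eqv, SA_g2_8, SA_g2 B (by decide) (by decide) (by decide)]
    rfl
  t4 x y σ := by
    rw [SA_eqv, SA_g2_8, SA_g2 B (by decide) (by decide) (by decide)]
    rfl
  p0 σ := by
    rw [SA_g2_8, SA_g0 B (by decide), SA_g0 B (by decide)]
    exact le_rfl
  p1 x y σ := by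
    simp only [SA_Tle, SA_g2_8]
    rw [SA_g2 B (by decide) (by decide) (by decide), tv_and]
    refine ⟨min_le_left _ _, min_le_right _ _, ?_⟩
    rw [le_min_iff, le_min_iff]
    rcases le_total (tv (rkT M v (evT M v x σ))) (tv (rkT M v (evT M v y σ))) with h | h
    · exact Or.inl ⟨le_rfl, h⟩
    · exact Or.inr ⟨h, le_rfl⟩
  p2 x y σ := by
    simp only [SA_Tle, SA_g2_8]
    rw [SA_g2 B (by decide) (by decide) (by decide), tv_or]
    refine ⟨le_max_left _ _, le_max_right _ _, ?_⟩
    rw [max_le_iff, max_le_iff]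
    rcases le_total (tv (rkT M v (evT M v x σ))) (tv (rkT M v (evT M v y σ))) with h | h
    · exact Or.inr ⟨h, le_rfl⟩
    · exact Or.inl ⟨le_rfl, h⟩
  p3 x y σ := by
    simp only [SA_Tle, SA_Tlt, SA_g2_8]
    rw [SA_g2 B (by decide) (by decide) (by decide), tv_imp, SA_g1, SA_g0 B (by decide), rk_succ,
      rk_nul]
    by_cases h : tv (rkT M v (evT M v x σ)) ≤ tv (rkT M v (evT M v y σ))
    · rw [if_pos h]
      left
      refine ⟨h, ?_⟩
      rw [zero_add, tv_one]
    · rw [if_neg h]
      right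
      exact ⟨not_le.1 h, le_rfl, le_rfl⟩
  q1 n y σ a := by
    simp only [SA_Tle, SA_g2_8, SA_g3]
    rw [SA_g2 B (by decide) (by decide) (by decide), tv_all]
    exact iInf_le (fun z : T D => tv (rkT M v (evT M v a (.tri n z σ)))) y
  q2 n z σ a := by
    classical
    simp only [SA_Tle, SA_Tlt, SA_g2_8, SA_g3, SA_g4_1]
    rw [SA_g2 B (by decide) (by decide) (by decide), tv_all]
    by_cases h : ∃ w, tv (rkT M v (evT M v a (.tri n w σ))) < tv (rkT M v z)
    · right
      unfold W1
      rw [dif_pos h]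
      exact h.choose_spec
    · left
      push Not at h
      exact le_iInf h
  q3 n y σ a := by
    simp only [SA_Tle, SA_g2_8, SA_g3]
    rw [SA_g2 B (by decide) (by decide) (by decide), tv_ex]
    exact le_iSup (fun z : T D => tv (rkT M v (evT M v a (.tri n z σ)))) y
  q4 n z σ a := by
    classical
    simp only [SA_Tle, SA_Tlt, SA_g2_8, SA_g3, SA_g4_2]
    rw [SA_g2 B (by decide) (by decide) (by decide), tv_ex]
    by_cases h : ∃ w, tv (rkT M v z) < tv (rkT M v (evT M v a (.tri n w σ)))
    · right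
      unfold W2
      rw [dif_pos h]
      exact h.choose_spec
    · left
      push Not at h
      exact iSup_le h
  b1 := by
    rw [SA_Tlt, SA_g0_2, SA_g1, SA_g0 B (by decide), rk_succ, rk_nul, zero_add, tv_one]
    exact hB

/-! ### The translations as elements -/

/-- the element described by the translation of a term -/
def Tm.trT (D : Type) : Tm → T D
  | .var n => .un 1 (numT n)
  | .fn k i ts => (List.ofFn fun j => (ts j).trT D).foldl (.bi 0) (.bi 1 (numT k) (numT i))

def Fm.trT (D : Type) : Fm → T D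
  | .bot => .nul 3
  | .rel k i ts => (List.ofFn fun j => (ts j).trT D).foldl (.bi 0) (.bi 2 (numT k) (numT i))
  | .and A B => .bi 3 (A.trT D) (B.trT D)
  | .or A B => .bi 4 (A.trT D) (B.trT D)
  | .imp A B => .bi 5 (A.trT D) (B.trT D)
  | .all n A => .bi 6 (numT n) (A.trT D)
  | .ex n A => .bi 7 (numT n) (A.trT D)

theorem SA_nm (B : T D) (n : ℕ) : nmU (SA M v B) n = numT n := by
  induction n with
  | zero => exact SA_g0 B (by decide)
  | succ n ih =>
    change (SA M v B).g1 0 (nmU (SA M v B) n) = _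
    rw [ih]
    rfl

theorem fold_ev (B : T D) (w : ℕ → T D) (k : ℕ) : ∀ (ts : Fin k → Tm) (us : Fin k → T D) (h : Tm)
    (h' : T D), (∀ j, (ts j).ev (SA M v B) w = us j) → h.ev (SA M v B) w = h' →
    ((List.ofFn ts).foldl (f2 0) h).ev (SA M v B) w = (List.ofFn us).foldl (.bi 0) h' := by
  induction k with
  | zero =>
    intro ts us h h' _ h2
    simpa using h2
  | succ k ih =>
    intro ts us h h' h1 h2
    rw [List.ofFn_succ, List.ofFn_succ, List.foldl_cons, List.foldl_cons]
    apply ih
    · intro j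
      exact h1 j.succ
    · rw [ev_f2, h2, h1 0]
      exact SA_g2 B (by decide) (by decide) (by decide) _ _

theorem Tm.ev_tr (B : T D) (w : ℕ → T D) (t : Tm) : t.tr.ev (SA M v B) w = t.trT D := by
  induction t with
  | var n =>
    change (f1 1 (nm n)).ev _ _ = T.un 1 (numT n)
    rw [ev_f1, ev_nm, SA_nm]
    rfl
  | fn k i ts ih =>
    change ((List.ofFn fun j => (ts j).tr).foldl (f2 0) (f2 1 (nm k) (nm i))).ev _ _ =
      (List.ofFn fun j => (ts j).trT D).foldl (T.bi 0) (T.bi 1 (numT k) (numT i))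
    apply fold_ev
    · exact ih
    · rw [ev_f2, ev_nm, ev_nm, SA_nm, SA_nm]
      exact SA_g2 B (by decide) (by decide) (by decide) _ _

theorem Fm.ev_tr (B : T D) (w : ℕ → T D) (A : Fm) : A.tr.ev (SA M v B) w = A.trT D := by
  induction A with
  | bot =>
    change (c0 3).ev _ _ = T.nul 3
    rw [ev_c0]
    exact SA_g0 B (by decide)
  | rel k i ts =>
    change ((List.ofFn fun j => (ts j).tr).foldl (f2 0) (f2 2 (nm k) (nm i))).ev _ _ =
      (List.ofFn fun j => (ts j).trT D).foldl (T.bi 0) (T.bi 2 (numT k) (numT i))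
    apply fold_ev
    · exact fun j => Tm.ev_tr B w (ts j)
    · rw [ev_f2, ev_nm, ev_nm, SA_nm, SA_nm]
      exact SA_g2 B (by decide) (by decide) (by decide) _ _
  | and A B' hA hB =>
    change (f2 3 A.tr B'.tr).ev _ _ = _
    rw [ev_f2, hA, hB]
    exact SA_g2 B (by decide) (by decide) (by decide) _ _
  | or A B' hA hB =>
    change (f2 4 A.tr B'.tr).ev _ _ = _
    rw [ev_f2, hA, hB]
    exact SA_g2 B (by decide) (by decide) (by decide) _ _
  | imp A B' hA hB =>
    change (f2 5 A.tr B'.tr).ev _ _ = _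
    rw [ev_f2, hA, hB]
    exact SA_g2 B (by decide) (by decide) (by decide) _ _
  | all n A hA =>
    change (f2 6 (nm n) A.tr).ev _ _ = _
    rw [ev_f2, hA, ev_nm, SA_nm]
    exact SA_g2 B (by decide) (by decide) (by decide) _ _
  | ex n A hA =>
    change (f2 7 (nm n) A.tr).ev _ _ = _
    rw [ev_f2, hA, ev_nm, SA_nm]
    exact SA_g2 B (by decide) (by decide) (by decide) _ _

/-! ### Values -/

theorem ev_fold (σ : T D) (l : List (T D)) : ∀ h : T D,
    evT M v (l.foldl (.bi 0) h) σ = (l.map fun x => evT M v x σ).foldl (.bi 9) (evT M v h σ) := by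
  induction l with
  | nil => intro h; rfl
  | cons a l ih =>
    intro h
    rw [List.foldl_cons, ih, List.map_cons, List.foldl_cons]
    rfl

theorem den_fold (l : List (T D)) : ∀ (h : T D) (args : List D),
    den M v (l.foldl (.bi 9) h) args = den M v h (l.map (dn M v) ++ args) := by
  induction l with
  | nil => intro h args; rfl
  | cons a l ih =>
    intro h args
    rw [List.foldl_cons, ih, List.map_cons]
    rfl

theorem getD_ofFn {k : ℕ} (f : Fin k → D) (d : D) (j : Fin k) :
    (List.ofFn f).getD j d = f j := by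
  rw [List.getD_eq_getElem _ _ (by simp)]
  simp

theorem val_term (t : Tm) (σ : T D) (s : ℕ → D) (hs : ∀ n, dn M v (look M v σ (numT n)) = s n) :
    dn M v (evT M v (t.trT D) σ) = t.val M s := by
  induction t with
  | var n => exact hs n
  | fn k i ts ih =>
    change (den M v (evT M v ((List.ofFn fun j => (ts j).trT D).foldl (.bi 0)
      (.bi 1 (numT k) (numT i))) σ) []).1 = _
    rw [ev_fold, den_fold, List.append_nil, List.map_map, List.map_ofFn]
    change (M.fn (rkT M v (numT k)) (rkT M v (numT i)) fun j => (List.ofFn _).getD j (v 0)) = _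
    rw [rk_num, rk_num]
    change _ = M.fn k i fun j => (ts j).val M s
    congr 1
    funext j
    rw [getD_ofFn]
    exact ih j

theorem val_fm (hM : ∀ k i a, M.rel k i a ∈ Vdown) (A : Fm) : ∀ (σ : T D) (s : ℕ → D),
    (∀ n, dn M v (look M v σ (numT n)) = s n) → tv (rkT M v (evT M v (A.trT D) σ)) = A.val M s := by
  have hupd : ∀ (σ : T D) (s : ℕ → D) (n : ℕ) (y : T D),
      (∀ n, dn M v (look M v σ (numT n)) = s n) →
      ∀ m, dn M v (look M v (.tri (numT n) y σ) (numT m)) =
        Function.update s n (dn M v y) m := by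
    intro σ s n y hs m
    rw [look_tri, rk_num, rk_num]
    by_cases hm : m = n
    · subst hm
      rw [if_pos rfl, Function.update_self]
    · rw [if_neg (Ne.symm hm), Function.update_of_ne hm]
      exact hs m
  have hsurj : Function.Surjective (dn M v) := fun d => ⟨.leaf d, rfl⟩
  induction A with
  | bot => intro σ s _; exact tv_zero
  | rel k i ts =>
    intro σ s hs
    change tv (den M v (evT M v ((List.ofFn fun j => (ts j).trT D).foldl (.bi 0)
      (.bi 2 (numT k) (numT i))) σ) []).2 = _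
    rw [ev_fold, den_fold, List.append_nil, List.map_map, List.map_ofFn]
    change tv (tc (M.rel (rkT M v (numT k)) (rkT M v (numT i)) fun j =>
      (List.ofFn _).getD j (v 0))) = _
    rw [rk_num, rk_num, tv_tc (hM _ _ _)]
    change _ = M.rel k i fun j => (ts j).val M s
    congr 1
    funext j
    rw [getD_ofFn]
    exact val_term (ts j) σ s hs
  | and A B hA hB =>
    intro σ s hs
    change tv (rkT M v (evT M v (.bi 3 (A.trT D) (B.trT D)) σ)) = min (A.val M s) (B.val M s)
    rw [tv_and, hA σ s hs, hB σ s hs]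
  | or A B hA hB =>
    intro σ s hs
    change tv (rkT M v (evT M v (.bi 4 (A.trT D) (B.trT D)) σ)) = max (A.val M s) (B.val M s)
    rw [tv_or, hA σ s hs, hB σ s hs]
  | imp A B hA hB =>
    intro σ s hs
    change tv (rkT M v (evT M v (.bi 5 (A.trT D) (B.trT D)) σ)) =
      if A.val M s ≤ B.val M s then 1 else B.val M s
    rw [tv_imp, hA σ s hs, hB σ s hs]
  | all n A hA =>
    intro σ s hs
    change tv (rkT M v (evT M v (.bi 6 (numT n) (A.trT D)) σ)) =
      ⨅ x : D, A.val M (Function.update s n x)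
    rw [tv_all, ← hsurj.iInf_comp]
    congr 1
    funext z
    exact hA _ _ (hupd σ s n z hs)
  | ex n A hA =>
    intro σ s hs
    change tv (rkT M v (evT M v (.bi 7 (numT n) (A.trT D)) σ)) =
      ⨆ x : D, A.val M (Function.update s n x)
    rw [tv_ex, ← hsurj.iSup_comp]
    congr 1
    funext z
    exact hA _ _ (hupd σ s n z hs)

end

/-- a countermodel gives a model of the clauses -/
theorem mod_of_not_valid (A : Fm) (h : ¬ Valid Vdown A) :
    ∃ (U : Type) (S : Alg U) (_ : ℕ → U), Mod S ∧ ∀ v' : ℕ → U, (lastc A).holds S v' := by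
  unfold Valid at h
  push Not at h
  obtain ⟨D, M, hM, v, hv⟩ := h
  have hlt : A.val M v < 1 := lt_of_le_of_ne unitInterval.le_one' hv
  have hval : tv (rkT M v (evT M v (A.trT D) (.nul 1))) = A.val M v := by
    apply val_fm hM
    intro n
    change v (rkT M v (numT n)) = v n
    rw [rk_num]
  refine ⟨T D, SA M v (evT M v (A.trT D) (.nul 1)), fun _ => .nul 0, SA_mod _ ?_, fun v' => ?_⟩
  · rw [hval]; exact hlt
  · unfold lastc
    rw [holds_ceq, evt, ev_f2, Fm.ev_tr, ev_c0, ev_c0, SA_g0_2, SA_g0 _ (by decide), SA_eqv,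
      SA_g2_8]

end Pool.Agent.R626.GL
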