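import Pool.Agent.R626.GLE

/-! Effective existential prenex forms for `G_↓`. -/

namespace Pool.Agent.R626.GL

open Set

/-- the prenex form of `A` -/
def pF (A : Fm) : Fm := sent 4 (conj (lastc A) cls)

theorem pF_prenex (A : Fm) : (pF A).Prenex := sent_prenex _ _

theorem pF_valid (A : Fm) : Valid Vdown A ↔ Valid Vdown (pF A) := by
  rw [← not_iff_not]
  unfold pF
  rw [sent_not_valid (by decide)]
  constructor
  · intro h
    obtain ⟨U, S, v, hS, hl⟩ := mod_of_not_valid A h
    refine ⟨U, S, v, fun v' hv' => ?_⟩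
    rw [conj_holds]
    exact ⟨(cls_holds S v).2 hS v' hv', hl v'⟩
  · rintro ⟨U, S, v, h⟩
    have h1 : Mod S := (cls_holds S v).1 fun v' hv' => ((conj_holds S v' _ _).1 (h v' hv')).1
    exact not_valid_of_mod h1 v A ((conj_holds S v _ _).1 (h v fun _ _ => rfl)).2

/-! ### Computability -/

/-- code of a numeral -/
def numC (n : ℕ) : List ℕ :=
  (List.range n).map (fun _ => Nat.pair 1 (Nat.pair 1 0)) ++ [Nat.pair 1 (Nat.pair 0 0)]

def repC (n a : ℕ) : List ℕ := (List.range n).map fun _ => a

theorem repC_eq (n a : ℕ) : repC n a = List.replicate n a := by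
  unfold repC
  rw [List.map_const', List.length_range]

theorem numC_eq (n : ℕ) : numC n =
    List.replicate n (Nat.pair 1 (Nat.pair 1 0)) ++ [Nat.pair 1 (Nat.pair 0 0)] := by
  unfold numC
  rw [List.map_const', List.length_range]

/-- translation of a symbol -/
def gC (x : ℕ) : List ℕ :=
  if x.unpair.1 = 0 then Nat.pair 1 (Nat.pair 1 1) :: numC x.unpair.2
  else if x.unpair.1 = 1 then repC x.unpair.2.unpair.1 (Nat.pair 1 (Nat.pair 2 0)) ++
    (Nat.pair 1 (Nat.pair 2 1) :: (numC x.unpair.2.unpair.1 ++ numC x.unpair.2.unpair.2))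
  else if x.unpair.1 = 2 then [Nat.pair 1 (Nat.pair 0 3)]
  else if x.unpair.1 = 3 then repC x.unpair.2.unpair.1 (Nat.pair 1 (Nat.pair 2 0)) ++
    (Nat.pair 1 (Nat.pair 2 2) :: (numC x.unpair.2.unpair.1 ++ numC x.unpair.2.unpair.2))
  else if x.unpair.1 = 4 then [Nat.pair 1 (Nat.pair 2 3)]
  else if x.unpair.1 = 5 then [Nat.pair 1 (Nat.pair 2 4)]
  else if x.unpair.1 = 6 then [Nat.pair 1 (Nat.pair 2 5)]
  else if x.unpair.1 = 7 then Nat.pair 1 (Nat.pair 2 6) :: numC x.unpair.2
  else Nat.pair 1 (Nat.pair 2 7) :: numC x.unpair.2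

theorem numC_primrec : Primrec numC :=
  Primrec.list_append.comp (Primrec.list_map Primrec.list_range (Primrec.const _))
    (Primrec.const _)

theorem repC_primrec (a : ℕ) : Primrec fun n => repC n a :=
  Primrec.list_map Primrec.list_range (Primrec.const _)

theorem unpair1_primrec : Primrec fun x : ℕ => x.unpair.1 := Primrec.fst.comp Primrec.unpair
theorem unpair2_primrec : Primrec fun x : ℕ => x.unpair.2 := Primrec.snd.comp Primrec.unpair

theorem eq_const_primrec {f : ℕ → ℕ} (hf : Primrec f) (c : ℕ) : PrimrecPred fun x => f x = c :=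
  Primrec.eq.comp hf (Primrec.const c)

theorem gC_primrec : Primrec gC := by
  have h21 : Primrec fun x : ℕ => x.unpair.2.unpair.1 := unpair1_primrec.comp unpair2_primrec
  have h22 : Primrec fun x : ℕ => x.unpair.2.unpair.2 := unpair2_primrec.comp unpair2_primrec
  have happ : ∀ c : ℕ, Primrec fun x : ℕ => repC x.unpair.2.unpair.1 (Nat.pair 1 (Nat.pair 2 0)) ++
      (c :: (numC x.unpair.2.unpair.1 ++ numC x.unpair.2.unpair.2)) := fun c =>
    Primrec.list_append.comp ((repC_primrec _).comp h21)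
      (Primrec.list_cons.comp (Primrec.const c)
        (Primrec.list_append.comp (numC_primrec.comp h21) (numC_primrec.comp h22)))
  have hnum : ∀ c : ℕ, Primrec fun x : ℕ => c :: numC x.unpair.2 := fun c =>
    Primrec.list_cons.comp (Primrec.const c) (numC_primrec.comp unpair2_primrec)
  unfold gC
  refine Primrec.ite (eq_const_primrec unpair1_primrec _) (hnum _) ?_
  refine Primrec.ite (eq_const_primrec unpair1_primrec _) (happ _) ?_
  refine Primrec.ite (eq_const_primrec unpair1_primrec _) (Primrec.const _) ?_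
  refine Primrec.ite (eq_const_primrec unpair1_primrec _) (happ _) ?_
  refine Primrec.ite (eq_const_primrec unpair1_primrec _) (Primrec.const _) ?_
  refine Primrec.ite (eq_const_primrec unpair1_primrec _) (Primrec.const _) ?_
  refine Primrec.ite (eq_const_primrec unpair1_primrec _) (Primrec.const _) ?_
  exact Primrec.ite (eq_const_primrec unpair1_primrec _) (hnum _) (hnum _)

theorem code_f1 (i : ℕ) (a : Tm) : (f1 i a).code = Nat.pair 1 (Nat.pair 1 i) :: a.code := by
  change _ :: (List.ofFn fun _ : Fin 1 => a.code).flatten = _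
  simp [List.ofFn_succ]

theorem code_f2 (i : ℕ) (a b : Tm) :
    (f2 i a b).code = Nat.pair 1 (Nat.pair 2 i) :: (a.code ++ b.code) := by
  change _ :: (List.ofFn fun j : Fin 2 => ((![a, b] : Fin 2 → Tm) j).code).flatten = _
  simp [List.ofFn_succ]

theorem code_c0 (i : ℕ) : (c0 i).code = [Nat.pair 1 (Nat.pair 0 i)] := by
  change _ :: (List.ofFn _).flatten = _
  simp

theorem code_nm (n : ℕ) : (nm n).code = numC n := by
  rw [numC_eq]
  induction n with
  | zero => exact code_c0 0
  | succ n ih =>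
    change (f1 0 (nm n)).code = _
    rw [code_f1, ih, List.replicate_succ]
    rfl

theorem code_Pr (t : Tm) : (Pr t).code = Nat.pair 3 (Nat.pair 1 0) :: t.code := by
  change _ :: (List.ofFn fun _ : Fin 1 => t.code).flatten = _
  simp [List.ofFn_succ]

theorem code_fold (k : ℕ) : ∀ (ts : Fin k → Tm) (h : Tm),
    ((List.ofFn ts).foldl (f2 0) h).code =
      List.replicate k (Nat.pair 1 (Nat.pair 2 0)) ++
        (h.code ++ (List.ofFn fun j => (ts j).code).flatten) := by
  induction k with
  | zero => intro ts h; simp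
  | succ k ih =>
    intro ts h
    rw [List.ofFn_succ, List.foldl_cons, ih, code_f2, List.replicate_succ', List.ofFn_succ]
    simp

theorem flatMap_flatten {k : ℕ} (g : ℕ → List ℕ) : ∀ (ts : Fin k → List ℕ),
    (List.ofFn ts).flatten.flatMap g = (List.ofFn fun j => (ts j).flatMap g).flatten := by
  induction k with
  | zero => intro ts; simp
  | succ k ih =>
    intro ts
    rw [List.ofFn_succ, List.ofFn_succ, List.flatten_cons, List.flatten_cons, List.flatMap_append,
      ih]

theorem Tm.code_tr (t : Tm) : t.tr.code = t.code.flatMap gC := by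
  induction t with
  | var n =>
    change (f1 1 (nm n)).code = [Nat.pair 0 n].flatMap gC
    rw [code_f1, code_nm]
    simp [gC]
  | fn k i ts ih =>
    change ((List.ofFn fun j => (ts j).tr).foldl (f2 0) (f2 1 (nm k) (nm i))).code =
      (Nat.pair 1 (Nat.pair k i) :: (List.ofFn fun j => (ts j).code).flatten).flatMap gC
    rw [code_fold, List.flatMap_cons, flatMap_flatten, code_f2, code_nm, code_nm]
    simp only [ih]
    simp [gC, repC_eq]

theorem Fm.code_tr (A : Fm) : A.tr.code = A.code.flatMap gC := by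
  induction A with
  | bot =>
    change (c0 3).code = [Nat.pair 2 0].flatMap gC
    rw [code_c0]
    simp [gC]
  | rel k i ts =>
    change ((List.ofFn fun j => (ts j).tr).foldl (f2 0) (f2 2 (nm k) (nm i))).code =
      (Nat.pair 3 (Nat.pair k i) :: (List.ofFn fun j => (ts j).code).flatten).flatMap gC
    rw [code_fold, List.flatMap_cons, flatMap_flatten, code_f2, code_nm, code_nm]
    simp only [Tm.code_tr]
    simp [gC, repC_eq]
  | and A B hA hB =>
    change (f2 3 A.tr B.tr).code = (Nat.pair 4 0 :: (A.code ++ B.code)).flatMap gC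
    rw [code_f2, List.flatMap_cons, List.flatMap_append, hA, hB]
    simp [gC]
  | or A B hA hB =>
    change (f2 4 A.tr B.tr).code = (Nat.pair 5 0 :: (A.code ++ B.code)).flatMap gC
    rw [code_f2, List.flatMap_cons, List.flatMap_append, hA, hB]
    simp [gC]
  | imp A B hA hB =>
    change (f2 5 A.tr B.tr).code = (Nat.pair 6 0 :: (A.code ++ B.code)).flatMap gC
    rw [code_f2, List.flatMap_cons, List.flatMap_append, hA, hB]
    simp [gC]
  | all n A hA =>
    change (f2 6 (nm n) A.tr).code = (Nat.pair 7 n :: A.code).flatMap gC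
    rw [code_f2, List.flatMap_cons, hA, code_nm]
    simp [gC]
  | ex n A hA =>
    change (f2 7 (nm n) A.tr).code = (Nat.pair 8 n :: A.code).flatMap gC
    rw [code_f2, List.flatMap_cons, hA, code_nm]
    simp [gC]

theorem conj_code (l : List Cl) : ∃ pre : List ℕ, ∀ c : Cl,
    (conj c l).toFm.code = pre ++ c.toFm.code := by
  induction l with
  | nil => exact ⟨[], fun c => rfl⟩
  | cons d l ih =>
    obtain ⟨pre, hpre⟩ := ih
    refine ⟨Nat.pair 5 0 :: (d.toFm.code ++ pre), fun c => ?_⟩
    change Nat.pair 5 0 :: (d.toFm.code ++ (conj c l).toFm.code) = _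
    rw [hpre]
    simp

theorem sent_code (l : List Cl) : ∃ pre : List ℕ, ∀ c : Cl,
    (sent 4 (conj c l)).code = pre ++ c.toFm.code := by
  obtain ⟨pre, hpre⟩ := conj_code l
  refine ⟨[Nat.pair 8 3, Nat.pair 8 2, Nat.pair 8 1, Nat.pair 8 0, Nat.pair 5 0] ++
    ((Fm.or (Pr (.var 0)) (.imp (Pr (.var 0)) .bot)).code ++ pre), fun c => ?_⟩
  change Nat.pair 8 3 :: Nat.pair 8 2 :: Nat.pair 8 1 :: Nat.pair 8 0 :: Nat.pair 5 0 ::
    ((Fm.or (Pr (.var 0)) (.imp (Pr (.var 0)) .bot)).code ++ (conj c l).toFm.code) = _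
  rw [hpre]
  simp

theorem pF_code : ∃ pre post : List ℕ, ∀ A : Fm, (pF A).code =
    pre ++ (A.code.flatMap gC ++ post) := by
  obtain ⟨pre, hpre⟩ := sent_code cls
  refine ⟨pre ++ (Nat.pair 6 0 :: ((Pr zr).code ++
    [Nat.pair 3 (Nat.pair 1 0), Nat.pair 1 (Nat.pair 2 11), Nat.pair 1 (Nat.pair 2 8)])),
    (c0 1).code ++ (c0 2).code, fun A => ?_⟩
  change (sent 4 (conj (lastc A) cls)).code = _
  rw [hpre]
  change pre ++ (Nat.pair 6 0 :: ((Pr zr).code ++
    (Pr (f2 11 (f2 8 A.tr (c0 1)) (c0 2))).code)) = _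
  rw [code_Pr (f2 11 _ _), code_f2, code_f2, Fm.code_tr]
  simp

theorem admitsPrenex_Vdown : AdmitsPrenex Vdown := by
  obtain ⟨pre, post, h⟩ := pF_code
  refine ⟨pF, ⟨fun l => pre ++ (l.flatMap gC ++ post), ?_, h⟩,
    fun A => ⟨pF_prenex A, pF_valid A⟩⟩
  apply Primrec.to_comp
  exact Primrec.list_append.comp (Primrec.const _)
    (Primrec.list_append.comp (Primrec.list_flatMap Primrec.id (gC_primrec.comp Primrec.snd))
      (Primrec.const _))

end Pool.Agent.R626.GL
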