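import Pool.Agent.R626.GLF

/-! The arithmetical hierarchy, universal predicates, and unique readability. -/

namespace Pool.Agent.R626.GL

open Set

/-- `Sig n S` : the set `S` of natural numbers is in `Σ⁰_n`. A set in `Σ⁰_{n+1}` is the projection
of a set whose complement is in `Σ⁰_n`. -/
def Sig : ℕ → (ℕ → Prop) → Prop
  | 0, S => ComputablePred S
  | n + 1, S => ∃ R : ℕ → Prop, Sig n (fun x => ¬ R x) ∧ ∀ x, S x ↔ ∃ a, R (Nat.pair x a)

/-- The Gödel logic of `V` is arithmetical: the set of Gödel numbers of its valid formulas is in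
`Σ⁰_n` for some `n`. -/
def Arithmetical (V : Set unitInterval) : Prop :=
  ∃ n, Sig n fun m => ∃ A : Fm, Valid V A ∧ Encodable.encode A.code = m

/-- universal predicates -/
def UP : ℕ → ℕ → ℕ → Prop
  | 0, e, x => ∃ s, (Nat.Partrec.Code.evaln s (Denumerable.ofNat Nat.Partrec.Code e) x).isSome
  | n + 1, e, x => ∃ a, ¬ UP n e (Nat.pair x a)

theorem Sig_enum (n : ℕ) : ∀ S : ℕ → Prop, Sig n S → ∃ e, ∀ x, S x ↔ UP n e x := by
  induction n with
  | zero =>
    intro S hS
    have h1 : REPred S := ComputablePred.to_re hS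
    have h2 : Partrec fun a : ℕ => (Part.assert (S a) fun _ => Part.some ()).map fun _ => (0 : ℕ) :=
      Partrec.map h1 (Computable.const 0).to₂
    rw [Partrec.nat_iff] at h2
    obtain ⟨c, hc⟩ := Nat.Partrec.Code.exists_code.1 h2
    refine ⟨Encodable.encode c, fun x => ?_⟩
    change S x ↔ ∃ s, (Nat.Partrec.Code.evaln s (Denumerable.ofNat Nat.Partrec.Code
      (Encodable.encode c)) x).isSome
    rw [Denumerable.ofNat_encode]
    have h3 : (∃ s, (Nat.Partrec.Code.evaln s c x).isSome) ↔ (c.eval x).Dom := by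
      constructor
      · rintro ⟨s, hs⟩
        obtain ⟨y, hy⟩ := Option.isSome_iff_exists.1 hs
        exact Part.dom_iff_mem.2 ⟨y, Nat.Partrec.Code.evaln_sound (Option.mem_def.2 hy)⟩
      · intro h
        obtain ⟨y, hy⟩ := Part.dom_iff_mem.1 h
        obtain ⟨s, hs⟩ := Nat.Partrec.Code.evaln_complete.1 hy
        exact ⟨s, Option.isSome_iff_exists.2 ⟨y, Option.mem_def.1 hs⟩⟩
    rw [h3, hc]
    simp [Part.assert]
  | succ n ih =>
    intro S hS
    obtain ⟨R, hR, hSR⟩ := hS
    obtain ⟨e, he⟩ := ih _ hR
    refine ⟨e, fun x => ?_⟩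
    rw [hSR]
    change (∃ a, R (Nat.pair x a)) ↔ ∃ a, ¬ UP n e (Nat.pair x a)
    apply exists_congr
    intro a
    rw [← he, not_not]

theorem Sig_diag (n : ℕ) : ¬ Sig n fun x => ¬ UP n x x := by
  intro h
  obtain ⟨e, he⟩ := Sig_enum n _ h
  have := he e
  tauto

theorem Sig_comp (n : ℕ) : ∀ (S : ℕ → Prop) (f : ℕ → ℕ), Sig n S → Computable f →
    Sig n fun x => S (f x) := by
  induction n with
  | zero =>
    intro S f hS hf
    obtain ⟨hd, hc⟩ := hS
    exact ⟨fun x => hd (f x), hc.comp hf⟩
  | succ n ih =>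
    intro S f hS hf
    obtain ⟨R, hR, hSR⟩ := hS
    refine ⟨fun z => R (Nat.pair (f z.unpair.1) z.unpair.2), ?_, fun x => ?_⟩
    · refine ih _ (fun z => Nat.pair (f z.unpair.1) z.unpair.2) hR ?_
      exact (Primrec₂.natPair.to_comp).comp (hf.comp (unpair1_primrec.to_comp))
        (unpair2_primrec.to_comp)
    · change S (f x) ↔ _
      rw [hSR]
      simp

/-! ### Unique readability -/

theorem pair_inj {a b c d : ℕ} (h : Nat.pair a b = Nat.pair c d) : a = c ∧ b = d :=
  Nat.pair_eq_pair.1 h

theorem flatten_inj {k : ℕ} : ∀ (ts : Fin k → Tm),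
    (∀ j, ∀ (t' : Tm) (r r' : List ℕ), (ts j).code ++ r = t'.code ++ r' → ts j = t' ∧ r = r') →
    ∀ (ts' : Fin k → Tm) (r r' : List ℕ),
      (List.ofFn fun j => (ts j).code).flatten ++ r =
        (List.ofFn fun j => (ts' j).code).flatten ++ r' → ts = ts' ∧ r = r' := by
  induction k with
  | zero =>
    intro ts _ ts' r r' h
    refine ⟨funext fun j => j.elim0, ?_⟩
    simpa using h
  | succ k ih =>
    intro ts H ts' r r' h
    rw [List.ofFn_succ, List.ofFn_succ, List.flatten_cons, List.flatten_cons,
      List.append_assoc, List.append_assoc] at h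
    obtain ⟨h1, h2⟩ := H 0 _ _ _ h
    obtain ⟨h3, h4⟩ := ih (fun j => ts j.succ) (fun j => H j.succ) (fun j => ts' j.succ) r r' h2
    refine ⟨funext fun j => ?_, h4⟩
    refine Fin.cases h1 (fun i => ?_) j
    exact congrFun h3 i

theorem Tm.code_inj (t : Tm) : ∀ (t' : Tm) (r r' : List ℕ), t.code ++ r = t'.code ++ r' →
    t = t' ∧ r = r' := by
  induction t with
  | var n =>
    intro t' r r' h
    cases t' with
    | var m =>
      change Nat.pair 0 n :: r = Nat.pair 0 m :: r' at h
      injection h with h1 h2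
      exact ⟨by rw [(pair_inj h1).2], h2⟩
    | fn k i ts =>
      change Nat.pair 0 n :: r = Nat.pair 1 (Nat.pair k i) :: (_ ++ r') at h
      injection h with h1 h2
      exact absurd (pair_inj h1).1 (by decide)
  | fn k i ts ih =>
    intro t' r r' h
    cases t' with
    | var m =>
      change Nat.pair 1 (Nat.pair k i) :: (_ ++ r) = Nat.pair 0 m :: r' at h
      injection h with h1 h2
      exact absurd (pair_inj h1).1 (by decide)
    | fn k' i' ts' =>
      change Nat.pair 1 (Nat.pair k i) :: ((List.ofFn fun j => (ts j).code).flatten ++ r) =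
        Nat.pair 1 (Nat.pair k' i') :: ((List.ofFn fun j => (ts' j).code).flatten ++ r') at h
      injection h with h1 h2
      obtain ⟨h3, h4⟩ := pair_inj (pair_inj h1).2
      subst h3
      subst h4
      obtain ⟨h5, h6⟩ := flatten_inj ts ih ts' r r' h2
      exact ⟨by rw [h5], h6⟩

theorem Fm.code_inj (A : Fm) : ∀ (A' : Fm) (r r' : List ℕ), A.code ++ r = A'.code ++ r' →
    A = A' ∧ r = r' := by
  induction A with
  | bot =>
    intro A' r r' h
    cases A' with
    | bot =>
      change Nat.pair 2 0 :: r = Nat.pair 2 0 :: r' at h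
      injection h with h1 h2
      exact ⟨rfl, h2⟩
    | _ =>
      injection h with h1 h2
      exact absurd (pair_inj h1).1 (by decide)
  | rel k i ts =>
    intro A' r r' h
    cases A' with
    | rel k' i' ts' =>
      change Nat.pair 3 (Nat.pair k i) :: ((List.ofFn fun j => (ts j).code).flatten ++ r) =
        Nat.pair 3 (Nat.pair k' i') :: ((List.ofFn fun j => (ts' j).code).flatten ++ r') at h
      injection h with h1 h2
      obtain ⟨h3, h4⟩ := pair_inj (pair_inj h1).2
      subst h3
      subst h4
      obtain ⟨h5, h6⟩ := flatten_inj ts (fun j => Tm.code_inj (ts j)) ts' r r' h2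
      exact ⟨by rw [h5], h6⟩
    | _ =>
      injection h with h1 h2
      exact absurd (pair_inj h1).1 (by decide)
  | and A B hA hB =>
    intro A' r r' h
    cases A' with
    | and A' B' =>
      change Nat.pair 4 0 :: ((A.code ++ B.code) ++ r) =
        Nat.pair 4 0 :: ((A'.code ++ B'.code) ++ r') at h
      injection h with h1 h2
      rw [List.append_assoc, List.append_assoc] at h2
      obtain ⟨h3, h4⟩ := hA _ _ _ h2
      obtain ⟨h5, h6⟩ := hB _ _ _ h4
      exact ⟨by rw [h3, h5], h6⟩
    | _ =>
      injection h with h1 h2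
      exact absurd (pair_inj h1).1 (by decide)
  | or A B hA hB =>
    intro A' r r' h
    cases A' with
    | or A' B' =>
      change Nat.pair 5 0 :: ((A.code ++ B.code) ++ r) =
        Nat.pair 5 0 :: ((A'.code ++ B'.code) ++ r') at h
      injection h with h1 h2
      rw [List.append_assoc, List.append_assoc] at h2
      obtain ⟨h3, h4⟩ := hA _ _ _ h2
      obtain ⟨h5, h6⟩ := hB _ _ _ h4
      exact ⟨by rw [h3, h5], h6⟩
    | _ =>
      injection h with h1 h2
      exact absurd (pair_inj h1).1 (by decide)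
  | imp A B hA hB =>
    intro A' r r' h
    cases A' with
    | imp A' B' =>
      change Nat.pair 6 0 :: ((A.code ++ B.code) ++ r) =
        Nat.pair 6 0 :: ((A'.code ++ B'.code) ++ r') at h
      injection h with h1 h2
      rw [List.append_assoc, List.append_assoc] at h2
      obtain ⟨h3, h4⟩ := hA _ _ _ h2
      obtain ⟨h5, h6⟩ := hB _ _ _ h4
      exact ⟨by rw [h3, h5], h6⟩
    | _ =>
      injection h with h1 h2
      exact absurd (pair_inj h1).1 (by decide)
  | all n A hA =>
    intro A' r r' h
    cases A' with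
    | all n' A' =>
      change Nat.pair 7 n :: (A.code ++ r) = Nat.pair 7 n' :: (A'.code ++ r') at h
      injection h with h1 h2
      obtain ⟨h3, h4⟩ := hA _ _ _ h2
      exact ⟨by rw [h3, (pair_inj h1).2], h4⟩
    | _ =>
      injection h with h1 h2
      exact absurd (pair_inj h1).1 (by decide)
  | ex n A hA =>
    intro A' r r' h
    cases A' with
    | ex n' A' =>
      change Nat.pair 8 n :: (A.code ++ r) = Nat.pair 8 n' :: (A'.code ++ r') at h
      injection h with h1 h2
      obtain ⟨h3, h4⟩ := hA _ _ _ h2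
      exact ⟨by rw [h3, (pair_inj h1).2], h4⟩
    | _ =>
      injection h with h1 h2
      exact absurd (pair_inj h1).1 (by decide)

theorem code_injective {A B : Fm} (h : A.code = B.code) : A = B :=
  (Fm.code_inj A B [] [] (by rw [h])).1

/-- criterion for non-arithmeticity -/
theorem not_arithmetical (V : Set unitInterval)
    (H : ∀ n, ∃ F : ℕ → Fm, (Computable fun x => (F x).code) ∧
      ∀ x, Valid V (F x) ↔ ¬ UP n x x) : ¬ Arithmetical V := by
  rintro ⟨n, hn⟩
  obtain ⟨F, hF, hv⟩ := H n
  apply Sig_diag n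
  have h1 := Sig_comp n _ (fun x => Encodable.encode (F x).code) hn
    (Computable.encode.comp hF)
  have h2 : (fun x => ∃ A : Fm, Valid V A ∧ Encodable.encode A.code =
      Encodable.encode (F x).code) = fun x => ¬ UP n x x := by
    funext x
    apply propext
    rw [← hv]
    constructor
    · rintro ⟨A, hA, he⟩
      rw [← code_injective (Encodable.encode_injective he)]
      exact hA
    · intro h
      exact ⟨F x, h, rfl⟩
  rw [← h2]
  exact h1

end Pool.Agent.R626.GL
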