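import Pool.Agent.R626.GLG

/-! Arithmetic by clauses. -/

set_option linter.unusedSimpArgs false

namespace Pool.Agent.R626.GL

open Set

/-- primitive recursive codes -/
inductive PC : Type
  | zero : PC
  | succ : PC
  | left : PC
  | right : PC
  | pair (f g : PC) : PC
  | comp (f g : PC) : PC
  | prec (f g : PC) : PC

def PC.eval : PC → ℕ → ℕ
  | .zero, _ => 0
  | .succ, n => n + 1
  | .left, n => n.unpair.1
  | .right, n => n.unpair.2
  | .pair f g, n => Nat.pair (f.eval n) (g.eval n)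
  | .comp f g, n => f.eval (g.eval n)
  | .prec f g, n => n.unpair.2.rec (f.eval n.unpair.1) fun y IH =>
      g.eval (Nat.pair n.unpair.1 (Nat.pair y IH))

def PC.num : PC → ℕ
  | .zero => Nat.pair 0 0
  | .succ => Nat.pair 1 0
  | .left => Nat.pair 2 0
  | .right => Nat.pair 3 0
  | .pair f g => Nat.pair 4 (Nat.pair f.num g.num)
  | .comp f g => Nat.pair 5 (Nat.pair f.num g.num)
  | .prec f g => Nat.pair 6 (Nat.pair f.num g.num)

theorem PC.num_inj (c : PC) : ∀ d : PC, c.num = d.num → c = d := by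
  induction c with
  | zero =>
    intro d h
    cases d <;> first | rfl | exact absurd (pair_inj h).1 (by decide)
  | succ =>
    intro d h
    cases d <;> first | rfl | exact absurd (pair_inj h).1 (by decide)
  | left =>
    intro d h
    cases d <;> first | rfl | exact absurd (pair_inj h).1 (by decide)
  | right =>
    intro d h
    cases d <;> first | rfl | exact absurd (pair_inj h).1 (by decide)
  | pair f g hf hg =>
    intro d h
    cases d with
    | pair f' g' =>
      obtain ⟨h1, h2⟩ := pair_inj (pair_inj h).2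
      rw [hf _ h1, hg _ h2]
    | _ => exact absurd (pair_inj h).1 (by decide)
  | comp f g hf hg =>
    intro d h
    cases d with
    | comp f' g' =>
      obtain ⟨h1, h2⟩ := pair_inj (pair_inj h).2
      rw [hf _ h1, hg _ h2]
    | _ => exact absurd (pair_inj h).1 (by decide)
  | prec f g hf hg =>
    intro d h
    cases d with
    | prec f' g' =>
      obtain ⟨h1, h2⟩ := pair_inj (pair_inj h).2
      rw [hf _ h1, hg _ h2]
    | _ => exact absurd (pair_inj h).1 (by decide)

theorem exists_PC {f : ℕ → ℕ} (hf : Nat.Primrec f) : ∃ c : PC, ∀ n, c.eval n = f n := by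
  induction hf with
  | zero => exact ⟨.zero, fun _ => rfl⟩
  | succ => exact ⟨.succ, fun _ => rfl⟩
  | left => exact ⟨.left, fun _ => rfl⟩
  | right => exact ⟨.right, fun _ => rfl⟩
  | pair _ _ h1 h2 =>
    obtain ⟨c, hc⟩ := h1
    obtain ⟨d, hd⟩ := h2
    exact ⟨.pair c d, fun n => by
      change Nat.pair (c.eval n) (d.eval n) = _
      rw [hc, hd]⟩
  | comp _ _ h1 h2 =>
    obtain ⟨c, hc⟩ := h1
    obtain ⟨d, hd⟩ := h2
    exact ⟨.comp c d, fun n => by
      change c.eval (d.eval n) = _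
      rw [hc, hd]⟩
  | prec _ _ h1 h2 =>
    obtain ⟨c, hc⟩ := h1
    obtain ⟨d, hd⟩ := h2
    refine ⟨.prec c d, fun n => ?_⟩
    change (n.unpair.2.rec (c.eval n.unpair.1) fun y IH =>
      d.eval (Nat.pair n.unpair.1 (Nat.pair y IH)) : ℕ) = _
    simp only [hc, hd, Nat.unpaired]

/-! ### Clauses for arithmetic -/

def tL (a : Tm) : Tm := f1 1 a
def tR (a : Tm) : Tm := f1 2 a
def tF (c : PC) (a : Tm) : Tm := f1 (3 + c.num) a
def tA (a b : Tm) : Tm := f2 0 a b
def tM (a b : Tm) : Tm := f2 1 a b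
def tP (a b : Tm) : Tm := f2 2 a b
def tU (a b c : Tm) : Tm := f3 0 a b c
def tW (a b c : Tm) : Tm := f3 1 a b c

def clsA : List Cl :=
  [.or (.lt (X 1) (X 3)) (.or (.lt (X 3) (X 1)) (rke (tA (X 0) (X 1)) (tA (X 0) (X 3)))),
   rke (tA (X 0) zr) (X 0),
   rke (tA (X 0) (sc (X 1))) (sc (tA (X 0) (X 1))),
   .or (.lt (X 1) (X 3)) (.or (.lt (X 3) (X 1)) (rke (tM (X 0) (X 1)) (tM (X 0) (X 3)))),
   rke (tM (X 0) zr) zr,
   rke (tM (X 0) (sc (X 1))) (tA (tM (X 0) (X 1)) (X 0)),
   .or (.and (.lt (X 0) (X 1)) (rke (tP (X 0) (X 1)) (tA (tM (X 1) (X 1)) (X 0))))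
     (.and (.le (X 1) (X 0)) (rke (tP (X 0) (X 1)) (tA (tA (tM (X 0) (X 0)) (X 0)) (X 1)))),
   rke (tP (tL (X 0)) (tR (X 0))) (X 0)]

/-- clauses for a primitive recursive code -/
def PC.cls : PC → List Cl
  | .zero => [rke (tF .zero (X 0)) zr]
  | .succ => [rke (tF .succ (X 0)) (sc (X 0))]
  | .left => [rke (tF .left (X 0)) (tL (X 0))]
  | .right => [rke (tF .right (X 0)) (tR (X 0))]
  | .pair f g => rke (tF (.pair f g) (X 0)) (tP (tF f (X 0)) (tF g (X 0))) :: (f.cls ++ g.cls)
  | .comp f g => rke (tF (.comp f g) (X 0)) (tF f (tF g (X 0))) :: (f.cls ++ g.cls)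
  | .prec f g =>
    [.or (.lt (X 0) (X 1)) (.or (.lt (X 1) (X 0))
      (rke (tF (.prec f g) (X 0)) (tF (.prec f g) (X 1)))),
     rke (tF (.prec f g) (tP (X 0) zr)) (tF f (X 0)),
     rke (tF (.prec f g) (tP (X 0) (sc (X 1))))
      (tF g (tP (X 0) (tP (X 1) (tF (.prec f g) (tP (X 0) (X 1))))))] ++ (f.cls ++ g.cls)

/-- clauses for the universal predicates; `t` is a code of the halting predicate -/
def clsU (t : PC) : List Cl :=
  [.or (.lt zr (X 0)) (.or (.le (tF t (tP (X 3) (tP (X 1) (X 2)))) zr)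
      (.lt zr (tU (X 0) (X 1) (X 2)))),
   .or (.lt zr (X 0)) (.or (.le (tU (X 0) (X 1) (X 2)) zr)
      (.lt zr (tF t (tP (tW (X 0) (X 1) (X 2)) (tP (X 1) (X 2)))))),
   .or (.lt zr (tU (X 0) (X 1) (tP (X 2) (X 3)))) (.lt zr (tU (sc (X 0)) (X 1) (X 2))),
   .or (.le (tU (sc (X 0)) (X 1) (X 2)) zr)
      (.le (tU (X 0) (X 1) (tP (X 2) (tW (sc (X 0)) (X 1) (X 2)))) zr)]

variable {U : Type} {S : Alg U}

/-- `S` satisfies the clauses in `l` -/
def Sat (S : Alg U) (v : ℕ → U) (l : List Cl) : Prop :=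
  ∀ v' : ℕ → U, (∀ n, 4 ≤ n → v' n = v n) → ∀ c ∈ l, c.holds S v'

theorem Sat.mono {v : ℕ → U} {l l' : List Cl} (h : Sat S v l) (hl : ∀ c ∈ l', c ∈ l) :
    Sat S v l' := fun v' hv' c hc => h v' hv' c (hl c hc)

theorem Sat.asg {v : ℕ → U} {l : List Cl} (h : Sat S v l) {c : Cl} (hc : c ∈ l)
    (a b d e : U) : c.holds S (asg v a b d e) := h _ (asg_eq v a b d e) c hc

theorem NN_of_rk (h : ModN S) {x y : U} (h1 : S.rk x = S.rk y) : NN S x = NN S y := by
  apply le_antisymm
  · exact (le_iff h x y).1 h1.le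
  · exact (le_iff h y x).1 h1.ge

theorem rk_of_NN (h : ModN S) {x y : U} (h1 : NN S x = NN S y) : S.rk x = S.rk y := by
  rw [rk_eq h x, rk_eq h y, h1]

/-- arithmetic facts -/
structure ModA (S : Alg U) : Prop extends ModN S where
  pr : ∀ x y, NN S (S.g2 2 x y) = Nat.pair (NN S x) (NN S y)
  lf : ∀ x, NN S (S.g1 1 x) = (NN S x).unpair.1
  rt : ∀ x, NN S (S.g1 2 x) = (NN S x).unpair.2

theorem modA_of_sat (hN : ModN S) (v : ℕ → U) (h : Sat S v clsA) : ModA S := by
  have h' : ∀ a b c d, ∀ x ∈ clsA, x.holds S (asg v a b c d) :=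
    fun a b c d x hx => h.asg hx a b c d
  simp only [clsA, List.mem_cons, List.not_mem_nil, or_false, forall_eq_or_imp, forall_eq,
    holds_lt, holds_le, holds_or, holds_and, holds_rke, sc, tA, tM, tP, tL, tR, ev_f1, ev_f2,
    ev_zr, X, ev_var, asg] at h'
  have hA : ∀ x y, NN S (S.g2 0 x y) = NN S x + NN S y := by
    have h1 : ∀ x n, NN S (S.g2 0 x (nmU S n)) = NN S x + n := by
      intro x n
      induction n with
      | zero => exact NN_of_rk hN (h' x x x x).2.1
      | succ n ih =>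
        have h2 := NN_of_rk hN (h' x (nmU S n) x x).2.2.1
        rw [NN_succ hN, ih] at h2
        exact h2
    intro x y
    have h3 := (h' x y x (nmU S (NN S y))).1
    have h4 := rk_eq hN y
    rcases h3 with h3 | h3 | h3
    · omega
    · omega
    · rw [NN_of_rk hN h3, h1]
  have hM : ∀ x y, NN S (S.g2 1 x y) = NN S x * NN S y := by
    have h1 : ∀ x n, NN S (S.g2 1 x (nmU S n)) = NN S x * n := by
      intro x n
      induction n with
      | zero =>
        have h2 := NN_of_rk hN (h' x x x x).2.2.2.2.1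
        rw [NN_zero hN] at h2
        rw [Nat.mul_zero]
        exact h2
      | succ n ih =>
        have h2 := NN_of_rk hN (h' x (nmU S n) x x).2.2.2.2.2.1
        rw [hA, ih] at h2
        rw [Nat.mul_succ]
        exact h2
    intro x y
    have h3 := (h' x y x (nmU S (NN S y))).2.2.2.1
    have h4 := rk_eq hN y
    rcases h3 with h3 | h3 | h3
    · omega
    · omega
    · rw [NN_of_rk hN h3, h1]
  have hP : ∀ x y, NN S (S.g2 2 x y) = Nat.pair (NN S x) (NN S y) := by
    intro x y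
    rcases (h' x y x x).2.2.2.2.2.2.1 with ⟨h1, h2⟩ | ⟨h1, h2⟩
    · rw [lt_iff hN] at h1
      have h3 := NN_of_rk hN h2
      rw [hA, hM] at h3
      rw [h3, Nat.pair, if_pos h1]
    · rw [le_iff hN] at h1
      have h3 := NN_of_rk hN h2
      rw [hA, hA, hM] at h3
      rw [h3, Nat.pair, if_neg (not_lt.2 h1)]
  have hLR : ∀ x, Nat.pair (NN S (S.g1 1 x)) (NN S (S.g1 2 x)) = NN S x := by
    intro x
    rw [← hP]
    exact NN_of_rk hN (h' x x x x).2.2.2.2.2.2.2
  refine ⟨hN, hP, fun x => ?_, fun x => ?_⟩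
  · rw [← hLR x]; simp
  · rw [← hLR x]; simp

theorem cls_eval (hA : ModA S) (v : ℕ → U) (c : PC) : Sat S v c.cls →
    ∀ x, NN S (S.g1 (3 + c.num) x) = c.eval (NN S x) := by
  have hN := hA.toModN
  induction c with
  | zero =>
    intro h x
    have h1 := h.asg (c := rke (tF .zero (X 0)) zr) (by simp [PC.cls]) x x x x
    rw [holds_rke, tF, ev_f1, ev_zr] at h1
    have h2 := NN_of_rk hN h1
    rw [NN_zero hN] at h2
    exact h2
  | succ =>
    intro h x
    have h1 := h.asg (c := rke (tF .succ (X 0)) (sc (X 0))) (by simp [PC.cls]) x x x x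
    rw [holds_rke, tF, sc, ev_f1, ev_f1] at h1
    have h2 := NN_of_rk hN h1
    rw [NN_succ hN] at h2
    exact h2
  | left =>
    intro h x
    have h1 := h.asg (c := rke (tF .left (X 0)) (tL (X 0))) (by simp [PC.cls]) x x x x
    rw [holds_rke, tF, tL, ev_f1, ev_f1] at h1
    have h2 := NN_of_rk hN h1
    rw [hA.lf] at h2
    exact h2
  | right =>
    intro h x
    have h1 := h.asg (c := rke (tF .right (X 0)) (tR (X 0))) (by simp [PC.cls]) x x x x
    rw [holds_rke, tF, tR, ev_f1, ev_f1] at h1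
    have h2 := NN_of_rk hN h1
    rw [hA.rt] at h2
    exact h2
  | pair f g hf hg =>
    intro h x
    have h1 := h.asg (c := rke (tF (.pair f g) (X 0)) (tP (tF f (X 0)) (tF g (X 0))))
      (by simp [PC.cls]) x x x x
    rw [holds_rke, tF, tF, tF, tP, ev_f1, ev_f2, ev_f1, ev_f1] at h1
    have h2 := NN_of_rk hN h1
    rw [hA.pr] at h2
    have h3 := hf (h.mono fun c hc => by simp [PC.cls, hc]) x
    have h4 := hg (h.mono fun c hc => by simp [PC.cls, hc]) x
    change NN S (S.g1 (3 + (PC.pair f g).num) x) =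
      Nat.pair (NN S (S.g1 (3 + f.num) x)) (NN S (S.g1 (3 + g.num) x)) at h2
    rw [h3, h4] at h2
    exact h2
  | comp f g hf hg =>
    intro h x
    have h1 := h.asg (c := rke (tF (.comp f g) (X 0)) (tF f (tF g (X 0))))
      (by simp [PC.cls]) x x x x
    rw [holds_rke, tF, tF, tF, ev_f1, ev_f1, ev_f1] at h1
    have h2 := NN_of_rk hN h1
    have h3 := hf (h.mono fun c hc => by simp [PC.cls, hc]) (S.g1 (3 + g.num) x)
    have h4 := hg (h.mono fun c hc => by simp [PC.cls, hc]) x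
    change NN S (S.g1 (3 + (PC.comp f g).num) x) =
      NN S (S.g1 (3 + f.num) (S.g1 (3 + g.num) x)) at h2
    rw [h3, h4] at h2
    exact h2
  | prec f g hf hg =>
    intro h x
    have hf' := hf (h.mono fun c hc => by simp [PC.cls, hc])
    have hg' := hg (h.mono fun c hc => by simp [PC.cls, hc])
    have h1 : ∀ y z : U, NN S y = NN S z → NN S (S.g1 (3 + (PC.prec f g).num) y) =
        NN S (S.g1 (3 + (PC.prec f g).num) z) := by
      intro y z hyz
      have h2 := h.asg (c := .or (.lt (X 0) (X 1)) (.or (.lt (X 1) (X 0))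
        (rke (tF (.prec f g) (X 0)) (tF (.prec f g) (X 1))))) (by simp [PC.cls]) y z y y
      rw [holds_or, holds_or, holds_lt, holds_lt, holds_rke, tF, tF, ev_f1, ev_f1] at h2
      have h3 := rk_of_NN hN hyz
      change S.rk y < S.rk z ∨ S.rk z < S.rk y ∨ S.rk (S.g1 (3 + (PC.prec f g).num) y) =
        S.rk (S.g1 (3 + (PC.prec f g).num) z) at h2
      rcases h2 with h2 | h2 | h2
      · omega
      · omega
      · exact NN_of_rk hN h2
    have h4 : ∀ (a : U) (n : ℕ), NN S (S.g1 (3 + (PC.prec f g).num) (S.g2 2 a (nmU S n))) =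
        (n.rec (f.eval (NN S a)) fun y IH => g.eval (Nat.pair (NN S a) (Nat.pair y IH)) : ℕ) := by
      intro a n
      induction n with
      | zero =>
        have h5 := h.asg (c := rke (tF (.prec f g) (tP (X 0) zr)) (tF f (X 0)))
          (by simp [PC.cls]) a a a a
        rw [holds_rke, tF, tF, tP, ev_f1, ev_f2, ev_f1, ev_zr] at h5
        have h6 := NN_of_rk hN h5
        change NN S (S.g1 (3 + (PC.prec f g).num) (S.g2 2 a (S.g0 0))) =
          NN S (S.g1 (3 + f.num) a) at h6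
        rw [hf'] at h6
        exact h6
      | succ n ih =>
        have h5 := h.asg (c := rke (tF (.prec f g) (tP (X 0) (sc (X 1))))
          (tF g (tP (X 0) (tP (X 1) (tF (.prec f g) (tP (X 0) (X 1)))))))
          (by simp [PC.cls]) a (nmU S n) a a
        rw [holds_rke, tF, tF, tF, tP, tP, tP, sc, ev_f1, ev_f2, ev_f1, ev_f1, ev_f2, ev_f2,
          ev_f1] at h5
        have h6 := NN_of_rk hN h5
        rw [tP, ev_f2] at h6
        change NN S (S.g1 (3 + (PC.prec f g).num) (S.g2 2 a (S.g1 0 (nmU S n)))) =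
          NN S (S.g1 (3 + g.num) (S.g2 2 a (S.g2 2 (nmU S n)
            (S.g1 (3 + (PC.prec f g).num) (S.g2 2 a (nmU S n)))))) at h6
        rw [hg', hA.pr, hA.pr, ih, NN_nm hN] at h6
        exact h6
    have h7 : NN S x = NN S (S.g2 2 (S.g1 1 x) (nmU S (NN S x).unpair.2)) := by
      rw [hA.pr, NN_nm hN, hA.lf, Nat.pair_unpair]
    rw [h1 _ _ h7, h4, hA.lf]
    rfl

/-- the halting predicate -/
def Halt (z : ℕ) : ℕ :=
  if (Nat.Partrec.Code.evaln z.unpair.1 (Denumerable.ofNat Nat.Partrec.Code z.unpair.2.unpair.1)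
    z.unpair.2.unpair.2).isSome then 1 else 0

theorem Halt_primrec : Nat.Primrec Halt := by
  rw [← Primrec.nat_iff]
  unfold Halt
  have h1 : Primrec fun z : ℕ => Nat.Partrec.Code.evaln z.unpair.1
      (Denumerable.ofNat Nat.Partrec.Code z.unpair.2.unpair.1) z.unpair.2.unpair.2 :=
    Nat.Partrec.Code.primrec_evaln.comp
      (((unpair1_primrec).pair ((Primrec.ofNat _).comp
        (unpair1_primrec.comp unpair2_primrec))).pair (unpair2_primrec.comp unpair2_primrec))
  have h2 : Primrec fun z : ℕ => (Nat.Partrec.Code.evaln z.unpair.1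
      (Denumerable.ofNat Nat.Partrec.Code z.unpair.2.unpair.1) z.unpair.2.unpair.2).isSome :=
    Primrec.option_isSome.comp h1
  exact Primrec.ite (Primrec.eq.comp h2 (Primrec.const true)) (Primrec.const 1) (Primrec.const 0)

theorem Halt_pos (s e x : ℕ) : 0 < Halt (Nat.pair s (Nat.pair e x)) ↔
    (Nat.Partrec.Code.evaln s (Denumerable.ofNat Nat.Partrec.Code e) x).isSome := by
  unfold Halt
  simp only [Nat.unpair_pair]
  split_ifs with h
  · exact ⟨fun _ => h, fun _ => Nat.one_pos⟩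
  · exact ⟨fun h' => absurd h' (lt_irrefl _), fun h' => absurd h' h⟩

theorem univ_eval (hA : ModA S) (v : ℕ → U) (t : PC) (ht : ∀ z, t.eval z = Halt z)
    (h1 : Sat S v t.cls) (h2 : Sat S v (clsU t)) (k : ℕ) :
    ∀ e x : U, 0 < NN S (S.g3 0 (nmU S k) e x) ↔ UP k (NN S e) (NN S x) := by
  have hN := hA.toModN
  have hev := cls_eval hA v t h1
  have hp : ∀ x, S.rk (S.g0 0) < S.rk x ↔ 0 < NN S x := by
    intro x
    rw [lt_iff hN, NN_zero hN]
  have hz : ∀ x, S.rk x ≤ S.rk (S.g0 0) ↔ ¬ 0 < NN S x := by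
    intro x
    rw [← hp, not_lt]
  have h' : ∀ a b c d, ∀ x ∈ clsU t, x.holds S (asg v a b c d) :=
    fun a b c d x hx => h2.asg hx a b c d
  simp only [clsU, List.mem_cons, List.not_mem_nil, or_false, forall_eq_or_imp, forall_eq,
    holds_lt, holds_le, holds_or, holds_and, holds_rke, sc, tU, tW, tP, tF, ev_f1, ev_f2,
    ev_f3, ev_zr, X, ev_var, asg] at h'
  simp only [hp, hz, hev, hA.pr, ht, Halt_pos] at h'
  induction k with
  | zero =>
    intro e x
    change 0 < NN S (S.g3 0 (S.g0 0) e x) ↔ ∃ s, _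
    constructor
    · intro h3
      rcases (h' (S.g0 0) e x x).2.1 with h4 | h4 | h4
      · rw [NN_zero hN] at h4; omega
      · exact absurd h3 h4
      · exact ⟨_, h4⟩
    · rintro ⟨s, hs⟩
      rcases (h' (S.g0 0) e x (nmU S s)).1 with h4 | h4 | h4
      · rw [NN_zero hN] at h4; omega
      · rw [NN_nm hN] at h4; exact absurd hs h4
      · exact h4
  | succ k ih =>
    intro e x
    change 0 < NN S (S.g3 0 (S.g1 0 (nmU S k)) e x) ↔ ∃ a, ¬ UP k (NN S e) (Nat.pair (NN S x) a)
    constructor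
    · intro h3
      rcases (h' (nmU S k) e x x).2.2.2 with h4 | h4
      · exact absurd h3 h4
      · rw [ih, hA.pr] at h4
        exact ⟨_, h4⟩
    · rintro ⟨a, ha⟩
      rcases (h' (nmU S k) e x (nmU S a)).2.2.1 with h4 | h4
      · rw [ih, hA.pr, NN_nm hN] at h4
        exact absurd h4 ha
      · exact h4

end Pool.Agent.R626.GL
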