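import Pool.Agent.R626.GLH

/-! Non-arithmeticity of the validity of `G_↓`. -/

set_option linter.unusedSimpArgs false

namespace Pool.Agent.R626.GL

open Set

noncomputable def stdDec (i x : ℕ) : ℕ := by
  classical
  exact if h : ∃ c : PC, c.num = i then h.choose.eval x else 0

theorem stdDec_num (c : PC) (x : ℕ) : stdDec c.num x = c.eval x := by
  classical
  have h : ∃ d : PC, d.num = c.num := ⟨c, rfl⟩
  unfold stdDec
  rw [dif_pos h, PC.num_inj _ _ h.choose_spec]

noncomputable def stdW (k e x : ℕ) : ℕ := by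
  classical
  exact match k with
  | 0 => if h : ∃ s, (Nat.Partrec.Code.evaln s
      (Denumerable.ofNat Nat.Partrec.Code e) x).isSome then h.choose else 0
  | k + 1 => if h : ∃ a, ¬ UP k e (Nat.pair x a) then h.choose else 0

noncomputable def stdU (k e x : ℕ) : ℕ := by
  classical
  exact if UP k e x then 1 else 0

noncomputable def stdFn : ∀ k : ℕ, ℕ → (Fin k → ℕ) → ℕ
  | 0, _, _ => 0
  | 1, 0, a => a 0 + 1
  | 1, 1, a => (a 0).unpair.1
  | 1, 2, a => (a 0).unpair.2
  | 1, i + 3, a => stdDec i (a 0)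
  | 2, 0, a => a 0 + a 1
  | 2, 1, a => a 0 * a 1
  | 2, _ + 2, a => Nat.pair (a 0) (a 1)
  | 3, 0, a => stdU (a 0) (a 1) (a 2)
  | 3, _ + 1, a => stdW (a 0) (a 1) (a 2)
  | _ + 4, _, _ => 0

/-- the standard model -/
noncomputable def stdA : Alg ℕ := ⟨stdFn, id⟩

theorem std_rk (x : ℕ) : stdA.rk x = x := rfl
theorem std_zero : stdA.g0 0 = 0 := rfl
theorem std_succ (x : ℕ) : stdA.g1 0 x = x + 1 := rfl
theorem std_L (x : ℕ) : stdA.g1 1 x = x.unpair.1 := rfl
theorem std_R (x : ℕ) : stdA.g1 2 x = x.unpair.2 := rfl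
theorem std_F (c : PC) (x : ℕ) : stdA.g1 (3 + c.num) x = c.eval x := by
  rw [← stdDec_num, Nat.add_comm]
  rfl
theorem std_A (x y : ℕ) : stdA.g2 0 x y = x + y := rfl
theorem std_M (x y : ℕ) : stdA.g2 1 x y = x * y := rfl
theorem std_P (x y : ℕ) : stdA.g2 2 x y = Nat.pair x y := rfl
theorem std_U (x y z : ℕ) : stdA.g3 0 x y z = stdU x y z := rfl
theorem std_W (x y z : ℕ) : stdA.g3 1 x y z = stdW x y z := rfl

theorem stdU_pos (x y z : ℕ) : 0 < stdU x y z ↔ UP x y z := by
  classical
  unfold stdU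
  split_ifs with h
  · exact ⟨fun _ => h, fun _ => Nat.one_pos⟩
  · exact ⟨fun h' => absurd h' (lt_irrefl _), fun h' => absurd h' h⟩

theorem stdU_le (x y z : ℕ) : stdU x y z ≤ 0 ↔ ¬ UP x y z := by
  rw [← stdU_pos, not_lt]

theorem std_N (v : ℕ → ℕ) : Sat stdA v clsN := by
  refine (clsN_holds stdA v).2 ⟨fun x => ?_, fun x y => ?_, fun x => ?_⟩
  · rw [std_rk, std_rk, std_succ]; omega
  · rw [std_rk, std_rk, std_rk, std_succ]; omega
  · rw [std_rk, std_rk, std_zero]; omega

theorem std_clsA (v : ℕ → ℕ) : Sat stdA v clsA := by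
  intro v' _
  simp only [clsA, List.mem_cons, List.not_mem_nil, or_false, forall_eq_or_imp, forall_eq,
    holds_lt, holds_le, holds_or, holds_and, holds_rke, sc, tA, tM, tP, tL, tR, ev_f1, ev_f2,
    ev_zr, X, ev_var, std_rk, std_zero, std_succ, std_L, std_R, std_A, std_M, std_P,
    Nat.pair_unpair, add_zero, Nat.mul_zero, and_true, true_and]
  refine ⟨?_, ?_, ?_, ?_, ?_⟩
  · rcases lt_trichotomy (v' 1) (v' 3) with h | h | h
    · exact Or.inl h
    · rw [h]; exact Or.inr (Or.inr rfl)
    · exact Or.inr (Or.inl h)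
  · omega
  · rcases lt_trichotomy (v' 1) (v' 3) with h | h | h
    · exact Or.inl h
    · rw [h]; exact Or.inr (Or.inr rfl)
    · exact Or.inr (Or.inl h)
  · exact Nat.mul_succ _ _
  · rcases lt_or_ge (v' 0) (v' 1) with h | h
    · left
      refine ⟨h, ?_⟩
      rw [Nat.pair, if_pos h]
    · right
      refine ⟨h, ?_⟩
      rw [Nat.pair, if_neg (not_lt.2 h)]

theorem std_PC (v : ℕ → ℕ) (c : PC) : Sat stdA v c.cls := by
  induction c with
  | zero =>
    intro v' _
    simp only [PC.cls, List.mem_cons, List.not_mem_nil, or_false, forall_eq, holds_rke, tF, ev_f1,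
      ev_zr, X, ev_var, std_F, std_zero]
    rfl
  | succ =>
    intro v' _
    simp only [PC.cls, List.mem_cons, List.not_mem_nil, or_false, forall_eq, holds_rke, tF, ev_f1,
      sc, X, ev_var, std_F, std_succ]
    rfl
  | left =>
    intro v' _
    simp only [PC.cls, List.mem_cons, List.not_mem_nil, or_false, forall_eq, holds_rke, tF, ev_f1,
      tL, X, ev_var, std_F, std_L]
    rfl
  | right =>
    intro v' _
    simp only [PC.cls, List.mem_cons, List.not_mem_nil, or_false, forall_eq, holds_rke, tF, ev_f1,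
      tR, X, ev_var, std_F, std_R]
    rfl
  | pair f g hf hg =>
    intro v' hv'
    simp only [PC.cls, List.mem_cons, List.mem_append, forall_eq_or_imp]
    refine ⟨?_, ?_⟩
    · simp only [holds_rke, tF, tP, ev_f1, ev_f2, X, ev_var, std_F, std_P]
      rfl
    · rintro c (hc | hc)
      · exact hf v' hv' c hc
      · exact hg v' hv' c hc
  | comp f g hf hg =>
    intro v' hv'
    simp only [PC.cls, List.mem_cons, List.mem_append, forall_eq_or_imp]
    refine ⟨?_, ?_⟩
    · simp only [holds_rke, tF, tP, ev_f1, ev_f2, X, ev_var, std_F, std_P]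
      rfl
    · rintro c (hc | hc)
      · exact hf v' hv' c hc
      · exact hg v' hv' c hc
  | prec f g hf hg =>
    intro v' hv'
    simp only [PC.cls, List.cons_append, List.nil_append, List.mem_cons, List.mem_append,
      forall_eq_or_imp]
    refine ⟨?_, ?_, ?_, ?_⟩
    · simp only [holds_or, holds_lt, holds_rke, tF, ev_f1, X, ev_var, std_F, std_rk]
      rcases lt_trichotomy (v' 0) (v' 1) with h | h | h
      · exact Or.inl h
      · rw [h]; exact Or.inr (Or.inr rfl)
      · exact Or.inr (Or.inl h)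
    · simp only [holds_rke, tF, tP, ev_f1, ev_f2, X, ev_var, ev_zr, std_zero, std_F, std_P, std_rk]
      simp only [PC.eval, Nat.unpair_pair]
      rfl
    · simp only [holds_rke, tF, tP, sc, ev_f1, ev_f2, X, ev_var, std_succ, std_F, std_P, std_rk]
      simp only [PC.eval, Nat.unpair_pair]
    · rintro c (hc | hc)
      · exact hf v' hv' c hc
      · exact hg v' hv' c hc

theorem std_univ (v : ℕ → ℕ) (t : PC) (ht : ∀ z, t.eval z = Halt z) : Sat stdA v (clsU t) := by
  classical
  intro v' _
  simp only [clsU, List.mem_cons, List.not_mem_nil, or_false, forall_eq_or_imp, forall_eq,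
    holds_lt, holds_le, holds_or, holds_and, holds_rke, sc, tU, tW, tP, tF, ev_f1, ev_f2,
    ev_f3, ev_zr, X, ev_var, std_rk, std_zero, std_F, std_P, std_U, std_W, std_succ, ht,
    stdU_pos, stdU_le]
  have hle : ∀ z, Halt z ≤ 0 ↔ ¬ 0 < Halt z := fun z => not_lt.symm
  refine ⟨?_, ?_, ?_, ?_⟩
  · rw [hle, Halt_pos]
    by_cases h0 : 0 < v' 0
    · exact Or.inl h0
    · have : v' 0 = 0 := by omega
      rw [this]
      right
      by_cases h1 : (Nat.Partrec.Code.evaln (v' 3) (Denumerable.ofNat Nat.Partrec.Code (v' 1))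
        (v' 2)).isSome = true
      · exact Or.inr ⟨_, h1⟩
      · exact Or.inl h1
  · rw [Halt_pos]
    by_cases h0 : 0 < v' 0
    · exact Or.inl h0
    · have : v' 0 = 0 := by omega
      rw [this]
      right
      by_cases h1 : UP 0 (v' 1) (v' 2)
      · right
        have h2 : ∃ s, (Nat.Partrec.Code.evaln s (Denumerable.ofNat Nat.Partrec.Code (v' 1))
          (v' 2)).isSome := h1
        have h3 : stdW 0 (v' 1) (v' 2) = h2.choose := by
          unfold stdW
          exact dif_pos h2
        rw [h3]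
        exact h2.choose_spec
      · exact Or.inl h1
  · by_cases h1 : UP (v' 0) (v' 1) (Nat.pair (v' 2) (v' 3))
    · exact Or.inl h1
    · exact Or.inr ⟨_, h1⟩
  · by_cases h1 : UP (v' 0 + 1) (v' 1) (v' 2)
    · right
      have h2 : ∃ a, ¬ UP (v' 0) (v' 1) (Nat.pair (v' 2) a) := h1
      have h3 : stdW (v' 0 + 1) (v' 1) (v' 2) = h2.choose := by
        unfold stdW
        exact dif_pos h2
      rw [h3]
      exact h2.choose_spec
    · exact Or.inl h1

/-- all clauses -/
def arC (t : PC) : List Cl := clsN ++ clsA ++ t.cls ++ clsU t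

/-- the formula which is not valid iff `UP n x x` -/
def GF (t : PC) (n x : ℕ) : Fm :=
  sent 4 (conj (.lt zr (tU (nm n) (nm x) (nm x))) (arC t))

theorem GF_valid (t : PC) (ht : ∀ z, t.eval z = Halt z) (n x : ℕ) :
    Valid Vdown (GF t n x) ↔ ¬ UP n x x := by
  rw [← not_iff_not, not_not]
  unfold GF
  rw [sent_not_valid (by decide)]
  constructor
  · rintro ⟨U, S, v, h⟩
    have hs : Sat S v (arC t) := fun v' hv' => ((conj_holds S v' _ _).1 (h v' hv')).1
    have hN : ModN S := (clsN_holds S v).1 (hs.mono fun c hc => by simp [arC, hc])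
    have hA : ModA S := modA_of_sat hN v (hs.mono fun c hc => by simp [arC, hc])
    have hu := univ_eval hA v t ht (hs.mono fun c hc => by simp [arC, hc])
      (hs.mono fun c hc => by simp [arC, hc]) n (nmU S x) (nmU S x)
    have hl := ((conj_holds S v _ _).1 (h v fun _ _ => rfl)).2
    rw [holds_lt, ev_zr, tU, ev_f3, ev_nm, ev_nm, lt_iff hN, NN_zero hN, hu, NN_nm hN] at hl
    exact hl
  · intro h
    refine ⟨ℕ, stdA, fun _ => 0, fun v' hv' => ?_⟩
    rw [conj_holds]
    refine ⟨fun c hc => ?_, ?_⟩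
    · simp only [arC, List.mem_append] at hc
      rcases hc with ((hc | hc) | hc) | hc
      · exact std_N _ v' hv' c hc
      · exact std_clsA _ v' hv' c hc
      · exact std_PC _ t v' hv' c hc
      · exact std_univ _ t ht v' hv' c hc
    · have hnm : ∀ m, nmU stdA m = m := by
        intro m
        induction m with
        | zero => rfl
        | succ m ih =>
          change stdA.g1 0 (nmU stdA m) = m + 1
          rw [std_succ, ih]
      rw [holds_lt, ev_zr, tU, ev_f3, ev_nm, ev_nm, hnm, hnm, std_rk, std_rk, std_zero, std_U,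
        stdU_pos]
      exact h

theorem code_f3 (i : ℕ) (a b c : Tm) :
    (f3 i a b c).code = Nat.pair 1 (Nat.pair 3 i) :: (a.code ++ (b.code ++ c.code)) := by
  change _ :: (List.ofFn fun j : Fin 3 => ((![a, b, c] : Fin 3 → Tm) j).code).flatten = _
  simp [List.ofFn_succ]

theorem not_arithmetical_Vdown : ¬ Arithmetical Vdown := by
  obtain ⟨t, ht⟩ := exists_PC Halt_primrec
  apply not_arithmetical
  intro n
  refine ⟨GF t n, ?_, fun x => GF_valid t ht n x⟩
  obtain ⟨pre, hpre⟩ := sent_code (arC t)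
  have h : ∀ x, (GF t n x).code = (pre ++ (Nat.pair 6 0 :: ((Pr zr).code ++
      (Nat.pair 3 (Nat.pair 1 0) :: Nat.pair 1 (Nat.pair 3 0) :: numC n)))) ++
      (numC x ++ numC x) := by
    intro x
    change (sent 4 (conj (.lt zr (tU (nm n) (nm x) (nm x))) (arC t))).code = _
    rw [hpre]
    change pre ++ (Nat.pair 6 0 :: ((Pr zr).code ++ (Pr (f3 0 (nm n) (nm x) (nm x))).code)) = _
    rw [code_Pr (f3 0 _ _ _), code_f3, code_nm, code_nm]
    simp
  simp only [h]
  apply Primrec.to_comp
  exact Primrec.list_append.comp (Primrec.const _)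
    (Primrec.list_append.comp numC_primrec numC_primrec)

end Pool.Agent.R626.GL
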