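import Pool.Agent.R626.CompIn

/-!
# Infinitely often equal mass problems: the step lemma
-/

set_option autoImplicit false

namespace Pool.Agent.R626.IOE

open Encodable Filter Pool.Agent.R626

/-- `IOE(h)`: the functions that agree infinitely often with every computable function bounded
by `h` -/
def IOE (h : ℕ → ℕ) : Set (ℕ → ℕ) :=
  {f | ∀ r : ℕ → ℕ, Computable r → (∀ n, r n < h n) → ∃ᶠ n in atTop, f n = r n}

variable {O : Set (ℕ →. ℕ)}

/-- the values `x` that occur at least `c / 2^j` times in the list `L` -/
def heavyP (x : ℕ) (p : List ℕ × ℕ) : Prop :=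
  (Nat.unpair x).1 = p.2 + 1 ∧
    (p.1.filter (fun y => (Nat.unpair y).1 = p.2 + 1)).length < (p.1.filter (fun y => y = x)).length * 2 ^ p.2

instance : DecidableRel heavyP := fun x p => by unfold heavyP; infer_instance

theorem heavyP_prim : PrimrecRel heavyP := by
  have hf1 : Primrec₂ (fun (L : List ℕ) (j : ℕ) => L.filter (fun y => (Nat.unpair y).1 = j + 1)) := by
    refine PrimrecRel.listFilter (R := fun y j => (Nat.unpair y).1 = j + 1) ?_
    exact Primrec.eq.comp (Primrec.fst.comp (Primrec.unpair.comp Primrec.fst))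
      (Primrec.succ.comp Primrec.snd)
  have hf2 : Primrec₂ (fun (L : List ℕ) (x : ℕ) => L.filter (fun y => y = x)) := by
    refine PrimrecRel.listFilter (R := fun y x => y = x) ?_
    exact Primrec.eq
  have hp : Primrec (fun n : ℕ => 2 ^ n) := by
    have := Primrec.nat_rec₁ (f := fun _ x => x * 2) 1
      (Primrec.nat_mul.comp Primrec.snd (Primrec.const 2))
    refine this.of_eq fun n => ?_
    induction n with
    | zero => rfl
    | succ n ih => simp only [] at ih ⊢; rw [ih, pow_succ]
  refine PrimrecPred.and ?_ ?_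
  · exact Primrec.eq.comp (Primrec.fst.comp (Primrec.unpair.comp Primrec.fst))
      (Primrec.succ.comp (Primrec.snd.comp Primrec.snd))
  · refine Primrec.nat_lt.comp ?_ ?_
    · exact Primrec.list_length.comp (hf1.comp (Primrec.fst.comp Primrec.snd)
        (Primrec.snd.comp Primrec.snd))
    · refine Primrec.nat_mul.comp ?_ (hp.comp (Primrec.snd.comp Primrec.snd))
      exact Primrec.list_length.comp (hf2.comp (Primrec.fst.comp Primrec.snd) Primrec.fst)

/-- the list of the heavy values -/
def heavy (L : List ℕ) (j : ℕ) : List ℕ :=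
  (List.range (L.sum + 1)).filter (fun x => heavyP x (L, j))

theorem list_sum_prim : Primrec (fun L : List ℕ => L.sum) := by
  have : Primrec (fun L : List ℕ => L.foldr (fun b s => b + s) 0) :=
    Primrec.list_foldr (h := fun _ p => p.1 + p.2) Primrec.id (Primrec.const 0)
      (Primrec.nat_add.comp (Primrec.fst.comp Primrec.snd) (Primrec.snd.comp Primrec.snd))
  exact this

theorem heavy_prim : Primrec₂ heavy := by
  have h := PrimrecRel.listFilter heavyP_prim
  have h2 : Primrec₂ (fun (L : List ℕ) (j : ℕ) =>
      (List.range (L.sum + 1)).filter (fun x => heavyP x (L, j))) :=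
    h.comp (Primrec.list_range.comp (Primrec.succ.comp (list_sum_prim.comp Primrec.fst)))
      Primrec.id
  exact h2

/-- window of the number `k` -/
def blk (k : ℕ) : ℕ := Nat.log 2 k

theorem log_prim : Primrec (fun k => Nat.log 2 k) := by
  have hp : Primrec (fun n : ℕ => 2 ^ n) := by
    have := Primrec.nat_rec₁ (f := fun _ x => x * 2) 1
      (Primrec.nat_mul.comp Primrec.snd (Primrec.const 2))
    refine this.of_eq fun n => ?_
    induction n with
    | zero => rfl
    | succ n ih => simp only [] at ih ⊢; rw [ih, pow_succ]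
  have h : Primrec (fun k : ℕ => Nat.findGreatest (fun j => 2 ^ j ≤ k) k) :=
    Primrec.nat_findGreatest (p := fun k j => 2 ^ j ≤ k) Primrec.id
      (Primrec.nat_le.comp (hp.comp Primrec.snd) Primrec.fst)
  refine h.of_eq fun k => ?_
  rcases Nat.eq_zero_or_pos k with rfl | hk
  · simp
  · rw [Nat.findGreatest_eq_iff]
    refine ⟨Nat.log_le_self 2 k, fun _ => Nat.pow_log_le_self 2 hk.ne', fun n hn _ h2 => ?_⟩
    have := Nat.le_log_of_pow_le (by norm_num) h2
    omega

theorem pow_two_prim : Primrec (fun n : ℕ => 2 ^ n) := by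
  have := Primrec.nat_rec₁ (f := fun _ x => x * 2) 1
    (Primrec.nat_mul.comp Primrec.snd (Primrec.const 2))
  refine this.of_eq fun n => ?_
  induction n with
  | zero => rfl
  | succ n ih => simp only [] at ih ⊢; rw [ih, pow_succ]

/-- read off the value: component `k - 2^j` of the `(k-2^j)`-th heavy vector -/
def readOff (L : List ℕ) (k : ℕ) : ℕ :=
  ((decode (α := List ℕ) (Nat.unpair ((heavy L (Nat.log 2 k)).getD (k - 2 ^ Nat.log 2 k) 0)).2).getD
    []).getD (k - 2 ^ Nat.log 2 k) 0

theorem readOff_prim : Primrec₂ readOff := by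
  have hj : Primrec (fun p : List ℕ × ℕ => Nat.log 2 p.2) := log_prim.comp Primrec.snd
  have hi : Primrec (fun p : List ℕ × ℕ => p.2 - 2 ^ Nat.log 2 p.2) :=
    Primrec.nat_sub.comp Primrec.snd (pow_two_prim.comp hj)
  have hx : Primrec (fun p : List ℕ × ℕ =>
      (heavy p.1 (Nat.log 2 p.2)).getD (p.2 - 2 ^ Nat.log 2 p.2) 0) :=
    (Primrec.list_getD 0).comp (heavy_prim.comp Primrec.fst hj) hi
  have hv : Primrec (fun p : List ℕ × ℕ => (decode (α := List ℕ)
      (Nat.unpair ((heavy p.1 (Nat.log 2 p.2)).getD (p.2 - 2 ^ Nat.log 2 p.2) 0)).2).getD []) :=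
    Primrec.option_getD.comp (Primrec.decode.comp (Primrec.snd.comp (Primrec.unpair.comp hx)))
      (Primrec.const [])
  exact (Primrec.list_getD 0).comp hv hi

theorem length_filter_map_range (Z : ℕ → ℕ) (p : ℕ → Prop) [DecidablePred p] (n : ℕ) :
    (((List.range n).map Z).filter (fun y => p y)).length =
      ((Finset.range n).filter (fun m => p (Z m))).card := by
  classical
  rw [List.filter_map, List.length_map, ← List.countP_eq_length_filter, ← Nat.count_eq_card_filter_range,
    Nat.count]
  rfl

/-- The step lemma. -/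
theorem step {f Y R J N : ℕ → ℕ} (hJ : Computable J) (hN : Computable N)
    (hno : ¬ ∃ ψ, CompIn O ψ ∧ ψ ∈ IOE f) (hY : CompIn O Y) (hR : Computable R) :
    ∃ r : ℕ → ℕ, Computable r ∧ (∀ n, r n < f n) ∧ ∀ᶠ j in atTop,
      ((Finset.range (N j)).filter (fun m => J m = j ∧ Y m = Nat.pair (R j)
        (encode ((List.range (2 ^ j)).map fun i => r (2 ^ j + i))))).card * 2 ^ j ≤
      ((Finset.range (N j)).filter (fun m => J m = j ∧ (Nat.unpair (Y m)).1 = R j)).card := by
  classical
  -- the marked values
  let Z : ℕ → ℕ := fun m => if (Nat.unpair (Y m)).1 = R (J m) then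
    Nat.pair (J m + 1) (Nat.unpair (Y m)).2 else 0
  have hZ : CompIn O Z := by
    have hF : Primrec₂ (fun (y q : ℕ) => if (Nat.unpair y).1 = (Nat.unpair q).1 then
        Nat.pair ((Nat.unpair q).2 + 1) (Nat.unpair y).2 else 0) := by
      refine Primrec.ite ?_ ?_ (Primrec.const 0)
      · exact Primrec.eq.comp (Primrec.fst.comp (Primrec.unpair.comp Primrec.fst))
          (Primrec.fst.comp (Primrec.unpair.comp Primrec.snd))
      · exact Primrec₂.natPair.comp (Primrec.succ.comp
          (Primrec.snd.comp (Primrec.unpair.comp Primrec.snd)))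
          (Primrec.snd.comp (Primrec.unpair.comp Primrec.fst))
    refine (CompIn.prim₂ hF hY ((CompIn.of_comp (hR.comp hJ)).pair (CompIn.of_comp hJ))).of_eq
      fun m => ?_
    simp [Z]
  let u : ℕ → ℕ := fun k => N (Nat.log 2 k)
  have hu : Computable u := hN.comp log_prim.to_comp
  let Γ : ℕ → ℕ := fun k => readOff ((List.range (u k)).map Z) k
  have hΓ : CompIn O Γ := by
    have hF : Primrec₂ (fun (l k : ℕ) => readOff ((decode (α := List ℕ) l).getD []) k) :=
      readOff_prim.comp (Primrec.option_getD.comp (Primrec.decode.comp Primrec.fst)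
        (Primrec.const [])) Primrec.snd
    refine (CompIn.prim₂ hF (hZ.mapRange.comp (CompIn.of_comp hu))
      (CompIn.of_prim Primrec.id)).of_eq fun k => ?_
    simp [Γ]
  have hΓn : Γ ∉ IOE f := fun h => hno ⟨Γ, hΓ, h⟩
  simp only [IOE, Set.mem_ofPred_eq] at hΓn
  push Not at hΓn
  obtain ⟨r, hr, hrf, hrn⟩ := hΓn
  refine ⟨r, hr, hrf, ?_⟩
  obtain ⟨k₀, hk₀⟩ := Filter.eventually_atTop.1 hrn
  filter_upwards [eventually_ge_atTop k₀] with j hj
  by_contra hcon
  push Not at hcon
  set ρ : List ℕ := (List.range (2 ^ j)).map fun i => r (2 ^ j + i) with hρ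
  set x : ℕ := Nat.pair (j + 1) (encode ρ) with hx
  set L : List ℕ := (List.range (N j)).map Z with hL
  have hcnt : (L.filter (fun y => y = x)).length =
      ((Finset.range (N j)).filter (fun m => J m = j ∧ Y m = Nat.pair (R j) (encode ρ))).card := by
    rw [hL, length_filter_map_range]
    congr 1
    ext m
    simp only [Finset.mem_filter, and_congr_right_iff]
    intro _
    constructor
    · intro h
      by_cases h1 : (Nat.unpair (Y m)).1 = R (J m)
      · simp only [Z, if_pos h1] at h
        rw [hx, Nat.pair_eq_pair] at h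
        have hJm : J m = j := by omega
        refine ⟨hJm, ?_⟩
        rw [← Nat.pair_unpair (Y m), h1, hJm, h.2]
      · simp only [Z, if_neg h1] at h
        have h2 : (Nat.unpair x).1 = 0 := by rw [← h]; simp
        rw [hx] at h2
        simp at h2
    · rintro ⟨h1, h2⟩
      have h3 : (Nat.unpair (Y m)).1 = R (J m) := by rw [h2, h1]; simp
      simp only [Z, if_pos h3]
      rw [h1, h2, hx]
      simp
  have htot : (L.filter (fun y => (Nat.unpair y).1 = j + 1)).length =
      ((Finset.range (N j)).filter (fun m => J m = j ∧ (Nat.unpair (Y m)).1 = R j)).card := by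
    rw [hL, length_filter_map_range Z (fun y => (Nat.unpair y).1 = j + 1)]
    congr 1
    ext m
    simp only [Finset.mem_filter, and_congr_right_iff]
    intro _
    constructor
    · intro h
      by_cases h1 : (Nat.unpair (Y m)).1 = R (J m)
      · simp only [Z, if_pos h1, Nat.unpair_pair] at h
        have hJm : J m = j := by omega
        exact ⟨hJm, by rw [h1, hJm]⟩
      · simp only [Z, if_neg h1] at h
        simp at h
    · rintro ⟨h1, h2⟩
      have h3 : (Nat.unpair (Y m)).1 = R (J m) := by rw [h2, h1]
      simp only [Z, if_pos h3, Nat.unpair_pair]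
      omega
  have hxheavy : heavyP x (L, j) := by
    refine ⟨by simp [hx], ?_⟩
    show (L.filter (fun y => (Nat.unpair y).1 = j + 1)).length <
      (L.filter (fun y => y = x)).length * 2 ^ j
    rw [hcnt, htot]
    exact hcon
  -- `x` is in the list of heavy values
  have hxL : x ∈ L := by
    by_contra hnot
    have h0 : (L.filter (fun y => y = x)).length = 0 := by
      rw [List.length_eq_zero_iff, List.filter_eq_nil_iff]
      intro a ha h
      exact hnot (by simpa using (of_decide_eq_true h) ▸ ha)
    have h1 : (L.filter (fun y => (Nat.unpair y).1 = j + 1)).length <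
      (L.filter (fun y => y = x)).length * 2 ^ j := hxheavy.2
    rw [h0] at h1
    omega
  have hxH : x ∈ heavy L j := by
    unfold heavy
    rw [List.mem_filter, List.mem_range]
    exact ⟨Nat.lt_succ_of_le (List.single_le_sum (fun _ _ => Nat.zero_le _) x hxL), by
      simpa using hxheavy⟩
  -- few heavy values
  have hlen : (heavy L j).length < 2 ^ j := by
    have hnd : (heavy L j).Nodup := List.Nodup.filter _ List.nodup_range
    rw [← List.toFinset_card_of_nodup hnd]
    set S := (heavy L j).toFinset
    set C := (Finset.range (N j)).filter (fun m => (Nat.unpair (Z m)).1 = j + 1) with hC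
    have hCc : C.card = (L.filter (fun y => (Nat.unpair y).1 = j + 1)).length := by
      rw [hL, length_filter_map_range Z (fun y => (Nat.unpair y).1 = j + 1)]
    have hS : ∀ y ∈ S, C.card < (C.filter (fun m => Z m = y)).card * 2 ^ j := by
      intro y hy
      have hy' : heavyP y (L, j) := by
        have := List.mem_toFinset.1 hy
        unfold heavy at this
        simpa using (List.mem_filter.1 this).2
      have h1 : (L.filter (fun y => (Nat.unpair y).1 = j + 1)).length <
        (L.filter (fun z => z = y)).length * 2 ^ j := hy'.2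
      rw [← hCc] at h1
      refine lt_of_lt_of_le h1 (Nat.mul_le_mul_right _ ?_)
      rw [hL, length_filter_map_range Z (fun z => z = y)]
      refine Finset.card_le_card fun m hm => ?_
      rw [Finset.mem_filter] at hm
      rw [hC, Finset.mem_filter, Finset.mem_filter]
      refine ⟨⟨hm.1, ?_⟩, hm.2⟩
      rw [hm.2]; exact hy'.1
    have hsum : ∑ y ∈ S, (C.filter (fun m => Z m = y)).card ≤ C.card := by
      rw [← Finset.card_biUnion]
      · refine Finset.card_le_card fun m hm => ?_
        rw [Finset.mem_biUnion] at hm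
        obtain ⟨y, -, hy⟩ := hm
        exact (Finset.mem_filter.1 hy).1
      · intro a _ b _ hab
        refine Finset.disjoint_left.2 fun m h1 h2 => hab ?_
        rw [← (Finset.mem_filter.1 h1).2, (Finset.mem_filter.1 h2).2]
    have h2 : S.card * (C.card + 1) ≤ C.card * 2 ^ j := by
      calc S.card * (C.card + 1) = ∑ y ∈ S, (C.card + 1) := by rw [Finset.sum_const, smul_eq_mul]
        _ ≤ ∑ y ∈ S, (C.filter (fun m => Z m = y)).card * 2 ^ j :=
            Finset.sum_le_sum fun y hy => hS y hy
        _ = (∑ y ∈ S, (C.filter (fun m => Z m = y)).card) * 2 ^ j := by rw [Finset.sum_mul]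
        _ ≤ C.card * 2 ^ j := Nat.mul_le_mul_right _ hsum
    by_contra h3
    push Not at h3
    have h4 : 2 ^ j * (C.card + 1) ≤ C.card * 2 ^ j := le_trans (Nat.mul_le_mul_right _ h3) h2
    have h5 : 0 < 2 ^ j := by positivity
    nlinarith
  obtain ⟨i, hi, hix⟩ := List.getElem_of_mem hxH
  have hi2 : i < 2 ^ j := lt_trans hi hlen
  have hlog : Nat.log 2 (2 ^ j + i) = j := by
    rw [Nat.log_eq_iff (Or.inr ⟨by norm_num, by positivity⟩)]
    constructor
    · omega
    · rw [pow_succ]; omega
  have hk : k₀ ≤ 2 ^ j + i := by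
    have := Nat.lt_two_pow_self (n := j)
    omega
  apply hk₀ _ hk
  show readOff ((List.range (u (2 ^ j + i))).map Z) (2 ^ j + i) = r (2 ^ j + i)
  have hu' : u (2 ^ j + i) = N j := by simp only [u, hlog]
  rw [hu', ← hL]
  unfold readOff
  rw [hlog]
  have h6 : 2 ^ j + i - 2 ^ j = i := by omega
  rw [h6]
  have h7 : (heavy L j).getD i 0 = x := by
    rw [List.getD_eq_getElem?_getD, List.getElem?_eq_getElem hi, hix]; rfl
  rw [h7, hx]
  simp only [Nat.unpair_pair, encodek, Option.getD_some]
  rw [hρ]
  simp [List.getD_eq_getElem?_getD, hi2]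

end Pool.Agent.R626.IOE
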