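import Pool.Agent.R495.MP.Defs

/-!
# MP_849d81_co: the family of squares
-/

namespace R495.MP

theorem level1 (hL : S_Line) (hB : S_Base) (hS : S_Step) (j : ℕ) (hj : 1 ≤ j) (K : ℕ) :
    Fc (3 * (j : ℤ) + 1 + 2 * (K : ℤ)) (3 + 5 * (K : ℤ)) (K * (2 * j + 3) + (2 * j + 2)) := by
  have hj' : (1 : ℤ) ≤ (j : ℤ) := by exact_mod_cast hj
  induction K with
  | zero =>
    have h := hB (3 * (j : ℤ)) 2 (2 * j + 1) (by omega) (by norm_num) (hL j hj)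
    have e1 : 3 * (j : ℤ) + 1 + 2 * ((0 : ℕ) : ℤ) = 3 * (j : ℤ) + 1 := by simp
    have e2 : (3 : ℤ) + 5 * ((0 : ℕ) : ℤ) = 2 + 1 := by norm_num
    have e3 : 0 * (2 * j + 3) + (2 * j + 2) = 2 * j + 1 + 1 := by ring
    rw [e1, e2, e3]
    exact h
  | succ K ih =>
    have h := hS (3 * (j : ℤ) + 1 + 2 * (K : ℤ)) (3 + 5 * (K : ℤ)) (3 * (j : ℤ)) 2
      (K * (2 * j + 3) + (2 * j + 2)) (2 * j + 1) (by omega) (by omega) (by norm_num) (by omega)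
      ih (hL j hj)
    have e1 : 3 * (j : ℤ) + 1 + 2 * ((K + 1 : ℕ) : ℤ) = 3 * (j : ℤ) + 1 + 2 * (K : ℤ) + 2 := by
      push_cast; ring
    have e2 : (3 : ℤ) + 5 * ((K + 1 : ℕ) : ℤ) = 3 + 5 * (K : ℤ) + 2 + 3 := by
      push_cast; ring
    have e3 : (K + 1) * (2 * j + 3) + (2 * j + 2) =
        K * (2 * j + 3) + (2 * j + 2) + (2 * j + 1) + 2 := by ring
    rw [e1, e2, e3]
    exact h

theorem level2 (hB : S_Base) (hS : S_Step) (b h : ℤ) (M : ℕ) (hb : 1 ≤ b) (hh : 1 ≤ h)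
    (hG : Gc b h M) (J : ℕ) :
    Fc (b + 1 + 2 * (J : ℤ)) (h + 1 + (J : ℤ) * (h + 3)) (J * (M + 2) + (M + 1)) := by
  induction J with
  | zero =>
    have h1 := hB b h M hb hh hG
    have e1 : b + 1 + 2 * ((0 : ℕ) : ℤ) = b + 1 := by simp
    have e2 : h + 1 + ((0 : ℕ) : ℤ) * (h + 3) = h + 1 := by simp
    have e3 : 0 * (M + 2) + (M + 1) = M + 1 := by ring
    rw [e1, e2, e3]
    exact h1
  | succ J ih =>
    have hp : (1 : ℤ) ≤ h + 1 + (J : ℤ) * (h + 3) := by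
      have : (0 : ℤ) ≤ (J : ℤ) * (h + 3) := mul_nonneg (by positivity) (by omega)
      omega
    have h1 := hS (b + 1 + 2 * (J : ℤ)) (h + 1 + (J : ℤ) * (h + 3)) b h
      (J * (M + 2) + (M + 1)) M hb (by omega) hh hp ih hG
    have e1 : b + 1 + 2 * ((J + 1 : ℕ) : ℤ) = b + 1 + 2 * (J : ℤ) + 2 := by
      push_cast; ring
    have e2 : h + 1 + ((J + 1 : ℕ) : ℤ) * (h + 3) = h + 1 + (J : ℤ) * (h + 3) + h + 3 := by
      push_cast; ring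
    have e3 : (J + 1) * (M + 2) + (M + 1) = J * (M + 2) + (M + 1) + M + 2 := by ring
    rw [e1, e2, e3]
    exact h1

/-- MP-FAMILY. -/
theorem t_Family (hL : S_Line) (hB : S_Base) (hS : S_Step) (hF : S_FG) : S_Family := by
  intro t
  have hj : 1 ≤ 15 * t ^ 2 + 12 * t + 2 := by omega
  have h1 := level1 hL hB hS (15 * t ^ 2 + 12 * t + 2) hj (3 * t)
  set j : ℕ := 15 * t ^ 2 + 12 * t + 2 with hjd
  have hb : (2 : ℤ) ≤ 3 * (j : ℤ) + 1 + 2 * ((3 * t : ℕ) : ℤ) := by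
    have : (1 : ℤ) ≤ (j : ℤ) := by exact_mod_cast hj
    push_cast
    omega
  have hh : (1 : ℤ) ≤ 3 + 5 * ((3 * t : ℕ) : ℤ) := by
    push_cast
    omega
  have h2 := hF _ _ _ hb hh h1
  have h3 := level2 hB hS _ _ _ (by omega) hh h2 (3 * t + 1)
  have hb3 : (2 : ℤ) ≤ 3 * (j : ℤ) + 1 + 2 * ((3 * t : ℕ) : ℤ) + 1 + 2 * ((3 * t + 1 : ℕ) : ℤ) := by
    have : (0 : ℤ) ≤ ((3 * t + 1 : ℕ) : ℤ) := by positivity
    omega
  have hh3 : (1 : ℤ) ≤ 3 + 5 * ((3 * t : ℕ) : ℤ) + 1 +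
      ((3 * t + 1 : ℕ) : ℤ) * (3 + 5 * ((3 * t : ℕ) : ℤ) + 3) := by
    have : (0 : ℤ) ≤ ((3 * t + 1 : ℕ) : ℤ) * (3 + 5 * ((3 * t : ℕ) : ℤ) + 3) := by positivity
    omega
  have h4 := hF _ _ _ hb3 hh3 h3
  have e1 : 3 * (j : ℤ) + 1 + 2 * ((3 * t : ℕ) : ℤ) + 1 + 2 * ((3 * t + 1 : ℕ) : ℤ) =
      45 * (t : ℤ) ^ 2 + 48 * t + 10 := by
    rw [hjd]; push_cast; ring
  have e2 : 3 + 5 * ((3 * t : ℕ) : ℤ) + 1 +
      ((3 * t + 1 : ℕ) : ℤ) * (3 + 5 * ((3 * t : ℕ) : ℤ) + 3) =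
      45 * (t : ℤ) ^ 2 + 48 * t + 10 := by
    push_cast; ring
  have e3 : (3 * t + 1) * (3 * t * (2 * j + 3) + (2 * j + 2) + 2) +
      (3 * t * (2 * j + 3) + (2 * j + 2) + 1) =
      270 * t ^ 4 + 486 * t ^ 3 + 339 * t ^ 2 + 114 * t + 15 := by
    rw [hjd]; ring
  rw [e1, e2, e3] at h4
  exact h4

end R495.MP
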